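import Pool.Agent.MP_0b991d_co.H88.Round

namespace Pool.Agent.MP_0b991d_co.H88

open Finset

variable {V : Type} [DecidableEq V] [Fintype V] {G : SimpleGraph V} [DecidableRel G.Adj]
variable {p Γ E0 : ℝ} {x x' : St V} {F : Finset V} {T TL TR : ℕ} {N : ℤ} {E Err : ℝ} {d ω : ℤ}

def Num (n H σ0 a β pts TL TR i : ℕ) : Prop :=
  H ≤ a ∧ ((a + β < n ∧ a = H + TL ∧ i ≤ a + β ∧ (TR + H ≤ β ∨ ∃ y, β = TR + y ∧
    y ≤ 2 * TL + TR ∧ 2 * TL + TR + min (2 * TL + TR) σ0 ≤ 2 * y)) ∨
    (a + β = n ∧ H ≤ β ∧ i ≤ n + pts))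

omit [DecidableEq V] in
theorem mem_Dir_mir {u v : V} (h : (v, u) ∈ Dir G x) : (u, v) ∈ Dir G x.mir := by
  rw [mem_Dir] at h ⊢
  exact ⟨h.1.symm, by have := h.2; simp only [mir_l, mir_r] at this ⊢; omega⟩

omit [DecidableEq V] in
theorem sM_nonempty (hle : ∀ w, x.l w ≤ x.r w)
    (h : (sA x).card + (sA x.mir).card < Fintype.card V) : (sM x).Nonempty := by
  have := card_parts hle
  rw [← card_pos]
  omega

theorem Good.play (hp0 : 0 ≤ p) (hp1 : p ≤ 1) (hΓ : 0 ≤ Γ) (hE0 : 0 ≤ E0)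
    (h : Good G p Γ E0 x F TL TR N E 0 ω)
    (e1 : E + 10 + Γ + F.card ≤ Err) (e2 : E0 + F.card + 1 ≤ Err) {H σ0 Cv i : ℕ}
    (c1 : Fintype.card V ≤ Cv + H) (c2 : 5 * σ0 + 4 * H ≤ 2 * Cv) (c3 : 4 * H ≤ Cv + σ0)
    (c4 : 4 * H < Fintype.card V)
    (hn : Num (Fintype.card V) H σ0 (sA x).card (sA x.mir).card (Pts x).card TL TR i)
    {u v : V} (hadj : G.Adj u v) (h1 : x.l v ≤ x.r u) (h2 : x.l u ≤ x.r v) :
    ∃ x' TL' TR', Good G p Γ E0 x' F TL' TR' (N + 2) (E + 10) 2 (ω + 2) ∧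
      Step G x x' (p * Cv + 5 * Err + 2) ∧ (u, v) ∈ Dir G x' ∧
      Num (Fintype.card V) H σ0 (sA x').card (sA x'.mir).card (Pts x').card TL' TR' (i + 1) := by
  have hF : (0 : ℝ) ≤ F.card := Nat.cast_nonneg _
  have hErr : 0 ≤ Err := by linarith
  have cost : ∀ k : ℕ, k ≤ Cv → p * k ≤ p * Cv := fun k hk =>
    mul_le_mul_of_nonneg_left (by exact_mod_cast hk) hp0
  have hlu := h.1.le u
  have hlv := h.1.le v
  obtain ⟨n1, ⟨n2, n3, n4, n5⟩ | ⟨n2, n3, n4⟩⟩ := hn
  · have hM := sM_nonempty h.1.le n2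
    by_cases hL : x.l u < 0 ∧ x.l v < 0
    · obtain ⟨y1, g1, s1, m1, a1, b1⟩ := h.forcedM hp0 hp1 hΓ hE0 (Err := Err) (by linarith) e2
        hadj h1 h2 hL.1 hL.2 hM
      by_cases hst : TR + H ≤ (sA x.mir).card
      · refine ⟨y1, _, _, g1.mono (by omega) (by linarith) (by omega) (by omega), s1.mono ?_, m1,
          by omega, ?_⟩
        · have := cost (TL + (sA x.mir).card) (by omega)
          push_cast at this
          linarith
        · rw [a1, b1]
          by_cases hc : (sA x).card + 1 + (sA x.mir).card < Fintype.card V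
          · exact Or.inl ⟨hc, by omega, by omega, Or.inl hst⟩
          · exact Or.inr ⟨by omega, by omega, by omega⟩
      · obtain ⟨y, y1', y2, y3⟩ := n5.resolve_left hst
        obtain ⟨z1, g2, s2, b2, a2⟩ := g1.jumpB hp0 hp1 hΓ (Err := Err) (by linarith)
          (by push_cast; linarith) (sM_nonempty g1.1.le (by rw [a1, b1]; omega))
        by_cases hph : 2 * TL + TR < σ0
        · obtain ⟨z2, g3, s3, b3, a3⟩ := g2.jumpB hp0 hp1 hΓ (Err := Err) (by linarith)
            (by push_cast; linarith) (sM_nonempty g2.1.le (by rw [a2, b2, a1, b1]; omega))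
          refine ⟨z2, _, _, g3.mono (by omega) (by linarith) (by omega) (by omega),
            ((s1.trans s2).trans s3).mono ?_, s3.sub (s2.sub m1), by rw [a3, a2]; omega, ?_⟩
          · have := cost (TL + (sA x.mir).card + (sA y1).card + (sA y1).card) (by omega)
            rw [a2]
            push_cast at this
            linarith
          · rw [a3, b3, a2, b2, a1, b1]
            exact Or.inl ⟨by omega, by omega, by omega, Or.inr ⟨y + 2, by omega, by omega, by omega⟩⟩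
        · refine ⟨z1, _, _, g2.mono (by omega) (by linarith) (by omega) (by omega),
            (s1.trans s2).mono ?_, s2.sub m1, by rw [a2]; omega, ?_⟩
          · have := cost (TL + (sA x.mir).card + (sA y1).card) (by omega)
            push_cast at this
            linarith
          · rw [a2, b2, a1, b1]
            exact Or.inl ⟨by omega, by omega, by omega, Or.inr ⟨y + 1, by omega, by omega, by omega⟩⟩
    · obtain ⟨w1, g0, s0, m0, b1, a1⟩ := h.mir.forcedM hp0 hp1 hΓ hE0 (Err := Err) (by linarith) e2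
        hadj.symm (by simp only [mir_l, mir_r]; omega) (by simp only [mir_l, mir_r]; omega)
        (by simp only [mir_l]; omega) (by simp only [mir_l]; omega) (by rwa [sM_mir])
      have g1 := g0.mir
      have s1 := s0.mir
      have m1 := mem_Dir_mir m0
      rw [mir_mir] at s1 a1
      rw [← mir_mir w1] at b1
      generalize w1.mir = y1 at g1 s1 m1 a1 b1
      by_cases hst : TR + H ≤ (sA x.mir).card
      · refine ⟨y1, _, _, g1.mono (by omega) (by linarith) (by omega) (by omega), s1.mono ?_, m1,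
          by rw [a1]; omega, ?_⟩
        · have := cost (TR + (sA x).card) (by omega)
          push_cast at this
          linarith
        · rw [a1, b1]
          by_cases hc : (sA x).card + ((sA x.mir).card + 1) < Fintype.card V
          · exact Or.inl ⟨hc, by omega, by omega, Or.inl (by omega)⟩
          · exact Or.inr ⟨by omega, by omega, by omega⟩
      · obtain ⟨y, y1', y2, y3⟩ := n5.resolve_left hst
        obtain ⟨z1, g2, s2, b2, a2⟩ := g1.jumpB hp0 hp1 hΓ (Err := Err) (by linarith)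
          (by push_cast; linarith) (sM_nonempty g1.1.le (by rw [a1, b1]; omega))
        refine ⟨z1, _, _, g2.mono (by omega) (by linarith) (by omega) (by omega),
          (s1.trans s2).mono ?_, s2.sub m1, by rw [a2, a1]; omega, ?_⟩
        · have := cost (TR + (sA x).card + (sA x).card) (by omega)
          rw [a1]
          push_cast at this
          linarith
        · rw [a2, b2, a1, b1]
          exact Or.inl ⟨by omega, by omega, by omega, Or.inr ⟨y + 1, by omega, by omega, by omega⟩⟩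
  · have hM : sM x = ∅ := by
      have := card_parts h.1.le
      rw [← card_eq_zero]
      omega
    by_cases hL : x.l u < 0 ∧ x.l v < 0
    · obtain ⟨y1, T1, g1, s1, m1, a1, b1, p1⟩ := h.forcedE hp0 hp1 hΓ hE0 (Err := Err)
        (by linarith) (by linarith) hadj h1 h2 hL.1 hL.2 hM
      refine ⟨y1, _, _, g1.mono le_rfl (by linarith) le_rfl le_rfl, s1.mono ?_, m1,
        by rw [a1]; omega, ?_⟩
      · have := cost (sA x).card (by omega)
        linarith
      · rw [a1, b1]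
        exact Or.inr ⟨n2, n3, by omega⟩
    · obtain ⟨w1, T1, g0, s0, m0, b1, a1, p1⟩ := h.mir.forcedE hp0 hp1 hΓ hE0 (Err := Err)
        (by linarith) (by linarith)
        hadj.symm (by simp only [mir_l, mir_r]; omega) (by simp only [mir_l, mir_r]; omega)
        (by simp only [mir_l]; omega) (by simp only [mir_l]; omega) (by rwa [sM_mir])
      have g1 := g0.mir
      have s1 := s0.mir
      have m1 := mem_Dir_mir m0
      rw [mir_mir] at s1 a1
      rw [Pts_mir, ← Pts_mir w1] at p1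
      rw [← mir_mir w1] at b1
      generalize w1.mir = y1 at g1 s1 m1 a1 b1 p1
      refine ⟨y1, _, _, g1.mono le_rfl (by linarith) le_rfl le_rfl, s1.mono ?_, m1,
        by rw [a1]; omega, ?_⟩
      · have := cost (sA x.mir).card (by omega)
        linarith
      · rw [a1, b1]
        exact Or.inr ⟨n2, n3, by omega⟩

/-- few vertices have many more neighbours than expected in any given set -/
def Quasi (G : SimpleGraph V) [DecidableRel G.Adj] (p lam : ℝ) (K : ℕ) : Prop :=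
  ∀ X : Finset V, (univ.filter fun z => p * X.card + lam < deg G z X).card ≤ K

open Classical in
theorem net {lam : ℝ} {K m : ℕ} (hp0 : 0 ≤ p) (hQ : Quasi G p lam K) (hm : 0 < m)
    (X : ℤ → Finset V) (hX : ∀ s t, X s ⊆ X t ∨ X t ⊆ X s) :
    (univ.filter fun z => ∃ s, p * (X s).card + (lam + p * m) < deg G z (X s)).card ≤
      (Fintype.card V / m + 1) * K := by
  have hY : ∀ j : ℕ, ∃ Y : Finset V, ∀ s, (X s).card / m = j →
      X s ⊆ Y ∧ Y.card ≤ (X s).card + m := by
    intro j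
    rcases (univ.filter fun Y : Finset V => ∃ s, X s = Y ∧ Y.card / m = j).eq_empty_or_nonempty
      with he | hne
    · refine ⟨∅, fun s hs => ?_⟩
      have : X s ∈ univ.filter fun Y : Finset V => ∃ s, X s = Y ∧ Y.card / m = j :=
        mem_filter.mpr ⟨mem_univ _, s, rfl, hs⟩
      rw [he] at this
      simp at this
    · obtain ⟨Y, hY, hmax⟩ := exists_max_image _ card hne
      obtain ⟨t, rfl, ht⟩ := (mem_filter.mp hY).2
      refine ⟨X t, fun s hs => ⟨?_, ?_⟩⟩
      · rcases hX s t with h1 | h1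
        · exact h1
        · have := hmax (X s) (mem_filter.mpr ⟨mem_univ _, s, rfl, hs⟩)
          exact (eq_of_subset_of_card_le h1 this).symm.subset
      · have h1 := Nat.div_add_mod (X s).card m
        have h2 := Nat.div_add_mod (X t).card m
        have h3 := Nat.mod_lt (X t).card hm
        rw [hs] at h1
        rw [ht] at h2
        omega
  choose Y hY using hY
  have h1 : (univ.filter fun z => ∃ s, p * (X s).card + (lam + p * m) < deg G z (X s)) ⊆
      (range (Fintype.card V / m + 1)).biUnion fun j =>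
        univ.filter fun z => p * (Y j).card + lam < deg G z (Y j) := by
    intro z hz
    obtain ⟨s, hs⟩ := (mem_filter.mp hz).2
    obtain ⟨h2, h3⟩ := hY _ s rfl
    refine mem_biUnion.mpr ⟨(X s).card / m, mem_range.mpr (Nat.lt_succ_of_le
      (Nat.div_le_div_right (card_le_univ _))), mem_filter.mpr ⟨mem_univ _, ?_⟩⟩
    have h4 : (deg G z (X s) : ℝ) ≤ deg G z (Y ((X s).card / m)) := by exact_mod_cast deg_mono h2
    have h5 : ((Y ((X s).card / m)).card : ℝ) ≤ (X s).card + m := by exact_mod_cast h3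
    nlinarith
  refine (card_le_card h1).trans ((card_biUnion_le_card_mul _ _ K fun j _ => hQ _).trans ?_)
  rw [card_range]

open Classical in
theorem atyp {lam : ℝ} {K m : ℕ} (hp0 : 0 ≤ p) (hQ : Quasi G p lam K) (hm : 0 < m)
    (x : St V) (F : Finset V) : ∃ Z : Finset V, Z.card ≤ 2 * ((Fintype.card V / m + 1) * K) ∧
      ∀ z ∉ Z, Typ G p (lam + p * m) x F z := by
  have h1 := net hp0 hQ hm (XR x F) fun s t => by
    rcases le_total s t with h | h
    · left; intro w; simp only [mem_XR]; exact fun hw => ⟨hw.1, by omega⟩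
    · right; intro w; simp only [mem_XR]; exact fun hw => ⟨hw.1, by omega⟩
  have h2 := net hp0 hQ hm (XL x F) fun s t => by
    rcases le_total s t with h | h
    · right; intro w; simp only [mem_XL]; exact fun hw => ⟨hw.1, by omega⟩
    · left; intro w; simp only [mem_XL]; exact fun hw => ⟨hw.1, by omega⟩
  refine ⟨_ ∪ _, (card_union_le _ _).trans (le_trans (Nat.add_le_add h1 h2) (by omega)),
    fun z hz => ?_⟩
  simp only [mem_union, mem_filter, mem_univ, true_and, not_or, not_exists, not_lt] at hz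
  exact ⟨fun s _ => hz.1 s, hz.2⟩

theorem Typ.flag (hp0 : 0 ≤ p) (hp1 : p ≤ 1) {z : V} (h : Typ G p E x F z) (Z : Finset V) :
    Typ G p (E + 2 * Z.card) x (F ∪ Z) z :=
  h.close hp0 hp1 Z (fun s hs => ⟨s, hs, fun w hw => by simp [hw]⟩)
    fun s => ⟨s, fun w hw => by simp [hw]⟩

theorem Half.flag (hp0 : 0 ≤ p) (hp1 : p ≤ 1) (h : Half G p Γ E0 x F T N E 0 0) {Z : Finset V}
    {l0 l1 : ℝ} (hZ : ∀ z ∉ Z, Typ G p l0 x F z) (e1 : E ≤ E0) (e2 : l0 + 2 * Z.card ≤ l1)
    (e3 : E + 2 * Z.card ≤ l1 + Γ) : Half G p Γ E0 x (F ∪ Z) T N l1 0 N := by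
  refine ⟨h.N0, le_rfl, h.le, h.inj, h.bd, fun s hs hv => ?_, fun z hz h1 h2 => ?_,
    fun z hz => ?_, fun z hz => ?_⟩
  · refine le_trans (Nat.add_le_add (card_le_card fun w => ?_) (card_le_card fun w => ?_))
      (h.cnt s hs hv)
    · simp only [mem_XR, mem_union]; tauto
    · simp only [mem_XL, mem_union]; tauto
  · by_cases hF : z ∈ F
    · refine le_trans ?_ (h.blk z hF h1 h2)
      exact_mod_cast deg_mono fun w => by simp only [mem_Blk, mem_union]; tauto
    · have h3 := (h.t1 z hF).1 0 le_rfl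
      have h4 : (deg G z (Blk x (F ∪ Z)) : ℝ) ≤ deg G z (XR x F 0) := by
        exact_mod_cast deg_mono fun w => by
          simp only [mem_Blk, mem_XR, mem_union, not_or]
          exact fun hw => ⟨hw.1.1, by omega⟩
      have h6 : ((XR x F 0).card : ℝ) ≤ (sA x).card := by
        exact_mod_cast card_le_card fun w hw => mem_sA.mpr (mem_XR.mp hw).2
      nlinarith
  · rw [mem_union, not_or] at hz
    exact ((hZ z hz.2).flag hp0 hp1 Z).mono e2
  · by_cases hF : z ∈ F
    · left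
      rcases h.t2 z hF with h1 | h1
      · exact h1
      · exact h1.2
    · right
      refine ⟨((h.t1 z hF).flag hp0 hp1 Z).mono e3, ?_⟩
      have := h.bd z
      simp only [wL]
      omega

/-- the parameters of the strategy -/
structure Par (n : ℕ) (p lam : ℝ) (K m ℓ J H0 σ0 Cv b : ℕ) : Prop where
  p0 : 0 ≤ p
  p1 : p ≤ 1
  lam0 : 0 ≤ lam
  m0 : 0 < m
  l0 : 0 < ℓ
  J2 : 2 ≤ J
  JW : 4 * n + 1 + 2 * ℓ ≤ J * ℓ
  c1 : n ≤ Cv + H0
  c2 : 5 * σ0 + 4 * (H0 + 4 * ((n / m + 1) * K)) ≤ 2 * Cv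
  c3 : 4 * (H0 + 4 * ((n / m + 1) * K)) ≤ Cv + σ0
  c4 : 4 * (H0 + 4 * ((n / m + 1) * K)) < n
  bud : p * Cv + 5 * (lam + p * m + 40 * ℓ + ((2 * n / ℓ + 5) * (4 * ((n / m + 1) * K)) : ℕ) + 10) +
    2 + 2 * (((2 * n / ℓ + 1) * (4 * ((n / m + 1) * K)) : ℕ) * J) ≤ b

def Inv (G : SimpleGraph V) [DecidableRel G.Adj] (p l1 : ℝ) (K' ℓ J H σ0 : ℕ) (x : St V) : Prop :=
  ∃ (F : Finset V) (TL TR j φ : ℕ), φ < ℓ ∧ F.card ≤ (j + 1) * K' ∧
    Good G p (20 * ℓ + 2 * K') (l1 + 20 * ℓ) x F TL TR (2 * (j * ℓ + φ) + 1 : ℕ) (l1 + 20 * φ) 0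
      (max 0 (4 * Fintype.card V + 1 - (J - 2 : ℤ) * φ)) ∧
    Num (Fintype.card V) H σ0 (sA x).card (sA x.mir).card (Pts x).card TL TR (j * ℓ + φ)

omit [DecidableEq V] in
theorem Num.time {H σ0 i : ℕ}
    (h : Num (Fintype.card V) H σ0 (sA x).card (sA x.mir).card (Pts x).card TL TR i) :
    i ≤ 2 * Fintype.card V := by
  have h1 := card_le_univ (Pts x)
  obtain ⟨-, h2 | h2⟩ := h <;> omega

theorem Inv.round {lam : ℝ} {K m ℓ J H0 σ0 Cv b H : ℕ}
    (P : Par (Fintype.card V) p lam K m ℓ J H0 σ0 Cv b) (hQ : Quasi G p lam K) (hH0 : H0 ≤ H)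
    (hH1 : H ≤ H0 + 4 * ((Fintype.card V / m + 1) * K))
    (h : Inv G p (lam + p * m + 2 * (4 * ((Fintype.card V / m + 1) * K) : ℕ))
      (4 * ((Fintype.card V / m + 1) * K)) ℓ J H σ0 x)
    {u v : V} (hadj : G.Adj u v) (h1 : x.l v ≤ x.r u) (h2 : x.l u ≤ x.r v) :
    ∃ x', Inv G p (lam + p * m + 2 * (4 * ((Fintype.card V / m + 1) * K) : ℕ))
      (4 * ((Fintype.card V / m + 1) * K)) ℓ J H σ0 x' ∧ Step G x x' b ∧ (u, v) ∈ Dir G x' := by
  have : Nonempty V := ⟨u⟩
  have bud := P.bud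
  have c1 := P.c1
  have c2 := P.c2
  have c3 := P.c3
  have c4 := P.c4
  have hat := fun x F => atyp (G := G) P.p0 hQ P.m0 x F
  generalize hK' : 4 * ((Fintype.card V / m + 1) * K) = K' at *
  have hat2 : ∀ (x : St V) (F : Finset V), ∃ Z : Finset V, Z.card ≤ K' ∧
      (∀ z ∉ Z, Typ G p (lam + p * m) x F z) ∧ ∀ z ∉ Z, Typ G p (lam + p * m) x.mir F z := by
    intro x F
    obtain ⟨Z1, k1, k2⟩ := hat x F
    obtain ⟨Z2, k3, k4⟩ := hat x.mir F
    refine ⟨Z1 ∪ Z2, (card_union_le _ _).trans (by omega), fun z hz => k2 z fun hc =>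
      hz (mem_union_left _ hc), fun z hz => k4 z fun hc => hz (mem_union_right _ hc)⟩
  obtain ⟨F, TL, TR, j, φ, hφ, hF, g, hn⟩ := h
  have ht := hn.time
  have hj : j ≤ 2 * Fintype.card V / ℓ := (Nat.le_div_iff_mul_le P.l0).mpr (by omega)
  have hF1 : F.card ≤ (2 * Fintype.card V / ℓ + 1) * K' :=
    hF.trans (Nat.mul_le_mul_right _ (by omega))
  have hF2 : (F.card : ℝ) ≤ ((2 * Fintype.card V / ℓ + 1) * K' : ℕ) := by exact_mod_cast hF1
  have hF3 : (((2 * Fintype.card V / ℓ + 5) * K' : ℕ) : ℝ) =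
      ((2 * Fintype.card V / ℓ + 1) * K' : ℕ) + 4 * K' := by push_cast; ring
  have hφR : (φ : ℝ) + 1 ≤ ℓ := by exact_mod_cast hφ
  have hK0 : (0 : ℝ) ≤ K' := Nat.cast_nonneg _
  have hφ0 : (0 : ℝ) ≤ φ := Nat.cast_nonneg _
  have hpm : 0 ≤ p * m := mul_nonneg P.p0 (Nat.cast_nonneg _)
  have hl := P.lam0
  obtain ⟨y, TL', TR', g1, s1, m1, n1⟩ := g.play P.p0 P.p1 (by linarith) (by linarith)
    (Err := lam + p * m + 40 * ℓ + ((2 * Fintype.card V / ℓ + 5) * K' : ℕ) + 10)
    (by linarith) (by linarith) (Cv := Cv) (by omega) (by omega) (by omega) (by omega) hn hadj h1 h2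
  obtain ⟨z, g2, s2, a2, b2, p2⟩ := g1.tight P.p0 P.p1 (J := J) (by have := P.J2; omega)
  have n2 : Num (Fintype.card V) H σ0 (sA z).card (sA z.mir).card (Pts z).card TL' TR'
      (j * ℓ + φ + 1) := by
    rw [a2, b2]
    have := card_le_card p2
    exact ⟨n1.1, n1.2.imp id fun h => ⟨h.1, h.2.1, by omega⟩⟩
  have hJ2 : (2 : ℤ) ≤ J := by exact_mod_cast P.J2
  have g3 := g2.mono (N' := (2 * (j * ℓ + φ + 1) + 1 : ℕ))
    (E' := lam + p * m + 2 * K' + 20 * (φ + 1 : ℕ)) (d' := 0)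
    (ω' := max 0 (4 * Fintype.card V + 1 - (J - 2 : ℤ) * (φ + 1 : ℕ)))
    (by push_cast; omega) (by push_cast; linarith) le_rfl (by
      push_cast
      rw [mul_add (J - 2 : ℤ), mul_one]
      generalize (J - 2 : ℤ) * φ = q
      omega)
  refine ⟨z, ?_, (s1.trans s2).mono ?_, s2.sub m1⟩
  · by_cases hc : φ + 1 < ℓ
    · exact ⟨F, TL', TR', j, φ + 1, hc, hF, g3, n2⟩
    · have hℓ : φ + 1 = ℓ := by omega
      have ht2 := n2.time
      obtain ⟨Z, k1, k2, k3⟩ := hat2 z F
      have k4 : (Z.card : ℝ) ≤ K' := by exact_mod_cast k1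
      have hω : max 0 (4 * Fintype.card V + 1 - (J - 2 : ℤ) * (φ + 1 : ℕ)) = 0 := by
        rw [hℓ]
        have : ((4 * Fintype.card V + 1 + 2 * ℓ : ℕ) : ℤ) ≤ (J * ℓ : ℕ) := by exact_mod_cast P.JW
        push_cast at this
        rw [sub_mul]
        omega
      rw [hω, hℓ] at g3
      refine ⟨F ∪ Z, TL', TR', j + 1, 0, P.l0, ?_, ?_, ?_⟩
      · refine (card_union_le _ _).trans ?_
        rw [add_mul (j + 1)]
        omega
      · have e : (j + 1) * ℓ + 0 = j * ℓ + φ + 1 := by rw [add_mul]; omega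
        rw [e]
        refine Good.mono ⟨g3.1.flag P.p0 P.p1 k2 (l1 := lam + p * m + 2 * K') le_rfl
          (by linarith) (by linarith), g3.2.flag P.p0 P.p1 k3 (l1 := lam + p * m + 2 * K') le_rfl
          (by linarith) (by linarith)⟩ le_rfl (by simp) le_rfl ?_
        push_cast
        omega
      · have e : (j + 1) * ℓ + 0 = j * ℓ + φ + 1 := by rw [add_mul]; omega
        rw [e]
        exact n2
  · have := mul_le_mul_of_nonneg_right hF2 (Nat.cast_nonneg (α := ℝ) J)
    linarith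

theorem Inv.init {lam : ℝ} {K m ℓ J H0 σ0 Cv b : ℕ}
    (P : Par (Fintype.card V) p lam K m ℓ J H0 σ0 Cv b) (hQ : Quasi G p lam K) :
    ∃ (H : ℕ) (x : St V), H0 ≤ H ∧ H ≤ H0 + 4 * ((Fintype.card V / m + 1) * K) ∧ Dir G x = ∅ ∧
      Inv G p (lam + p * m + 2 * (4 * ((Fintype.card V / m + 1) * K) : ℕ))
      (4 * ((Fintype.card V / m + 1) * K)) ℓ J H σ0 x := by
  have c4 := P.c4
  obtain ⟨A, -, hA⟩ := exists_subset_card_eq (s := (univ : Finset V)) (n := H0)
    (by rw [card_univ]; omega)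
  let x0 : St V := ⟨fun _ => -1, fun w => if w ∈ A then -1 else 0⟩
  obtain ⟨Z1, k1, k2⟩ := atyp (G := G) P.p0 hQ P.m0 x0 ∅
  obtain ⟨Z2, k3, k4⟩ := atyp (G := G) P.p0 hQ P.m0 x0.mir ∅
  generalize hK' : 4 * ((Fintype.card V / m + 1) * K) = K' at *
  have hZ : (Z1 ∪ Z2).card ≤ K' := (card_union_le _ _).trans (by omega)
  have hZR : ((Z1 ∪ Z2).card : ℝ) ≤ K' := by exact_mod_cast hZ
  let x1 : St V := ⟨fun _ => -1, fun w => if w ∈ A ∪ (Z1 ∪ Z2) then -1 else 0⟩
  have l1 : ∀ w, x1.l w = -1 := fun _ => rfl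
  have r1 : ∀ w, (w ∈ A ∪ (Z1 ∪ Z2) ∧ x1.r w = -1) ∨ (w ∉ A ∪ (Z1 ∪ Z2) ∧ x1.r w = 0) := by
    intro w
    by_cases hw : w ∈ A ∪ (Z1 ∪ Z2)
    · exact Or.inl ⟨hw, if_pos hw⟩
    · exact Or.inr ⟨hw, if_neg hw⟩
  have r0 : ∀ w ∉ Z1 ∪ Z2, x1.r w = x0.r w := by
    intro w hw
    simp only [x1, x0, mem_union (s := A), hw, or_false]
  have hsA : sA x1 = A ∪ (Z1 ∪ Z2) := by
    ext w
    rw [mem_sA]
    rcases r1 w with ⟨h1, h2⟩ | ⟨h1, h2⟩
    · exact ⟨fun _ => h1, fun _ => by omega⟩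
    · exact ⟨fun _ => by omega, fun h => absurd h h1⟩
  have hsB : sA x1.mir = ∅ := by
    apply eq_empty_of_forall_notMem
    intro w
    simp only [mem_sA, mir_r, l1]
    omega
  have hH1 : (sA x1).card ≤ H0 + K' := by
    rw [hsA]
    exact (card_union_le _ _).trans (by omega)
  have hH0 : H0 ≤ (sA x1).card := by
    rw [hsA, ← hA]
    exact card_le_card subset_union_left
  refine ⟨(sA x1).card, x1, hH0, hH1, ?_, Z1 ∪ Z2, 0, 0, 0, 0, P.l0, by omega, ⟨?_, ?_⟩,
    le_rfl, Or.inl ⟨by rw [hsB, card_empty]; omega, rfl, by omega,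
      Or.inr ⟨0, by rw [hsB, card_empty], le_rfl, by omega⟩⟩⟩
  · apply eq_empty_of_forall_notMem
    rintro ⟨a, c⟩
    rw [mem_Dir, l1]
    rcases r1 a with ⟨-, h2⟩ | ⟨-, h2⟩ <;> simp only [h2] <;> omega
  · refine ⟨by omega, le_rfl, fun w => ?_, fun w w' h1 _ => ?_, fun w => by rw [l1]; omega,
      fun s hs hv => ?_, fun z hz h1 h2 => ?_, fun z hz => ?_, fun z hz => Or.inl ?_⟩
    · rcases r1 w with ⟨-, h2⟩ | ⟨-, h2⟩ <;> rw [l1] <;> omega
    · rcases r1 w with ⟨-, h2⟩ | ⟨-, h2⟩ <;> omega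
    · obtain ⟨w, hw⟩ := hv
      rw [l1] at hw
      have e1 : XR x1 (Z1 ∪ Z2) s = ∅ := eq_empty_of_forall_notMem fun w => by
        rw [mem_XR]
        rcases r1 w with ⟨-, h2⟩ | ⟨-, h2⟩ <;> omega
      have e2 : XL x1 (Z1 ∪ Z2) s = ∅ := eq_empty_of_forall_notMem fun w => by
        rw [mem_XL, l1]
        omega
      simp [e1, e2]
    · rcases r1 z with ⟨-, h3⟩ | ⟨h3, -⟩
      · omega
      · exact absurd (mem_union_right _ hz) h3
    · refine ((k2 z fun hc => hz (mem_union_left _ hc)).close P.p0 P.p1 (Z1 ∪ Z2)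
        (fun s hs => ⟨s, hs, fun w hw => ?_⟩) fun s => ⟨s, fun w hw => ?_⟩).mono
        (by push_cast; linarith)
      · simp only [mem_XR, hw, r0 w hw, not_false_eq_true, notMem_empty]
      · simp only [mem_XL, hw, not_false_eq_true, notMem_empty]
        rfl
    · simp only [wL, l1]
      omega
  · refine ⟨by omega, le_rfl, fun w => ?_, fun w w' h1 _ => ?_, fun w => ?_,
      fun s hs hv => ?_, fun z hz h1 h2 => ?_, fun z hz => ?_, fun z hz => Or.inl ?_⟩
    · simp only [mir_l, mir_r, l1]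
      rcases r1 w with ⟨-, h2⟩ | ⟨-, h2⟩ <;> omega
    · simp only [mir_r, l1] at h1
      omega
    · simp only [mir_l]
      rcases r1 w with ⟨-, h2⟩ | ⟨-, h2⟩ <;> omega
    · obtain ⟨w, hw⟩ := hv
      have hs1 : -1 ≤ s := by
        simp only [mir_l] at hw
        rcases r1 w with ⟨-, h2⟩ | ⟨-, h2⟩ <;> omega
      have e1 : XR x1.mir (Z1 ∪ Z2) s = ∅ := eq_empty_of_forall_notMem fun w => by
        rw [mem_XR, mir_r, l1]
        omega
      have e2 : XL x1.mir (Z1 ∪ Z2) s = ∅ := eq_empty_of_forall_notMem fun w => by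
        rw [mem_XL]
        omega
      simp [e1, e2]
    · simp only [mir_l] at h1
      rcases r1 z with ⟨-, h3⟩ | ⟨h3, -⟩
      · omega
      · exact absurd (mem_union_right _ hz) h3
    · refine ((k4 z fun hc => hz (mem_union_right _ hc)).close P.p0 P.p1 (Z1 ∪ Z2)
        (fun s hs => ⟨s, hs, fun w hw => ?_⟩) fun s => ⟨s, fun w hw => ?_⟩).mono
        (by push_cast; linarith)
      · simp only [mem_XR, hw, not_false_eq_true, notMem_empty]
        rfl
      · simp only [mem_XL, hw, mir_l, r0 w hw, not_false_eq_true, notMem_empty]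
    · simp only [wL, mir_l, mir_r, l1]
      rcases r1 z with ⟨-, h2⟩ | ⟨-, h2⟩ <;> omega

omit [DecidableEq V] in
theorem Dir_acyclic (hle : ∀ w, x.l w ≤ x.r w) : ¬ HasDirCycle (Dir G x) := by
  rintro ⟨v, hv⟩
  have : ∀ a c, Relation.TransGen (fun a c => (a, c) ∈ Dir G x) a c → x.r a < x.l c := by
    intro a c hac
    induction hac with
    | single h1 => exact (mem_Dir.mp h1).2
    | @tail b c _ h1 ih =>
      have h2 := (mem_Dir.mp h1).2
      have h3 := hle b
      simp only at h2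
      omega
  have h1 := this v v hv
  have h2 := hle v
  omega

omit [DecidableEq V] in
theorem und_Dir {u v : V} (h : s(u, v) ∈ undirected G (Dir G x)) :
    G.Adj u v ∧ x.l v ≤ x.r u ∧ x.l u ≤ x.r v := by
  have hadj : G.Adj u v := G.mem_edgeSet.mp h.1
  refine ⟨hadj, ?_, ?_⟩
  · by_contra hc
    exact h.2 (u, v) (mem_Dir.mpr ⟨hadj, by simpa using hc⟩) rfl
  · by_contra hc
    exact h.2 (v, u) (mem_Dir.mpr ⟨hadj.symm, by simpa using hc⟩) Sym2.eq_swap

theorem orient_diff (hle : ∀ w, x.l w ≤ x.r w) {D : Finset (V × V)} (hD : D ⊆ Dir G x) :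
    (∀ e ∈ Dir G x \ D, s(e.1, e.2) ∈ undirected G D) ∧
      Set.InjOn (fun e : V × V => s(e.1, e.2)) (Dir G x \ D : Finset (V × V)) := by
  have key : ∀ e ∈ Dir G x, ∀ e' ∈ Dir G x, s(e.1, e.2) = s(e'.1, e'.2) → e = e' := by
    rintro ⟨a, c⟩ h1 ⟨a', c'⟩ h2 h3
    rcases Sym2.eq_iff.mp h3 with ⟨h4, h5⟩ | ⟨h4, h5⟩
    · exact Prod.ext h4 h5
    · simp only at h4 h5
      subst h4 h5
      have h6 := (mem_Dir.mp h1).2
      have h7 := (mem_Dir.mp h2).2
      have h8 := hle a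
      have h9 := hle c
      simp only at h6 h7
      omega
  constructor
  · intro e he
    rw [mem_sdiff] at he
    refine ⟨G.mem_edgeSet.mpr (mem_Dir.mp he.1).1, fun e' he' hc => he.2 ?_⟩
    rwa [← key e' (hD he') e he.1 hc]
  · intro e he e' he' hc
    exact key e (mem_sdiff.mp (mem_coe.mp he)).1 e' (mem_sdiff.mp (mem_coe.mp he')).1 hc

theorem not_wins_of_strategy {b : ℕ} (I : St V → Prop) (hle : ∀ x, I x → ∀ w, x.l w ≤ x.r w)
    (hI : ∀ x, I x → ∀ u v, G.Adj u v → x.l v ≤ x.r u → x.l u ≤ x.r v →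
      ∃ x', I x' ∧ Step G x x' b ∧ (u, v) ∈ Dir G x')
    {D : Finset (V × V)} (hw : MakerWins false b G D) : ∀ x, I x → D ≠ Dir G x := by
  induction hw with
  | finished D _ hc => exact fun x h e => Dir_acyclic (hle x h) (e ▸ hc)
  | move D e he _ ih =>
    rintro x h rfl
    obtain ⟨u, v⟩ := e
    obtain ⟨h1, h2, h3⟩ := und_Dir he
    obtain ⟨y, i1, s1, m1⟩ := hI x h u v h1 h2 h3
    have hsub : insert (u, v) (Dir G x) ⊆ Dir G y := insert_subset m1 s1.sub
    have hnot : (u, v) ∉ Dir G x := fun hc => he.2 _ hc rfl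
    have hc1 : (Dir G y).card ≤ (Dir G x).card + b := by exact_mod_cast s1.card
    have fin : ∀ z, I z → insert (u, v) (Dir G x) ⊆ Dir G z →
        min 1 (undirected G (insert (u, v) (Dir G x))).ncard ≤
          (Dir G z \ insert (u, v) (Dir G x)).card →
        (Dir G z \ insert (u, v) (Dir G x)).card ≤ b → False := by
      intro z iz hz k1 k2
      obtain ⟨o1, o2⟩ := orient_diff (hle z iz) hz
      exact ih _ ⟨o1, o2, by simpa using ⟨by simpa using k1, k2⟩⟩ z iz (union_sdiff_of_subset hz)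
    by_cases hc : min 1 (undirected G (insert (u, v) (Dir G x))).ncard ≤
        (Dir G y \ insert (u, v) (Dir G x)).card
    · refine fin y i1 hsub hc ?_
      rw [card_sdiff_of_subset hsub, card_insert_of_notMem hnot]
      omega
    · have hz : (Dir G y \ insert (u, v) (Dir G x)).card = 0 := by omega
      have hy : insert (u, v) (Dir G x) = Dir G y :=
        Subset.antisymm hsub (sdiff_eq_empty_iff_subset.mp (card_eq_zero.mp hz))
      have hne : (undirected G (Dir G y)).Nonempty := by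
        rw [← hy]
        apply Set.nonempty_of_ncard_ne_zero
        omega
      obtain ⟨e', he'⟩ := hne
      induction e' using Sym2.ind with
      | _ a c =>
        obtain ⟨k1, k2, k3⟩ := und_Dir he'
        obtain ⟨z, i2, s2, m2⟩ := hI y i1 a c k1 k2 k3
        have hc2 : (Dir G z).card ≤ (Dir G y).card + b := by exact_mod_cast s2.card
        refine fin z i2 (hy ▸ s2.sub) ?_ ?_
        · rw [hy]
          refine (min_le_left _ _).trans (card_pos.mpr ⟨(a, c), mem_sdiff.mpr ⟨m2, fun hc => ?_⟩⟩)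
          exact he'.2 _ hc rfl
        · rw [hy, card_sdiff_of_subset s2.sub]
          omega

theorem not_wins {lam : ℝ} {K m ℓ J H0 σ0 Cv b : ℕ}
    (P : Par (Fintype.card V) p lam K m ℓ J H0 σ0 Cv b) (hQ : Quasi G p lam K) :
    ¬ MakerWins false b G ∅ := by
  obtain ⟨H, x, h0, h1, h2, h3⟩ := Inv.init P hQ
  intro hw
  refine not_wins_of_strategy _ (fun x hx => ?_)
    (fun x hx u v k1 k2 k3 => Inv.round P hQ h0 h1 hx k1 k2 k3) hw x h3 h2.symm
  obtain ⟨F, TL, TR, j, φ, -, -, g, -⟩ := hx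
  exact g.1.le

end Pool.Agent.MP_0b991d_co.H88
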