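import Pool.Agent.MP_0b991d_co.Lower

namespace Pool.Agent.MP_0b991d_co.H88

open Finset

/-- interval representation: vertex w covers the cells l w, ..., r w; negative cells are left. -/
structure St (V : Type) where
  l : V → ℤ
  r : V → ℤ

variable {V : Type} [DecidableEq V] [Fintype V]

def St.mir (x : St V) : St V := ⟨fun w => -1 - x.r w, fun w => -1 - x.l w⟩

omit [DecidableEq V] [Fintype V] in
@[simp] theorem mir_l (x : St V) (w : V) : x.mir.l w = -1 - x.r w := rfl
omit [DecidableEq V] [Fintype V] in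
@[simp] theorem mir_r (x : St V) (w : V) : x.mir.r w = -1 - x.l w := rfl

omit [DecidableEq V] [Fintype V] in
@[simp] theorem mir_mir (x : St V) : x.mir.mir = x := by
  cases x
  simp [St.mir]

variable (G : SimpleGraph V) [DecidableRel G.Adj]

def deg (z : V) (X : Finset V) : ℕ := (X.filter (G.Adj z)).card

def Dir (x : St V) : Finset (V × V) := univ.filter fun e => G.Adj e.1 e.2 ∧ x.r e.1 < x.l e.2

def XR (x : St V) (F : Finset V) (s : ℤ) : Finset V := univ.filter fun w => w ∉ F ∧ x.r w < s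

def XL (x : St V) (F : Finset V) (s : ℤ) : Finset V :=
  univ.filter fun w => w ∉ F ∧ s < x.l w ∧ x.l w < 0

def sA (x : St V) : Finset V := univ.filter fun w => x.r w < 0

def sM (x : St V) : Finset V := univ.filter fun w => x.l w < 0 ∧ 0 ≤ x.r w

def Blk (x : St V) (F : Finset V) : Finset V := univ.filter fun w => w ∉ F ∧ x.r w = -1

def Pts (x : St V) : Finset V := univ.filter fun w => x.l w = x.r w ∧ (x.r w < -1 ∨ 0 < x.l w)

def Typ (p E : ℝ) (x : St V) (F : Finset V) (z : V) : Prop :=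
  (∀ s ≤ 0, (deg G z (XR x F s) : ℝ) ≤ p * (XR x F s).card + E) ∧
  (∀ s, (deg G z (XL x F s) : ℝ) ≤ p * (XL x F s).card + E)

def wL (x : St V) (z : V) : ℤ := min (x.r z) (-1) - x.l z

structure Half (p Γ E0 : ℝ) (x : St V) (F : Finset V) (T : ℕ) (N : ℤ) (E : ℝ) (d ω : ℤ) :
    Prop where
  N0 : 0 ≤ N
  d0 : 0 ≤ d
  le : ∀ w, x.l w ≤ x.r w
  inj : ∀ w w', x.r w < -1 → x.r w = x.r w' → w = w'
  bd : ∀ w, -N ≤ x.l w
  cnt : ∀ s < 0, (∃ w, x.l w ≤ s) → (XR x F s).card + (XL x F s).card ≤ T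
  blk : ∀ z ∈ F, x.l z < 0 → 0 ≤ x.r z → (deg G z (Blk x F) : ℝ) ≤ p * (sA x).card + E0
  t1 : ∀ z ∉ F, Typ G p E x F z
  t2 : ∀ z ∈ F, wL x z ≤ d ∨ (Typ G p (E + Γ) x F z ∧ wL x z ≤ ω)

variable {G}

omit [DecidableEq V] in
@[simp] theorem mem_Dir {x : St V} {e : V × V} :
    e ∈ Dir G x ↔ G.Adj e.1 e.2 ∧ x.r e.1 < x.l e.2 := by simp [Dir]
@[simp] theorem mem_XR {x : St V} {F : Finset V} {s : ℤ} {w : V} :
    w ∈ XR x F s ↔ w ∉ F ∧ x.r w < s := by simp [XR]
@[simp] theorem mem_XL {x : St V} {F : Finset V} {s : ℤ} {w : V} :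
    w ∈ XL x F s ↔ w ∉ F ∧ s < x.l w ∧ x.l w < 0 := by simp [XL]
omit [DecidableEq V] in
@[simp] theorem mem_sA {x : St V} {w : V} : w ∈ sA x ↔ x.r w < 0 := by simp [sA]
omit [DecidableEq V] in
@[simp] theorem mem_sM {x : St V} {w : V} : w ∈ sM x ↔ x.l w < 0 ∧ 0 ≤ x.r w := by simp [sM]
@[simp] theorem mem_Blk {x : St V} {F : Finset V} {w : V} :
    w ∈ Blk x F ↔ w ∉ F ∧ x.r w = -1 := by simp [Blk]
omit [DecidableEq V] in
@[simp] theorem mem_Pts {x : St V} {w : V} :
    w ∈ Pts x ↔ x.l w = x.r w ∧ (x.r w < -1 ∨ 0 < x.l w) := by simp [Pts]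

omit [DecidableEq V] in
theorem sM_mir (x : St V) : sM x.mir = sM x := by
  ext w; simp only [mem_sM, mir_l, mir_r]; omega

omit [DecidableEq V] in
theorem Pts_mir (x : St V) : Pts x.mir = Pts x := by
  ext w; simp only [mem_Pts, mir_l, mir_r]; omega

omit [DecidableEq V] [Fintype V] in
theorem deg_mono {z : V} {X Y : Finset V} (h : X ⊆ Y) : deg G z X ≤ deg G z Y :=
  card_le_card (filter_subset_filter _ h)

omit [DecidableEq V] [Fintype V] in
theorem deg_le_card (z : V) (X : Finset V) : deg G z X ≤ X.card := card_filter_le _ _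

omit [Fintype V] in
theorem deg_union_le (z : V) (X Y : Finset V) : deg G z (X ∪ Y) ≤ deg G z X + deg G z Y := by
  unfold deg
  rw [filter_union]
  exact card_union_le _ _

omit [Fintype V] in
theorem deg_le_of_sub {z : V} {X Y C : Finset V} (h : X ⊆ Y ∪ C) :
    deg G z X ≤ deg G z Y + C.card :=
  (deg_mono h).trans ((deg_union_le z Y C).trans (Nat.add_le_add_left (deg_le_card z C) _))

omit [Fintype V] in
theorem drift {p E : ℝ} (hp0 : 0 ≤ p) (hp1 : p ≤ 1) {z : V} {X X' C C' : Finset V}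
    (h : (deg G z X : ℝ) ≤ p * X.card + E) (h1 : X' ⊆ X ∪ C) (h2 : X ⊆ X' ∪ C') :
    (deg G z X' : ℝ) ≤ p * X'.card + (E + C.card + C'.card) := by
  have h3 : (deg G z X' : ℝ) ≤ deg G z X + C.card := by exact_mod_cast deg_le_of_sub h1
  have h4 : (X.card : ℝ) ≤ X'.card + C'.card := by
    exact_mod_cast (card_le_card h2).trans (card_union_le _ _)
  have h5 : (0 : ℝ) ≤ C'.card := Nat.cast_nonneg _
  nlinarith

theorem Typ.mono {p E E' : ℝ} {x : St V} {F : Finset V} {z : V} (h : Typ G p E x F z)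
    (hE : E ≤ E') : Typ G p E' x F z :=
  ⟨fun s hs => (h.1 s hs).trans (by linarith), fun s => (h.2 s).trans (by linarith)⟩

/-- transfer of typicality along a change of the structure that only moves the vertices of C
relative to the others -/
theorem Typ.close {p E : ℝ} (hp0 : 0 ≤ p) (hp1 : p ≤ 1) {x x' : St V} {F F' : Finset V} {z : V}
    (C : Finset V) (h : Typ G p E x F z)
    (hR : ∀ s' ≤ 0, ∃ s ≤ 0, ∀ w ∉ C, (w ∈ XR x' F' s' ↔ w ∈ XR x F s))
    (hL : ∀ s', ∃ s, ∀ w ∉ C, (w ∈ XL x' F' s' ↔ w ∈ XL x F s)) :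
    Typ G p (E + 2 * C.card) x' F' z := by
  constructor
  · intro s' hs'
    obtain ⟨s, hs, hw⟩ := hR s' hs'
    have := drift (X' := XR x' F' s') (C := C) (C' := C) hp0 hp1 (h.1 s hs)
      (fun w hw' => by
        by_cases hc : w ∈ C
        · exact mem_union_right _ hc
        · exact mem_union_left _ ((hw w hc).mp hw'))
      (fun w hw' => by
        by_cases hc : w ∈ C
        · exact mem_union_right _ hc
        · exact mem_union_left _ ((hw w hc).mpr hw'))
    linarith
  · intro s'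
    obtain ⟨s, hw⟩ := hL s'
    have := drift (X' := XL x' F' s') (C := C) (C' := C) hp0 hp1 (h.2 s)
      (fun w hw' => by
        by_cases hc : w ∈ C
        · exact mem_union_right _ hc
        · exact mem_union_left _ ((hw w hc).mp hw'))
      (fun w hw' => by
        by_cases hc : w ∈ C
        · exact mem_union_right _ hc
        · exact mem_union_left _ ((hw w hc).mpr hw'))
    linarith

variable {p Γ E0 : ℝ} {x x' : St V} {F : Finset V} {T : ℕ} {N : ℤ} {E : ℝ} {d ω : ℤ}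

theorem Half.mono (h : Half G p Γ E0 x F T N E d ω) {T' : ℕ} {N' : ℤ} {E' : ℝ} {d' ω' : ℤ}
    (hT : T ≤ T') (hN : N ≤ N') (hE : E ≤ E') (hd : d ≤ d') (hω : ω ≤ ω') :
    Half G p Γ E0 x F T' N' E' d' ω' where
  N0 := h.N0.trans hN
  d0 := h.d0.trans hd
  le := h.le
  inj := h.inj
  bd w := le_trans (by omega) (h.bd w)
  cnt s hs hv := (h.cnt s hs hv).trans hT
  blk := h.blk
  t1 z hz := (h.t1 z hz).mono hE
  t2 z hz := (h.t2 z hz).imp (fun h1 => h1.trans hd)
    fun h1 => ⟨h1.1.mono (by linarith), h1.2.trans hω⟩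

/-- a change that only concerns the left part (and possibly moves u to the left part) -/
structure LC (x x' : St V) (u : V) : Prop where
  le : ∀ w, x'.l w ≤ x'.r w
  l1 : ∀ w, 0 ≤ x.l w → x'.l w = x.l w
  l2 : ∀ w, x.l w < 0 → x'.l w < 0
  r1 : ∀ w, x.r w < 0 → x'.r w < 0
  r2 : ∀ w, w ≠ u → 0 ≤ x.r w → x'.r w = x.r w
  r3 : x'.r u = x.r u ∨ x'.r u < 0

omit [DecidableEq V] in
theorem LC.sB {u : V} (c : LC x x' u) : sA x'.mir = sA x.mir := by
  ext w
  simp only [mem_sA, mir_r]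
  have h1 := c.l1 w
  have h2 := c.l2 w
  omega

theorem LC.half (hp0 : 0 ≤ p) (hp1 : p ≤ 1) {u : V} (c : LC x x' u)
    (h : Half G p Γ E0 x.mir F T N E d ω) : Half G p Γ E0 x'.mir F T N (E + 2) d ω := by
  have hr : ∀ w, 0 ≤ x'.r w → x'.r w = x.r w := by
    intro w hw
    have h1 := c.r1 w
    by_cases hu : w = u
    · subst hu; have := c.r3; omega
    · exact c.r2 w hu (by omega)
  have hl : ∀ w, 0 ≤ x'.l w → x'.l w = x.l w := by
    intro w hw
    have h2 := c.l2 w
    exact c.l1 w (by omega)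
  have hXR : ∀ s ≤ 0, XR x'.mir F s = XR x.mir F s := by
    intro s hs
    ext w
    simp only [mem_XR, mir_r]
    have h1 := c.l1 w
    have h2 := c.l2 w
    constructor <;> rintro ⟨h3, h4⟩ <;> exact ⟨h3, by omega⟩
  have hXL : ∀ s, XL x'.mir F s ⊆ XL x.mir F s := by
    intro s w
    simp only [mem_XL, mir_l]
    have h1 := hr w
    rintro ⟨h3, h4⟩
    exact ⟨h3, by omega⟩
  have hT : ∀ {E : ℝ} {z : V}, Typ G p E x.mir F z → Typ G p (E + 2) x'.mir F z := by
    intro E z hz
    have := hz.close hp0 hp1 (x' := x'.mir) (F' := F) {u}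
      (fun s' hs' => ⟨s', hs', fun w _ => by rw [hXR s' hs']⟩)
      (fun s' => ⟨s', fun w hw => ⟨fun h1 => hXL s' h1, fun h1 => by
        simp only [mem_XL, mir_l] at h1 ⊢
        have h2 := c.r2 w (by simpa using hw)
        exact ⟨h1.1, by omega⟩⟩⟩)
    simpa using this
  have hw : ∀ z, wL x'.mir z ≤ wL x.mir z ∨ wL x'.mir z < 0 ∧ x'.r z < 0 := by
    intro z
    simp only [wL, mir_l, mir_r]
    have h1 := hr z
    have h2 := c.l1 z
    have h3 := c.l2 z
    have h4 := c.le z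
    omega
  refine ⟨h.N0, h.d0, fun w => ?_, fun w w' h1 h2 => ?_, fun w => ?_, fun s hs hv => ?_,
    fun z hz h1 h2 => ?_, fun z hz => hT (h.t1 z hz), fun z hz => ?_⟩
  · have := c.le w
    simp only [mir_l, mir_r]; omega
  · simp only [mir_r] at h1 h2
    have h3 := hl w
    have h4 := hl w'
    apply h.inj w w' <;> simp only [mir_r] <;> omega
  · have h1 := h.bd w
    have h2 := hr w
    have h3 := h.N0
    simp only [mir_l] at *
    omega
  · rw [hXR s hs.le]
    refine le_trans (Nat.add_le_add_left (card_le_card (hXL s)) _) (h.cnt s hs ?_)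
    obtain ⟨w, hw⟩ := hv
    refine ⟨w, ?_⟩
    have := hr w
    simp only [mir_l] at hw ⊢
    omega
  · simp only [mir_l, mir_r] at h1 h2
    have h3 : Blk x'.mir F = Blk x.mir F := by
      ext w
      simp only [mem_Blk, mir_r]
      have h1 := c.l1 w
      have h2 := c.l2 w
      constructor <;> rintro ⟨h3, h4⟩ <;> exact ⟨h3, by omega⟩
    rw [h3, c.sB]
    have h4 := hr z
    have h5 := c.l1 z
    apply h.blk z hz <;> simp only [mir_l, mir_r] <;> omega
  · have h1 := hw z
    have h2 := h.d0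
    rcases h.t2 z hz with h3 | h3
    · left; omega
    · rcases h1 with h1 | h1
      · right
        refine ⟨?_, by omega⟩
        have := hT h3.1
        rwa [show E + Γ + 2 = E + 2 + Γ by ring] at this
      · left; omega

end Pool.Agent.MP_0b991d_co.H88
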