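import Pool.Agent.MP_0b991d_co.Lower

namespace Pool.Agent.MP_0b991d_co.H88

open Finset

variable {V : Type} [DecidableEq V] [Fintype V] {strict : Bool} {b : ℕ}

def rev (D : Finset (V × V)) : Finset (V × V) := D.image Prod.swap

omit [Fintype V] in
@[simp] theorem mem_rev {D : Finset (V × V)} {a c : V} : (a, c) ∈ rev D ↔ (c, a) ∈ D := by
  simp only [rev, mem_image, Prod.exists, Prod.swap_prod_mk, Prod.mk.injEq]
  constructor
  · rintro ⟨a', c', h, rfl, rfl⟩
    exact h
  · exact fun h => ⟨c, a, h, rfl, rfl⟩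

omit [Fintype V] in
@[simp] theorem rev_rev (D : Finset (V × V)) : rev (rev D) = D := by
  ext ⟨a, c⟩
  simp

omit [Fintype V] in
@[simp] theorem card_rev (D : Finset (V × V)) : (rev D).card = D.card :=
  card_image_of_injective _ Prod.swap_injective

omit [Fintype V] in
theorem rev_mono {D D' : Finset (V × V)} (h : D ⊆ D') : rev D ⊆ rev D' := image_subset_image h

omit [Fintype V] in
theorem undirected_rev (G : SimpleGraph V) (D : Finset (V × V)) :
    undirected G (rev D) = undirected G D := by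
  ext e
  constructor
  · rintro ⟨h1, h2⟩
    refine ⟨h1, fun x hx hc => h2 (x.2, x.1) (mem_rev.mpr hx) ?_⟩
    rw [← hc]; exact Sym2.eq_swap
  · rintro ⟨h1, h2⟩
    refine ⟨h1, fun x hx hc => h2 (x.2, x.1) (mem_rev.mp hx) ?_⟩
    rw [← hc]; exact Sym2.eq_swap

omit [Fintype V] in
theorem wins_rev {G : SimpleGraph V} {D : Finset (V × V)} (h : MakerWins strict b G D) :
    MakerWins strict b G (rev D) := by
  induction h with
  | finished D h1 h2 =>
    refine MakerWins.finished _ (by rwa [undirected_rev]) ?_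
    obtain ⟨v, hv⟩ := h2
    refine ⟨v, ?_⟩
    have : ∀ a c, Relation.TransGen (fun x y => (x, y) ∈ D) a c →
        Relation.TransGen (fun x y => (x, y) ∈ rev D) c a := by
      intro a c hac
      induction hac with
      | single h1 => exact Relation.TransGen.single (mem_rev.mpr h1)
      | tail _ h1 ih => exact Relation.TransGen.head (mem_rev.mpr h1) ih
    exact this v v hv
  | move D x hx _ ih =>
    have e1 : insert (x.2, x.1) (rev D) = rev (insert x D) := by
      simp only [rev, image_insert]; rfl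
    refine MakerWins.move _ (x.2, x.1) (by rw [undirected_rev, Sym2.eq_swap]; exact hx)
      fun S hS => ?_
    rw [e1] at hS ⊢
    have e2 : rev (insert x D) ∪ S = rev (insert x D ∪ rev S) := by
      conv_lhs => rw [← rev_rev S]
      simp only [rev, image_union]
    rw [e2]
    apply ih
    obtain ⟨h1, h2, h3⟩ := hS
    rw [undirected_rev] at h1 h3
    refine ⟨fun y hy => ?_, fun y hy y' hy' e => ?_, by rwa [card_rev]⟩
    · have := h1 (y.2, y.1) (mem_rev.mp hy)
      rwa [Sym2.eq_swap]
    · have := h2 (mem_coe.mpr (mem_rev.mp (mem_coe.mp hy : (y.1, y.2) ∈ rev S)))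
        (mem_coe.mpr (mem_rev.mp (mem_coe.mp hy' : (y'.1, y'.2) ∈ rev S))) (by
          simp only at e ⊢
          rw [Sym2.eq_swap, e, Sym2.eq_swap])
      simp only [Prod.mk.injEq] at this
      exact Prod.ext this.2 this.1

def Safe (strict : Bool) (b : ℕ) (D : Finset (V × V)) : Prop := ¬ MakerWins strict b ⊤ D

variable {D D' : Finset (V × V)}

omit [Fintype V] in
theorem Safe.flip (h : Safe strict b D) : Safe strict b (rev D) :=
  fun hw => h (by simpa using wins_rev hw)

theorem Safe.irrefl (h : Safe strict b D) (a : V) : (a, a) ∉ D :=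
  fun hc => h (wins_of_cycle D ⟨a, Relation.TransGen.single hc⟩)

theorem Safe.asymm (h : Safe strict b D) {a c : V} (h1 : (a, c) ∈ D) : (c, a) ∉ D :=
  fun hc => h (wins_of_cycle D ⟨a, Relation.TransGen.tail (Relation.TransGen.single h1) hc⟩)

omit [DecidableEq V] [Fintype V] in
theorem und_top {a c : V} (h0 : a ≠ c) (h1 : (a, c) ∉ D) (h2 : (c, a) ∉ D) :
    s(a, c) ∈ undirected ⊤ D := by
  refine ⟨by simpa using h0, fun x hx hc => ?_⟩
  rcases Sym2.eq_iff.mp hc with ⟨rfl, rfl⟩ | ⟨rfl, rfl⟩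
  · exact h1 hx
  · exact h2 hx

theorem Safe.trans (h : Safe strict b D) {a c e : V} (h1 : (a, c) ∈ D) (h2 : (c, e) ∈ D) :
    (a, e) ∈ D := by
  by_contra hc
  have h3 : (e, a) ∉ D := fun h3 => h (wins_of_cycle D ⟨a, Relation.TransGen.tail
    (Relation.TransGen.tail (Relation.TransGen.single h1) h2) h3⟩)
  have h4 : e ≠ a := by
    rintro rfl
    exact h.asymm h1 h2
  refine h (MakerWins.move D (e, a) (und_top h4 h3 hc) fun S _ => wins_of_cycle _ ⟨a, ?_⟩)
  have hs : D ⊆ insert (e, a) D ∪ S := (subset_insert _ _).trans subset_union_left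
  exact Relation.TransGen.tail (Relation.TransGen.tail (Relation.TransGen.single (hs h1)) (hs h2))
    (mem_union_left _ (mem_insert_self _ _))

omit [Fintype V] in
theorem Safe.play (h : Safe strict b D) {a c : V} (h0 : a ≠ c) (h1 : (a, c) ∉ D)
    (h2 : (c, a) ∉ D) :
    ∃ D', Safe strict b D' ∧ D ⊆ D' ∧ (a, c) ∈ D' ∧ D'.card ≤ D.card + (b + 1) := by
  by_contra hc
  refine h (MakerWins.move D (a, c) (und_top h0 h1 h2) fun S hS => ?_)
  by_contra hw
  refine hc ⟨_, hw, (subset_insert _ _).trans subset_union_left,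
    mem_union_left _ (mem_insert_self _ _), ?_⟩
  have h3 := card_union_le (insert (a, c) D) S
  have h4 := card_insert_le (a, c) D
  have h5 := hS.card_le
  omega

def dn (D : Finset (V × V)) (w : V) : Finset V := univ.filter fun a => (a, w) ∈ D

def cl (D : Finset (V × V)) (w : V) : Finset V := insert w (dn D w)

@[simp] theorem mem_dn {a w : V} : a ∈ dn D w ↔ (a, w) ∈ D := by simp [dn]

@[simp] theorem mem_cl {a w : V} : a ∈ cl D w ↔ a = w ∨ (a, w) ∈ D := by simp [cl]

theorem dn_mono (h : D ⊆ D') (w : V) : dn D w ⊆ dn D' w :=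
  fun _ ha => mem_dn.mpr (h (mem_dn.mp ha))

theorem Safe.card_cl (h : Safe strict b D) (w : V) : (cl D w).card = (dn D w).card + 1 :=
  card_insert_of_notMem (by simpa using h.irrefl w)

theorem Safe.cl_sub (h : Safe strict b D) {z v : V} (hzv : (z, v) ∈ D) : cl D z ⊆ dn D v := by
  intro a ha
  rcases mem_cl.mp ha with rfl | ha
  · exact mem_dn.mpr hzv
  · exact mem_dn.mpr (h.trans ha hzv)

theorem sum_dn (D : Finset (V × V)) : ∑ w, (dn D w).card = D.card := by
  rw [card_eq_sum_card_fiberwise (s := D) (t := univ) (f := Prod.snd) (fun _ _ => by simp)]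
  apply sum_congr rfl
  intro w _
  apply card_bij (fun a _ => (a, w))
  · intro a ha
    simpa using ha
  · intro a _ a' _ e
    exact (Prod.mk.inj e).1
  · rintro ⟨a, c⟩ he
    simp only [mem_filter] at he
    obtain ⟨h1, rfl⟩ := he
    exact ⟨a, mem_dn.mpr h1, rfl⟩

theorem sum_dn_diff (h : D ⊆ D') (X : Finset V) :
    ∑ w ∈ X, (((dn D' w).card : ℤ) - (dn D w).card) ≤ (D'.card : ℤ) - D.card := by
  have h1 : ∑ w ∈ X, (((dn D' w).card : ℤ) - (dn D w).card) ≤
      ∑ w, (((dn D' w).card : ℤ) - (dn D w).card) := by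
    apply sum_le_sum_of_subset_of_nonneg (subset_univ _)
    intro w _ _
    have := card_le_card (dn_mono h w)
    omega
  rw [sum_sub_distrib, ← sum_dn D, ← sum_dn D'] at *
  push_cast
  rw [sum_sub_distrib] at h1
  exact h1

/-- a vertex of least down-degree outside the closed down-set of z -/
theorem Safe.argmin (h : Safe strict b D) (z : V) (hz : (cl D z).card < Fintype.card V) :
    ∃ v ∉ cl D z, dn D v ⊆ cl D z ∧ ∀ w ∉ cl D z, (dn D v).card ≤ (dn D w).card := by
  obtain ⟨v, hv, hmin⟩ := exists_min_image (cl D z)ᶜ (fun w => (dn D w).card) (by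
    rw [← card_pos, card_compl]; omega)
  refine ⟨v, mem_compl.mp hv, fun w hw => ?_, fun w hw => hmin w (mem_compl.mpr hw)⟩
  by_contra hc
  have h1 := hmin w (mem_compl.mpr hc)
  have h2 := card_le_card (h.cl_sub (mem_dn.mp hw))
  rw [h.card_cl] at h2
  omega

theorem lemA (E : ℤ) (k : ℕ) : ∀ (D : Finset (V × V)) (z : V), Safe strict b D →
    Fintype.card V - (cl D z).card = k →
    2 * ∑ w ∈ (cl D z)ᶜ, max (E - (dn D w).card) 0 ≤
      (E - ((cl D z).card - b)) ^ 2 + 4 * ((Fintype.card V : ℤ) - (cl D z).card) := by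
  induction k using Nat.strong_induction_on with
  | _ k ih =>
    intro D z h hk
    have hLn := card_le_univ (cl D z)
    by_cases hall : ∀ w ∉ cl D z, E ≤ (dn D w).card
    · rw [sum_eq_zero fun w hw => by have := hall w (mem_compl.mp hw); omega]
      have := sq_nonneg (E - ((cl D z).card - b))
      omega
    obtain ⟨v, hv, hsub, hmin⟩ := h.argmin z (by
      by_contra hc
      apply hall
      intro w hw
      have : cl D z = univ := eq_univ_of_card _ (by omega)
      exact absurd (this ▸ mem_univ w) hw)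
    have hvE : ((dn D v).card : ℤ) < E := by
      by_contra hc
      apply hall
      intro w hw
      have := hmin w hw
      omega
    have main : ∀ D', Safe strict b D' → D ⊆ D' → (z, v) ∈ D' →
        2 * ∑ w ∈ (cl D z)ᶜ, max (E - (dn D w).card) 0 ≤
          2 * (((cl D' v).card - (cl D z).card) * (E - (dn D v).card) +
            ∑ w ∈ (cl D' v)ᶜ, (((dn D' w).card : ℤ) - (dn D w).card)) +
          ((E - ((cl D' v).card - b)) ^ 2 + 4 * ((Fintype.card V : ℤ) - (cl D' v).card)) ∧
        cl D z ⊆ dn D' v := by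
      intro D' h' hD hzv
      have h1 : cl D z ⊆ dn D' v := (insert_subset_insert _ (dn_mono hD z)).trans (h'.cl_sub hzv)
      have h2 : cl D z ⊆ cl D' v := h1.trans (subset_insert _ _)
      have h3 := card_le_card h1
      have h4 := h'.card_cl v
      have h5 := card_le_univ (cl D' v)
      have h6 := ih _ (by omega) D' v h' rfl
      refine ⟨?_, h1⟩
      have h7 : (cl D z)ᶜ = (cl D' v \ cl D z) ∪ (cl D' v)ᶜ := by
        ext w
        simp only [mem_compl, mem_union, mem_sdiff]
        constructor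
        · intro hw
          by_cases hc : w ∈ cl D' v
          · exact Or.inl ⟨hc, hw⟩
          · exact Or.inr hc
        · rintro (hw | hw)
          · exact hw.2
          · exact fun hc => hw (h2 hc)
      rw [h7, sum_union (disjoint_left.mpr fun w hw hc => mem_compl.mp hc (mem_sdiff.mp hw).1)]
      have h8 : ∑ w ∈ cl D' v \ cl D z, max (E - (dn D w).card) 0 ≤
          ((cl D' v).card - (cl D z).card) * (E - (dn D v).card) := by
        refine (sum_le_card_nsmul _ _ (E - (dn D v).card) fun w hw => ?_).trans (le_of_eq ?_)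
        · have := hmin w (mem_sdiff.mp hw).2
          omega
        · rw [card_sdiff_of_subset h2, nsmul_eq_mul, Nat.cast_sub (card_le_card h2)]
      have h9 : ∑ w ∈ (cl D' v)ᶜ, max (E - (dn D w).card) 0 ≤
          ∑ w ∈ (cl D' v)ᶜ, max (E - (dn D' w).card) 0 +
          ∑ w ∈ (cl D' v)ᶜ, (((dn D' w).card : ℤ) - (dn D w).card) := by
        rw [← sum_add_distrib]
        apply sum_le_sum
        intro w _
        have := card_le_card (dn_mono hD w)
        omega
      linarith
    by_cases hzv : (z, v) ∈ D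
    · obtain ⟨h1, h2⟩ := main D h Subset.rfl hzv
      have h3 : (dn D v).card = (cl D z).card := by rw [Subset.antisymm hsub h2]
      rw [h.card_cl v, h3] at h1
      simp only [sub_self, sum_const_zero] at h1
      push_cast at h1
      have hb : (0 : ℤ) ≤ b := Nat.cast_nonneg _
      nlinarith
    · rw [mem_cl, not_or] at hv
      obtain ⟨D', h', hD, hzv', hc⟩ := h.play (Ne.symm hv.1) hzv hv.2
      obtain ⟨h1, h2⟩ := main D' h' hD hzv'
      have h3 := sum_dn_diff hD (insert v (cl D' v)ᶜ)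
      rw [sum_insert (by simp)] at h3
      have h4 : 0 ≤ ∑ w ∈ (cl D' v)ᶜ, (((dn D' w).card : ℤ) - (dn D w).card) :=
        sum_nonneg fun w _ => by have := card_le_card (dn_mono hD w); omega
      have h5 := card_le_card h2
      have h6 := h'.card_cl v
      generalize ∑ w ∈ (cl D' v)ᶜ, (((dn D' w).card : ℤ) - (dn D w).card) = sp at *
      obtain ⟨j, hj⟩ : ∃ j : ℤ, j = ((cl D' v).card : ℤ) - (cl D z).card - 1 := ⟨_, rfl⟩
      obtain ⟨δ, hδ⟩ : ∃ δ : ℤ, δ = ((dn D v).card : ℤ) - ((cl D z).card - b) := ⟨_, rfl⟩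
      have e1 : ((cl D' v).card : ℤ) = (cl D z).card + j + 1 := by omega
      have e2 : ((dn D v).card : ℤ) = δ + ((cl D z).card - b) := by omega
      have j0 : 0 ≤ j := by omega
      have s1 : sp ≤ δ + 1 - j := by omega
      rw [e1, e2] at h1
      have s2 : 0 ≤ j * (δ + 1 - j) := mul_nonneg j0 (by omega)
      nlinarith [sq_nonneg j]

theorem Safe.area (h : Safe strict b D) (z : V) :
    ((Fintype.card V : ℤ) - b) ^ 2 - (((cl D z).card : ℤ) - b) ^ 2 - 4 * Fintype.card V ≤
      2 * ∑ w ∈ (cl D z)ᶜ, ((dn D w).card : ℤ) := by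
  have h1 := lemA ((Fintype.card V : ℤ) - b) _ D z h rfl
  have h2 : ∑ w ∈ (cl D z)ᶜ, ((Fintype.card V : ℤ) - b - (dn D w).card) ≤
      ∑ w ∈ (cl D z)ᶜ, max ((Fintype.card V : ℤ) - b - (dn D w).card) 0 :=
    sum_le_sum fun w _ => le_max_left _ _
  rw [sum_sub_distrib, sum_const, card_compl, nsmul_eq_mul,
    Nat.cast_sub (card_le_univ _)] at h2
  have h3 : (0 : ℤ) ≤ (cl D z).card := Nat.cast_nonneg _
  nlinarith

theorem Safe.few_low (h : Safe strict b D) (z : V) {θ : ℕ} (hθ : Fintype.card V ≤ θ ^ 2)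
    (hL : (cl D z).card ≤ b) :
    ((cl D z)ᶜ.filter fun w => (dn D w).card < θ).card + 2 * (cl D z).card ≤ 4 * θ + 2 * b := by
  by_contra hc
  obtain ⟨N, hN⟩ : ∃ N, N = ((cl D z)ᶜ.filter fun w => (dn D w).card < θ).card := ⟨_, rfl⟩
  have h1 := lemA (((cl D z).card : ℤ) - b + N) _ D z h rfl
  have h2 : (N : ℤ) * (((cl D z).card : ℤ) - b + N - θ) ≤
      ∑ w ∈ (cl D z)ᶜ, max (((cl D z).card : ℤ) - b + N - (dn D w).card) 0 := by
    refine le_trans ?_ (sum_le_sum_of_subset_of_nonneg
      (filter_subset (fun w => (dn D w).card < θ) _) fun _ _ _ => le_max_right _ _)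
    refine le_trans (le_of_eq ?_) (card_nsmul_le_sum _ _ (((cl D z).card : ℤ) - b + N - θ)
      fun w hw => ?_)
    · rw [nsmul_eq_mul, ← hN]
    · have := (mem_filter.mp hw).2
      omega
  rw [← hN] at hc
  have h3 : (0 : ℤ) ≤ (cl D z).card := Nat.cast_nonneg _
  have h4 : (Fintype.card V : ℤ) ≤ (θ : ℤ) ^ 2 := by exact_mod_cast hθ
  have h5 : (4 * θ + 1 : ℤ) * (2 * θ + 1) ≤ N * (2 * (((cl D z).card : ℤ) - b) + N - 2 * θ) :=
    mul_le_mul (by omega) (by omega) (by positivity) (by positivity)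
  have h6 : (0 : ℤ) ≤ θ := Nat.cast_nonneg _
  nlinarith

theorem Safe.nest (h : Safe strict b D) (hb : b < Fintype.card V) {z : V}
    (hz : ∀ w, (dn D w).card ≤ (dn D z).card) {θ κ : ℕ} (hθ : 0 < θ)
    (hκ : Fintype.card V ^ 2 ≤ κ * θ ^ 2) :
    ((cl D z)ᶜ.filter fun y => θ ≤ (dn (rev D) y).card).card ≤ κ := by
  set Y := (cl D z)ᶜ.filter fun y => θ ≤ (dn (rev D) y).card with hY
  have h1 : ∀ y ∈ Y, ∑ w ∈ dn (rev D) y, (cl D z \ dn D w).card ≤ Fintype.card V := by
    intro y hy
    have hy1 : y ∉ cl D z := mem_compl.mp (mem_filter.mp hy).1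
    rw [mem_cl, not_or] at hy1
    have hzy : (z, y) ∉ D := fun hc => by
      have h2 := card_le_card (h.cl_sub hc)
      have h3 := hz y
      rw [h.card_cl] at h2
      omega
    obtain ⟨D', h', hD, hzy', hc⟩ := h.play (Ne.symm hy1.1) hzy hy1.2
    have h2 := sum_dn_diff hD (dn (rev D) y)
    have h3 : ∑ w ∈ dn (rev D) y, ((cl D z \ dn D w).card : ℤ) ≤
        ∑ w ∈ dn (rev D) y, (((dn D' w).card : ℤ) - (dn D w).card) := by
      apply sum_le_sum
      intro w hw
      have hyw : (y, w) ∈ D := by simpa using hw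
      have h4 : cl D z \ dn D w ⊆ dn D' w \ dn D w :=
        sdiff_subset_sdiff ((insert_subset_insert _ (dn_mono hD z)).trans
          (h'.cl_sub (h'.trans hzy' (hD hyw)))) Subset.rfl
      have h5 := card_le_card h4
      rw [card_sdiff_of_subset (dn_mono hD w)] at h5
      have h6 := card_le_card (dn_mono hD w)
      omega
    have h4 : ((∑ w ∈ dn (rev D) y, (cl D z \ dn D w).card : ℕ) : ℤ) ≤ Fintype.card V := by
      push_cast
      omega
    exact_mod_cast h4
  have h2 : ∀ f : V → ℕ, ∑ y ∈ Y, ∑ w ∈ dn (rev D) y, f w =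
      ∑ w, (Y.filter fun y => (y, w) ∈ D).card * f w := by
    intro f
    simp only [dn, mem_rev, sum_filter, card_filter, sum_mul]
    rw [sum_comm]
    apply sum_congr rfl
    intro w _
    apply sum_congr rfl
    intro y _
    split_ifs <;> simp
  have h3 : ∀ w, (Y.filter fun y => (y, w) ∈ D).card ≤ (cl D z \ dn D w).card := by
    intro w
    have h4 : (Y.filter fun y => (y, w) ∈ D) ⊆ dn D w \ cl D z := by
      intro y hy
      rw [mem_filter] at hy
      exact mem_sdiff.mpr ⟨mem_dn.mpr hy.2, mem_compl.mp (mem_filter.mp hy.1).1⟩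
    refine (card_le_card h4).trans (card_sdiff_le_card_sdiff_iff.mpr ?_)
    have := hz w
    rw [h.card_cl]
    omega
  have h4 : ∑ w, (Y.filter fun y => (y, w) ∈ D).card ^ 2 ≤ Y.card * Fintype.card V := by
    calc ∑ w, (Y.filter fun y => (y, w) ∈ D).card ^ 2
        ≤ ∑ w, (Y.filter fun y => (y, w) ∈ D).card * (cl D z \ dn D w).card :=
          sum_le_sum fun w _ => by rw [sq]; exact Nat.mul_le_mul_left _ (h3 w)
      _ = ∑ y ∈ Y, ∑ w ∈ dn (rev D) y, (cl D z \ dn D w).card := (h2 _).symm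
      _ ≤ _ := sum_le_card_nsmul _ _ _ h1
  have h5 : Y.card * θ ≤ ∑ w, (Y.filter fun y => (y, w) ∈ D).card := by
    have h6 := h2 fun _ => 1
    simp only [mul_one, sum_const, smul_eq_mul] at h6
    rw [← h6]
    exact card_nsmul_le_sum _ _ _ fun y hy => (mem_filter.mp hy).2
  have h6 := sq_sum_le_card_mul_sum_sq (s := (univ : Finset V))
    (f := fun w => (Y.filter fun y => (y, w) ∈ D).card)
  rw [card_univ] at h6
  have h7 : (Y.card * θ) ^ 2 ≤ Fintype.card V * (Y.card * Fintype.card V) :=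
    (Nat.pow_le_pow_left h5 2).trans (h6.trans (Nat.mul_le_mul_left _ h4))
  by_contra hc
  have h8 : κ + 1 ≤ Y.card := by omega
  have h9 : Y.card * (Y.card * θ ^ 2) ≤ Y.card * (κ * θ ^ 2) := by nlinarith
  have h10 := Nat.le_of_mul_le_mul_left h9 (by omega)
  have h11 := Nat.le_of_mul_le_mul_right h10 (by positivity)
  omega

end Pool.Agent.MP_0b991d_co.H88
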