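import Pool.Agent.MP_0b991d_co.H88.Kn1

namespace Pool.Agent.MP_0b991d_co.H88

open Finset

variable {V : Type} [DecidableEq V] [Fintype V] {strict : Bool} {b : ℕ}
variable {D D' : Finset (V × V)} {C : Finset V} {θ κ : ℕ}

def Chain (D : Finset (V × V)) (C : Finset V) : Prop :=
  ∀ a ∈ C, ∀ c ∈ C, a ≠ c → (a, c) ∈ D ∨ (c, a) ∈ D

omit [Fintype V] in
theorem Chain.flip (h : Chain D C) : Chain (rev D) C :=
  fun a ha c hc hne => by simpa [or_comm] using h a ha c hc hne

omit [DecidableEq V] [Fintype V] in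
theorem Chain.mono (h : Chain D C) (hD : D ⊆ D') {C' : Finset V} (hC : C' ⊆ C) : Chain D' C' :=
  fun a ha c hc hne => (h a (hC ha) c (hC hc) hne).imp (fun h => hD h) fun h => hD h

theorem Chain.insert_top (h : Chain D C) {v : V} (hv : C ⊆ cl D v) : Chain D (insert v C) := by
  intro a ha c hc hne
  rcases mem_insert.mp ha with rfl | ha' <;> rcases mem_insert.mp hc with rfl | hc'
  · exact absurd rfl hne
  · exact Or.inr ((mem_cl.mp (hv hc')).resolve_left hne.symm)
  · exact Or.inl ((mem_cl.mp (hv ha')).resolve_left hne)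
  · exact h a ha' c hc' hne

theorem chain_out (h : Safe strict b D) (hb : b < Fintype.card V) {z : V}
    (hz : ∀ w, (dn D w).card ≤ (dn D z).card) (hθ : 0 < θ)
    (hκ : Fintype.card V ^ 2 ≤ κ * θ ^ 2) (hC : Chain D C) :
    C.card ≤ (C ∩ cl D z).card + (θ + κ) := by
  have h1 := h.nest hb hz hθ hκ
  have h2 : (C.filter fun y => (dn (rev D) y).card < θ).card ≤ θ := by
    rcases (C.filter fun y => (dn (rev D) y).card < θ).eq_empty_or_nonempty with he | hne
    · rw [he]; simp
    · obtain ⟨c, hc, hmax⟩ := exists_max_image _ (fun y => (dn (rev D) y).card) hne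
      have h3 : (C.filter fun y => (dn (rev D) y).card < θ) ⊆ cl (rev D) c := by
        intro c' hc'
        rw [mem_cl]
        by_cases he : c' = c
        · exact Or.inl he
        · rcases hC.flip c' (mem_filter.mp hc').1 c (mem_filter.mp hc).1 he with h4 | h4
          · exact Or.inr h4
          · have h5 := card_le_card (h.flip.cl_sub h4)
            have h6 := hmax c' hc'
            rw [h.flip.card_cl] at h5
            omega
      have h4 := card_le_card h3
      have h5 := (mem_filter.mp hc).2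
      rw [h.flip.card_cl] at h4
      omega
  have h3 : C ⊆ (C ∩ cl D z) ∪ ((C.filter fun y => (dn (rev D) y).card < θ) ∪
      (cl D z)ᶜ.filter fun y => θ ≤ (dn (rev D) y).card) := by
    intro c hc
    simp only [mem_union, mem_inter, mem_filter, mem_compl]
    by_cases h4 : c ∈ cl D z
    · exact Or.inl ⟨hc, h4⟩
    · rcases lt_or_ge (dn (rev D) c).card θ with h5 | h5
      · exact Or.inr (Or.inl ⟨hc, h5⟩)
      · exact Or.inr (Or.inr ⟨h4, h5⟩)
  exact (card_le_card h3).trans ((card_union_le _ _).trans (Nat.add_le_add_left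
    ((card_union_le _ _).trans (Nat.add_le_add h2 h1)) _))

theorem chain_area (hC : Chain D C) :
    (C.card : ℤ) ^ 2 - C.card ≤ 2 * ∑ c ∈ C, ((dn D c).card : ℤ) := by
  set P := C.biUnion fun c => (dn D c).image fun a => (a, c) with hP
  have h1 : C.offDiag ⊆ P ∪ rev P := by
    rintro ⟨a, c⟩ he
    rw [mem_offDiag] at he
    rcases hC a he.1 c he.2.1 he.2.2 with h | h
    · exact mem_union_left _ (mem_biUnion.mpr ⟨c, he.2.1, mem_image.mpr ⟨a, mem_dn.mpr h, rfl⟩⟩)
    · exact mem_union_right _ (mem_rev.mpr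
        (mem_biUnion.mpr ⟨a, he.1, mem_image.mpr ⟨c, mem_dn.mpr h, rfl⟩⟩))
  have h2 := (card_le_card h1).trans (card_union_le _ _)
  have h3 : P.card ≤ ∑ c ∈ C, (dn D c).card :=
    card_biUnion_le.trans (sum_le_sum fun c _ => card_image_le)
  rw [card_rev, offDiag_card] at h2
  have h4 : C.card * C.card ≤ 2 * ∑ c ∈ C, (dn D c).card + C.card := by omega
  have h5 : ((C.card * C.card : ℕ) : ℤ) ≤ (2 * ∑ c ∈ C, (dn D c).card + C.card : ℕ) := by
    exact_mod_cast h4
  push_cast at h5
  linarith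

theorem height_half (h : Safe strict b D) (hb : b < Fintype.card V) {z x : V}
    (hz : ∀ w, (dn D w).card ≤ (dn D z).card)
    (hx : ∀ w, (dn (rev D) w).card ≤ (dn (rev D) x).card) (hθ : 0 < θ)
    (hθ2 : Fintype.card V ≤ θ ^ 2) (hκ : Fintype.card V ^ 2 ≤ κ * θ ^ 2) (hC : Chain D C)
    (hL : (cl D z).card ≤ b) :
    Fintype.card V + C.card + (cl D z).card ≤ (cl (rev D) x).card + 2 * b + 6 * θ + 3 * κ := by
  have h1 := h.few_low z hθ2 hL
  have h2 := h.flip.nest hb hx hθ hκ
  rw [rev_rev] at h2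
  have h3 := chain_out h hb hz hθ hκ hC
  have h4 := chain_out h.flip hb hx hθ hκ (hC.flip.mono Subset.rfl (inter_subset_left (s₂ := cl D z)))
  have h5 : (cl D z)ᶜ ∪ (C ∩ cl D z ∩ cl (rev D) x) ⊆ cl (rev D) x ∪
      (((cl D z)ᶜ.filter fun w => (dn D w).card < θ) ∪
        (cl (rev D) x)ᶜ.filter fun y => θ ≤ (dn D y).card) := by
    intro w hw
    simp only [mem_union, mem_inter, mem_filter, mem_compl] at hw ⊢
    rcases hw with hw | hw
    · by_cases h6 : w ∈ cl (rev D) x
      · exact Or.inl h6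
      · rcases lt_or_ge (dn D w).card θ with h7 | h7
        · exact Or.inr (Or.inl ⟨hw, h7⟩)
        · exact Or.inr (Or.inr ⟨h6, h7⟩)
    · exact Or.inl hw.2
  have h6 := (card_le_card h5).trans ((card_union_le _ _).trans (Nat.add_le_add_left
    (card_union_le _ _) _))
  rw [card_union_of_disjoint (disjoint_left.mpr fun w hw hc =>
    mem_compl.mp hw (mem_inter.mp (mem_inter.mp hc).1).2), card_compl] at h6
  omega

theorem exists_max_dn [Nonempty V] (D : Finset (V × V)) :
    ∃ z, ∀ w, (dn D w).card ≤ (dn D z).card := by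
  obtain ⟨z, -, hz⟩ := exists_max_image univ (fun w => (dn D w).card) univ_nonempty
  exact ⟨z, fun w => hz w (mem_univ _)⟩

theorem height [Nonempty V] (h : Safe strict b D) (hb : b < Fintype.card V) (hθ : 0 < θ)
    (hθ2 : Fintype.card V ≤ θ ^ 2) (hκ : Fintype.card V ^ 2 ≤ κ * θ ^ 2) (hC : Chain D C)
    (h1 : ∀ w, (dn D w).card < b) (h2 : ∀ w, (dn (rev D) w).card < b) :
    C.card + Fintype.card V ≤ 2 * b + 6 * θ + 3 * κ := by
  obtain ⟨z, hz⟩ := exists_max_dn D
  obtain ⟨x, hx⟩ := exists_max_dn (rev D)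
  have h3 := height_half h hb hz hx hθ hθ2 hκ hC (by rw [h.card_cl]; exact h1 z)
  have h4 := height_half h.flip hb hx (z := x) (x := z) (by rwa [rev_rev]) hθ hθ2 hκ hC.flip
    (by rw [h.flip.card_cl]; exact h2 x)
  rw [rev_rev] at h4
  omega

theorem cross (h' : Safe strict b D') (hb : b < Fintype.card V) (hθ : 0 < θ)
    (hκ : Fintype.card V ^ 2 ≤ κ * θ ^ 2) (hD : D ⊆ D') (hC : Chain D C) {z : V}
    (hCz : C ⊆ cl D z) (hL : (cl D z).card ≤ b) {dm k : ℕ} (hm : ∀ w ∉ cl D z, dm ≤ (dn D w).card)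
    (hk : ∀ w, (dn D' w).card + 1 ≤ b + dm + k) (hx : ∃ w, b ≤ (dn D' w).card) :
    ∃ t : ℕ, C.card ≤ t + (θ + κ) ∧ ((Fintype.card V : ℤ) - b) ^ 2 - (k : ℤ) ^ 2 -
      4 * Fintype.card V + ((t : ℤ) ^ 2 - t) ≤ 2 * D'.card := by
  have : Nonempty V := ⟨z⟩
  obtain ⟨y, hy⟩ := exists_max_dn D'
  obtain ⟨w0, hw0⟩ := hx
  refine ⟨_, chain_out h' hb hy hθ hκ (hC.mono hD Subset.rfl), ?_⟩
  have h1 := h'.area y
  have h2 := chain_area ((hC.mono hD Subset.rfl).mono Subset.rfl
    (inter_subset_left (s₂ := cl D' y)))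
  have h3 : (((cl D' y).card : ℤ) - b) * dm ≤ ∑ w ∈ cl D' y \ cl D z, ((dn D' w).card : ℤ) := by
    refine le_trans ?_ (card_nsmul_le_sum _ _ (dm : ℤ) fun w hw => ?_)
    · rw [nsmul_eq_mul]
      apply mul_le_mul_of_nonneg_right _ (Nat.cast_nonneg _)
      have := le_card_sdiff (cl D z) (cl D' y)
      omega
    · have h4 := hm w (mem_sdiff.mp hw).2
      have h5 := card_le_card (dn_mono hD w)
      omega
  have h4 : ∑ w ∈ (cl D' y)ᶜ ∪ ((cl D' y \ cl D z) ∪ (C ∩ cl D' y)), ((dn D' w).card : ℤ) ≤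
      D'.card := by
    rw [← sum_dn D']
    push_cast
    exact sum_le_sum_of_subset_of_nonneg (subset_univ _) fun _ _ _ => Nat.cast_nonneg _
  rw [sum_union (disjoint_left.mpr fun w hw hc => by
      rcases mem_union.mp hc with hc | hc
      · exact mem_compl.mp hw (mem_sdiff.mp hc).1
      · exact mem_compl.mp hw (mem_inter.mp hc).2),
    sum_union (disjoint_left.mpr fun w hw hc =>
      (mem_sdiff.mp hw).2 (hCz (mem_inter.mp hc).1))] at h4
  have h5 := hk y
  have h6 := hy w0
  have h7 := h'.card_cl y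
  obtain ⟨e, he⟩ : ∃ e : ℤ, e = ((cl D' y).card : ℤ) - b := ⟨_, rfl⟩
  rw [← he] at h1 h3
  have h8 : e * (e - k) ≤ e * dm := mul_le_mul_of_nonneg_left (by omega) (by omega)
  nlinarith [sq_nonneg (e - k)]

theorem early (h : Safe strict b D) (h' : Safe strict b D') (hD : D ⊆ D')
    (hc : D'.card ≤ D.card + (b + 1)) {X : ℕ} (hX1 : b + 1 < 2 * X)
    (hX2 : (X : ℤ) ^ 2 + 4 * Fintype.card V + 2 * D'.card ≤ ((Fintype.card V : ℤ) - b) ^ 2)
    (h1 : ∀ w, (dn D w).card < b) (w : V) : (dn D' w).card < b := by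
  have key : ∀ D'', Safe strict b D'' → D''.card ≤ D'.card →
      (X : ℤ) ^ 2 ≤ (((cl D'' w).card : ℤ) - b) ^ 2 := by
    intro D'' h'' hc''
    have h2 := h''.area w
    have h3 : ∑ y ∈ (cl D'' w)ᶜ, ((dn D'' y).card : ℤ) ≤ D''.card := by
      rw [← sum_dn D'']
      push_cast
      exact sum_le_sum_of_subset_of_nonneg (subset_univ _) fun _ _ _ => Nat.cast_nonneg _
    have h4 : (D''.card : ℤ) ≤ D'.card := by exact_mod_cast hc''
    linarith
  have h2 := key D h (card_le_card hD)
  have h3 := key D' h' le_rfl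
  rw [h.card_cl] at h2
  rw [h'.card_cl] at h3
  have h4 := sum_dn_diff hD {w}
  rw [sum_singleton] at h4
  have h5 := h1 w
  have h6 : (X : ℤ) ≤ b - ((dn D w).card + 1 : ℕ) := by
    by_contra hc
    push_cast at h2 hc
    have : (0 : ℤ) ≤ b - ((dn D w).card + 1) := by omega
    nlinarith
  by_contra hc
  push_cast at h3 h6
  have h7 : (0 : ℤ) ≤ (dn D' w).card + 1 - b := by omega
  have h8 : ((dn D' w).card : ℤ) + 1 - b < X := by omega
  nlinarith

theorem grow_both (hD : D ⊆ D') (w v : V) :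
    (dn (rev D') w).card + (dn D' v).card + D.card ≤
      (dn (rev D) w).card + (dn D v).card + D'.card + 1 := by
  have h1 : (((dn (rev D') w \ dn (rev D) w).erase v).image fun a => (w, a)) ∪
      ((dn D' v \ dn D v).image fun a => (a, v)) ⊆ D' \ D := by
    intro e he
    rcases mem_union.mp he with he | he
    · obtain ⟨a, ha, rfl⟩ := mem_image.mp he
      simpa using (mem_erase.mp ha).2
    · obtain ⟨a, ha, rfl⟩ := mem_image.mp he
      simpa using ha
  have h2 := card_le_card h1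
  rw [card_union_of_disjoint (disjoint_left.mpr fun e he hc => by
      obtain ⟨a, ha, rfl⟩ := mem_image.mp he
      obtain ⟨a', -, h3⟩ := mem_image.mp hc
      exact (mem_erase.mp ha).1 (Prod.mk.inj h3).2.symm),
    card_image_of_injective _ (fun a a' e => (Prod.mk.inj e).2),
    card_image_of_injective _ (fun a a' e => (Prod.mk.inj e).1), card_sdiff_of_subset hD,
    card_sdiff_of_subset (dn_mono hD v)] at h2
  have h3 := pred_card_le_card_erase (s := dn (rev D') w \ dn (rev D) w) (a := v)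
  rw [card_sdiff_of_subset (dn_mono (rev_mono hD) w)] at h3
  have h4 := card_le_card hD
  have h5 := card_le_card (dn_mono hD v)
  have h6 := card_le_card (dn_mono (rev_mono hD) w)
  omega

structure State (strict : Bool) (b m ω : ℕ) (D : Finset (V × V)) (C : Finset V) (z x : V)
    (T : ℕ) : Prop where
  safe : Safe strict b D
  ch : Chain D C
  top : C ⊆ cl D z
  bot : C ⊆ cl (rev D) x
  zC : z ∈ C
  xC : x ∈ C
  ar : D.card ≤ T * (b + 1)
  tm : m * T ≤ m * C.card + ω * ((cl D z).card + (cl (rev D) x).card)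
  d1 : ∀ w, (dn D w).card < b
  d2 : ∀ w, (dn (rev D) w).card < b

variable {m ω T : ℕ} {z x : V}

theorem State.flip (s : State strict b m ω D C z x T) : State strict b m ω (rev D) C x z T :=
  ⟨s.safe.flip, s.ch.flip, s.bot, by rw [rev_rev]; exact s.top, s.xC, s.zC,
    by rw [card_rev]; exact s.ar, by rw [rev_rev, add_comm (cl (rev D) x).card]; exact s.tm,
    s.d2, by rw [rev_rev]; exact s.d1⟩

/-- no state with a larger value of the potential exists -/
def NoBig (V : Type) [DecidableEq V] [Fintype V] (strict : Bool) (b m ω k : ℕ) : Prop :=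
  ∀ (D : Finset (V × V)) (C : Finset V) (z x : V) (T : ℕ), State strict b m ω D C z x T →
    (cl D z).card + (cl (rev D) x).card ≤ k

theorem State.below (s : State strict b m ω D C z x T) {y c : V} (hc : c ∈ C) (h' : Safe strict b D')
    (hD : D ⊆ D') (hy : c ∈ cl D' y) : y ∈ cl (rev D') x := by
  rw [mem_cl, mem_rev]
  rcases mem_cl.mp (s.bot hc) with rfl | h1 <;> rcases mem_cl.mp hy with rfl | h2
  · exact Or.inl rfl
  · exact Or.inr h2
  · exact Or.inr (hD (mem_rev.mp h1))
  · exact Or.inr (h'.trans (hD (mem_rev.mp h1)) h2)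

theorem State.switch (s : State strict b m (θ + κ) D C z x T) (hb : b < Fintype.card V)
    (hθ : 0 < θ) (hκ : Fintype.card V ^ 2 ≤ κ * θ ^ 2) (hm : 0 < m)
    (ih : NoBig V strict b m (θ + κ) ((cl D z).card + (cl (rev D) x).card))
    (hC : θ + κ < C.card) (w : V) : (dn D w).card + 1 < (cl D z).card + m := by
  by_contra hc
  have : Nonempty V := ⟨z⟩
  obtain ⟨y, hy⟩ := exists_max_dn D
  have h1 := chain_out s.safe hb hy hθ hκ s.ch
  obtain ⟨c, hc1⟩ : (C ∩ cl D y).Nonempty := by rw [← card_pos]; omega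
  have h2 := s.below (mem_inter.mp hc1).1 s.safe Subset.rfl (mem_inter.mp hc1).2
  have h3 := hy w
  have h4 := s.safe.card_cl y
  have h5 := card_le_card (subset_insert y (C ∩ cl D y))
  have h6 := ih D (insert y (C ∩ cl D y)) y x T ⟨s.safe,
    (s.ch.mono Subset.rfl inter_subset_left).insert_top inter_subset_right,
    insert_subset (mem_cl.mpr (Or.inl rfl)) inter_subset_right,
    insert_subset h2 (inter_subset_left.trans s.bot), mem_insert_self _ _,
    mem_insert_of_mem (mem_inter.mpr ⟨s.xC, by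
      rcases mem_cl.mp h2 with h | h
      · exact mem_cl.mpr (Or.inl h.symm)
      · exact mem_cl.mpr (Or.inr (mem_rev.mp h))⟩), s.ar, ?_, s.d1, s.d2⟩
  · omega
  · have h7 : m * C.card ≤ m * ((insert y (C ∩ cl D y)).card + (θ + κ)) :=
      Nat.mul_le_mul_left _ (by omega)
    have h8 : (θ + κ) * ((cl D z).card + m + (cl (rev D) x).card) ≤
        (θ + κ) * ((cl D y).card + (cl (rev D) x).card) := Nat.mul_le_mul_left _ (by omega)
    have h9 := s.tm
    nlinarith

theorem State.extend (s : State strict b m ω D C z x T) (hb : b < Fintype.card V)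
    (ih : NoBig V strict b m ω ((cl D z).card + (cl (rev D) x).card)) :
    ∃ v D', v ∉ cl D z ∧ (∀ w ∉ cl D z, (dn D v).card ≤ (dn D w).card) ∧ Safe strict b D' ∧
      D ⊆ D' ∧ (cl D z).card ≤ (dn D' v).card ∧ D'.card ≤ D.card + (b + 1) ∧
      ¬ ((∀ w, (dn D' w).card < b) ∧ ∀ w, (dn (rev D') w).card < b) := by
  obtain ⟨v, hv, -, hmin⟩ := s.safe.argmin z (by
    have := s.d1 z
    rw [s.safe.card_cl]
    omega)
  obtain ⟨D', h', hD, hzv, hc⟩ : ∃ D', Safe strict b D' ∧ D ⊆ D' ∧ (z, v) ∈ D' ∧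
      D'.card ≤ D.card + (b + 1) := by
    by_cases hzv : (z, v) ∈ D
    · exact ⟨D, s.safe, Subset.rfl, hzv, by omega⟩
    · rw [mem_cl, not_or] at hv
      exact s.safe.play (Ne.symm hv.1) hzv hv.2
  have h1 : cl D z ⊆ dn D' v := (insert_subset_insert _ (dn_mono hD z)).trans (h'.cl_sub hzv)
  have h2 := card_le_card h1
  refine ⟨v, D', hv, hmin, h', hD, h2, hc, fun hd => ?_⟩
  have h3 : C ⊆ cl D' v := s.top.trans (h1.trans (subset_insert _ _))
  have h4 : cl (rev D) x ⊆ cl (rev D') x := insert_subset_insert _ (dn_mono (rev_mono hD) x)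
  have h5 := card_le_card h4
  have h6 := h'.card_cl v
  have h7 := ih D' (insert v C) v x (T + 1) ⟨h', (s.ch.mono hD Subset.rfl).insert_top h3,
    insert_subset (mem_cl.mpr (Or.inl rfl)) h3,
    insert_subset (s.below s.zC h' hD (h3 s.zC)) (s.bot.trans h4), mem_insert_self _ _,
    mem_insert_of_mem s.xC, by have := s.ar; rw [add_mul]; omega, ?_, hd.1, hd.2⟩
  · omega
  · rw [card_insert_of_notMem fun hc => hv (s.top hc)]
    have h8 : ω * ((cl D z).card + (cl (rev D) x).card) ≤
        ω * ((cl D' v).card + (cl (rev D') x).card) := Nat.mul_le_mul_left _ (by omega)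
    have h9 := s.tm
    rw [mul_add m, mul_add m]
    omega

structure KPar (n b θ κ m ω2 X : ℕ) : Prop where
  hb : b < n
  θ0 : 0 < θ
  θ2 : n ≤ θ ^ 2
  hκ : n ^ 2 ≤ κ * θ ^ 2
  m0 : 0 < m
  w2 : (θ + κ) * (2 * n) ≤ m * ω2
  X1 : b + 1 < 2 * X
  X2 : (X : ℤ) ^ 2 + 4 * n + 2 * ((θ + κ + ω2 + 1) * (b + 1) : ℕ) ≤ ((n : ℤ) - b) ^ 2
  fin : ∀ c t : ℕ, c + n ≤ 2 * b + 6 * θ + 3 * κ → c ≤ t + (θ + κ) →
    2 * (((c + ω2 + 1) * (b + 1) : ℕ) : ℤ) < ((n : ℤ) - b) ^ 2 - ((m + 2 : ℕ) : ℤ) ^ 2 - 4 * n +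
      ((t : ℤ) ^ 2 - t)

variable {ω2 X : ℕ}

theorem State.time (s : State strict b m (θ + κ) D C z x T)
    (P : KPar (Fintype.card V) b θ κ m ω2 X) : T ≤ C.card + ω2 := by
  have h1 := s.tm
  have h2 := card_le_univ (cl D z)
  have h3 := card_le_univ (cl (rev D) x)
  have h4 : (θ + κ) * ((cl D z).card + (cl (rev D) x).card) ≤ (θ + κ) * (2 * Fintype.card V) :=
    Nat.mul_le_mul_left _ (by omega)
  have h5 := P.w2
  apply Nat.le_of_mul_le_mul_left _ P.m0
  rw [mul_add]
  omega

theorem State.side (s : State strict b m (θ + κ) D C z x T)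
    (P : KPar (Fintype.card V) b θ κ m ω2 X)
    (ih : NoBig V strict b m (θ + κ) ((cl D z).card + (cl (rev D) x).card))
    (r1 : ∀ w, (dn D w).card + 1 < (cl D z).card + m)
    (r2 : ∀ w, (dn (rev D) w).card + 1 < (cl (rev D) x).card + m) {v0 : V} (hv0 : v0 ∉ cl D z)
    {um : ℕ} (hum : ∀ w ∉ cl (rev D) x, um ≤ (dn (rev D) w).card)
    (hcmp : (cl (rev D) x).card + (dn D v0).card ≤ (cl D z).card + um) : False := by
  have : Nonempty V := ⟨z⟩
  obtain ⟨v, D', hv, hmin, h', hD, hL, hc, hx⟩ := s.extend P.hb ih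
  have h0 := hmin v0 hv0
  have hH := height s.safe P.hb P.θ0 P.θ2 P.hκ s.ch s.d1 s.d2
  have hT := s.time P
  have hA : D'.card ≤ (C.card + ω2 + 1) * (b + 1) := by
    have h1 := s.ar
    have h2 : (T + 1) * (b + 1) ≤ (C.card + ω2 + 1) * (b + 1) := Nat.mul_le_mul_right _ (by omega)
    rw [add_mul T] at h2
    omega
  have hA' : (D'.card : ℤ) ≤ ((C.card + ω2 + 1) * (b + 1) : ℕ) := by exact_mod_cast hA
  by_cases h1 : ∃ w, b ≤ (dn D' w).card
  · obtain ⟨t, h2, h3⟩ := cross h' P.hb P.θ0 P.hκ hD s.ch s.top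
      (by rw [s.safe.card_cl]; exact s.d1 z) hmin (k := m + 2) (fun w => by
        by_cases hw : w = v
        · subst hw
          have h4 := sum_dn_diff hD {w}
          rw [sum_singleton] at h4
          omega
        · have h4 := sum_dn_diff hD {w, v}
          rw [sum_pair hw] at h4
          have h5 := r1 w
          omega) h1
    have := P.fin _ t hH h2
    linarith
  · have h2 : ∃ w, b ≤ (dn (rev D') w).card := by
      by_contra h2
      push Not at h1 h2
      exact hx ⟨h1, h2⟩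
    obtain ⟨t, h3, h4⟩ := cross h'.flip P.hb P.θ0 P.hκ (rev_mono hD) s.ch.flip s.bot
      (by rw [s.safe.flip.card_cl]; exact s.d2 x) hum (k := m + 2) (fun w => by
        have h4 := grow_both hD w v
        have h5 := r2 w
        omega) h2
    have := P.fin _ t hH h3
    rw [card_rev] at h4
    linarith

theorem noBig (P : KPar (Fintype.card V) b θ κ m ω2 X) (j : ℕ) :
    NoBig V strict b m (θ + κ) (2 * Fintype.card V - j) := by
  induction j with
  | zero =>
    intro D C z x T _
    have h2 := card_le_univ (cl D z)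
    have h3 := card_le_univ (cl (rev D) x)
    omega
  | succ j ih0 =>
    intro D C z x T s
    by_contra hc
    have h0 := ih0 D C z x T s
    have e : 2 * Fintype.card V - j = (cl D z).card + (cl (rev D) x).card := by omega
    have ih : NoBig V strict b m (θ + κ) ((cl D z).card + (cl (rev D) x).card) := e ▸ ih0
    have ih' : NoBig V strict b m (θ + κ) ((cl (rev D) x).card + (cl (rev (rev D)) z).card) := by
      rwa [rev_rev, add_comm (cl (rev D) x).card]
    by_cases hC : θ + κ < C.card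
    · have r1 := s.switch P.hb P.θ0 P.hκ P.m0 ih hC
      have r2 := s.flip.switch P.hb P.θ0 P.hκ P.m0 ih' hC
      obtain ⟨v, hv, -, hmin⟩ := s.safe.argmin z (by
        have := s.d1 z
        have := P.hb
        rw [s.safe.card_cl]
        omega)
      obtain ⟨v', hv', -, hmin'⟩ := s.safe.flip.argmin x (by
        have := s.d2 x
        have := P.hb
        rw [s.safe.flip.card_cl]
        omega)
      by_cases hcmp : (cl (rev D) x).card + (dn D v).card ≤ (cl D z).card + (dn (rev D) v').card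
      · exact s.side P ih r1 r2 hv hmin' hcmp
      · refine s.flip.side P ih' r2 (by rwa [rev_rev]) hv' (um := (dn D v).card)
          (by rwa [rev_rev]) ?_
        rw [rev_rev]
        omega
    · obtain ⟨v, D', -, -, h', hD, -, hc, hx⟩ := s.extend P.hb ih
      have hT := s.time P
      have hA : D'.card ≤ (θ + κ + ω2 + 1) * (b + 1) := by
        have h1 := s.ar
        have h2 : (T + 1) * (b + 1) ≤ (θ + κ + ω2 + 1) * (b + 1) :=
          Nat.mul_le_mul_right _ (by omega)
        rw [add_mul T] at h2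
        omega
      have hA' : (D'.card : ℤ) ≤ ((θ + κ + ω2 + 1) * (b + 1) : ℕ) := by exact_mod_cast hA
      have hX := P.X2
      exact hx ⟨early s.safe h' hD hc P.X1 (by linarith) s.d1,
        early s.safe.flip h'.flip (rev_mono hD) (by rwa [card_rev, card_rev]) P.X1
          (by rw [card_rev]; linarith) s.d2⟩

theorem wins_of_kpar (P : KPar (Fintype.card V) b θ κ m ω2 X) (hb : 1 ≤ b) :
    MakerWins strict b (⊤ : SimpleGraph V) ∅ := by
  by_contra h
  obtain ⟨z⟩ : Nonempty V := Fintype.card_pos_iff.mp (by have := P.hb; omega)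
  have e1 : ∀ w : V, dn ∅ w = ∅ := fun w => by simp [dn]
  have e2 : rev (∅ : Finset (V × V)) = ∅ := by simp [rev]
  have := noBig (strict := strict) P (2 * Fintype.card V) ∅ {z} z z 0 ⟨h, by simp [Chain],
    by simp, by simp, by simp, by simp, by simp, by simp, fun w => by rw [e1]; exact hb,
    fun w => by rw [e2, e1]; exact hb⟩
  have h2 := Safe.card_cl h z
  omega

end Pool.Agent.MP_0b991d_co.H88
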