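import Pool.Agent.MP_0b991d_co.H88.Kn2

namespace Pool.Agent.MP_0b991d_co.H88

theorem fin_real {n b c t η w w2 k : ℝ} (hn : 0 < n) (hη0 : 0 < η) (hη1 : η ≤ 1 / 1000)
    (h1 : 4 ≤ η * n) (hb0 : 0 ≤ b) (hb : b ≤ 59 / 100 * n) (hc0 : 0 ≤ c)
    (ht1 : t ≤ t ^ 2)
    (hq : 60 * η * n ^ 2 ≤ b ^ 2 - 4 * b * n + 2 * n ^ 2) (hw : w ≤ 2 * (η * n))
    (hw2 : w2 + 1 ≤ 4 * (η * n)) (hk0 : 0 ≤ k) (hk : k ≤ 2 * (η * n))
    (hc : c + n ≤ 2 * b + 12 * (η * n)) (ht : c ≤ t + w) :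
    2 * ((c + w2 + 1) * (b + 1)) < (n - b) ^ 2 - k ^ 2 - 4 * n + (t ^ 2 - t) := by
  obtain ⟨u, hu⟩ : ∃ u, u = η * n := ⟨_, rfl⟩
  have hq' : 60 * (u * n) ≤ b ^ 2 - 4 * b * n + 2 * n ^ 2 := by rw [hu]; nlinarith
  rw [← hu] at h1 hw hw2 hk hc
  have hun : u ≤ n / 1000 := by rw [hu]; nlinarith
  have hu0 : 0 < u := by linarith
  have e1 : (c + w2 + 1) * (b + 1) ≤ (c + 4 * u) * (b + u) :=
    mul_le_mul (by linarith) (by linarith) (by linarith) (by linarith)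
  have e2 : k ^ 2 ≤ (2 * u) ^ 2 := pow_le_pow_left₀ hk0 hk 2
  have e3 : u * u ≤ u * n := mul_le_mul_of_nonneg_left (by linarith) hu0.le
  have e4 : 4 * n ≤ u * n := mul_le_mul_of_nonneg_right h1 hn.le
  have e5 : c * u ≤ n * u := mul_le_mul_of_nonneg_right (by linarith) hu0.le
  have e6 : b * u ≤ n * u := mul_le_mul_of_nonneg_right (by linarith) hu0.le
  have e7 : 0 < u * n := by positivity
  by_cases hg : u ≤ 2 * b - n
  · obtain ⟨g, hg'⟩ : ∃ g, g = 2 * b - n := ⟨_, rfl⟩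
    have f1 : (2 * g - 1) * (c - 2 * u) ≤ (2 * g - 1) * t :=
      mul_le_mul_of_nonneg_left (by linarith) (by linarith)
    have f2 : c * (b - g) ≤ (g + 12 * u) * (b - g) :=
      mul_le_mul_of_nonneg_right (by linarith) (by linarith)
    have f3 : g * u ≤ n * u := mul_le_mul_of_nonneg_right (by linarith) hu0.le
    have f4 : 0 ≤ g * u := mul_nonneg (by linarith) hu0.le
    have f5 : 2 * (g * b) - g * g = 2 * (b * n) - n * n := by rw [hg']; ring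
    nlinarith [sq_nonneg (t - g)]
  · have f1 : c * b ≤ (13 * u) * n := mul_le_mul (by linarith) (by linarith) hb0 (by linarith)
    have f2 : u * n ≤ n / 1000 * n := mul_le_mul_of_nonneg_right hun hn.le
    have f3 : (41 / 100 * n) ^ 2 ≤ (n - b) ^ 2 := pow_le_pow_left₀ (by linarith) (by linarith) 2
    nlinarith

theorem kpar_of {η : ℝ} (hη0 : 0 < η) (hη1 : η ≤ 1 / 1000) {n b : ℕ}
    (hn : (2 + 1 / η ^ 4) * (2 / η) + 4 ≤ η * n) (hb : (b : ℝ) ≤ 59 / 100 * n)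
    (hq : 60 * η * n ^ 2 ≤ (b : ℝ) ^ 2 - 4 * b * n + 2 * n ^ 2) :
    ∃ θ κ m ω2 X : ℕ, KPar n b θ κ m ω2 X := by
  obtain ⟨c0, hc0⟩ : ∃ c0 : ℝ, c0 = 2 + 1 / η ^ 4 := ⟨_, rfl⟩
  rw [← hc0] at hn
  have hc1 : 0 < 1 / η ^ 4 := by positivity
  have hc2 : c0 ≤ c0 * (2 / η) := by
    have : 1 ≤ 2 / η := by rw [le_div_iff₀ hη0]; linarith
    nlinarith
  have hn0 : (0 : ℝ) < n := by
    have : 0 < η * n := by linarith
    exact (pos_iff_pos_of_mul_pos this).mp hη0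
  have hun : η * n ≤ n / 1000 := by nlinarith
  obtain ⟨θ, hθ⟩ : ∃ θ : ℕ, θ = ⌈η ^ 2 * n⌉₊ := ⟨_, rfl⟩
  have hθ1 : η ^ 2 * n ≤ θ := hθ ▸ Nat.le_ceil _
  have hθ2 : (θ : ℝ) < η ^ 2 * n + 1 := hθ ▸ Nat.ceil_lt_add_one (by positivity)
  obtain ⟨κ, hκ⟩ : ∃ κ : ℕ, κ = ⌈1 / η ^ 4⌉₊ := ⟨_, rfl⟩
  have hκ1 : 1 / η ^ 4 ≤ κ := hκ ▸ Nat.le_ceil _
  have hκ2 : (κ : ℝ) < 1 / η ^ 4 + 1 := hκ ▸ Nat.ceil_lt_add_one (by positivity)
  obtain ⟨m, hm⟩ : ∃ m : ℕ, m = ⌈η * n⌉₊ := ⟨_, rfl⟩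
  have hm1 : η * n ≤ m := hm ▸ Nat.le_ceil _
  have hm2 : (m : ℝ) < η * n + 1 := hm ▸ Nat.ceil_lt_add_one (by positivity)
  obtain ⟨ω2, hω2⟩ : ∃ ω2 : ℕ, ω2 = ⌈((θ : ℝ) + κ) * (2 / η)⌉₊ := ⟨_, rfl⟩
  have hw1 : ((θ : ℝ) + κ) * (2 / η) ≤ ω2 := hω2 ▸ Nat.le_ceil _
  have hw2 : (ω2 : ℝ) < ((θ : ℝ) + κ) * (2 / η) + 1 := hω2 ▸ Nat.ceil_lt_add_one (by positivity)
  have hw3 : (θ : ℝ) + κ ≤ η ^ 2 * n + c0 := by linarith
  have hw4 : ((θ : ℝ) + κ) * (2 / η) ≤ 2 * (η * n) + c0 * (2 / η) := by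
    have h1 : ((θ : ℝ) + κ) * (2 / η) ≤ (η ^ 2 * n + c0) * (2 / η) := by gcongr
    have h2 : (η ^ 2 * n + c0) * (2 / η) = 2 * (η * n) + c0 * (2 / η) := by field_simp
    linarith
  have hw5 : η ^ 2 * n ≤ η * n := by nlinarith [mul_pos hη0 hn0]
  have hκ0 : (0 : ℝ) ≤ κ := Nat.cast_nonneg _
  have hb0 : (0 : ℝ) ≤ b := Nat.cast_nonneg _
  have hθθ : (η ^ 2 * n) ^ 2 ≤ (θ : ℝ) ^ 2 := pow_le_pow_left₀ (by positivity) hθ1 2
  have hX1 : (7 * n : ℝ) / 20 < (7 * n / 20 + 1 : ℕ) := by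
    have h1 := Nat.div_add_mod (7 * n) 20
    have h2 := Nat.mod_lt (7 * n) (show 0 < 20 by norm_num)
    have h3 : 7 * n < 20 * (7 * n / 20 + 1) := by omega
    have h4 : ((7 * n : ℕ) : ℝ) < (20 * (7 * n / 20 + 1) : ℕ) := by exact_mod_cast h3
    push_cast at h4 ⊢
    linarith
  have hX2 : ((7 * n / 20 + 1 : ℕ) : ℝ) ≤ 7 * n / 20 + 1 := by
    have : ((7 * n / 20 : ℕ) : ℝ) ≤ (7 * n : ℕ) / (20 : ℕ) := Nat.cast_div_le
    push_cast at this ⊢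
    linarith
  refine ⟨θ, κ, m, ω2, 7 * n / 20 + 1, ?_, ?_, ?_, ?_, ?_, ?_, ?_, ?_, fun c t h1 h2 => ?_⟩
  · have : (b : ℝ) < n := by linarith
    exact_mod_cast this
  · have : (0 : ℝ) < θ := lt_of_lt_of_le (by positivity) hθ1
    exact_mod_cast this
  · have h1 : 1 / η ^ 4 ≤ n := by linarith
    rw [div_le_iff₀ (by positivity)] at h1
    have : (n : ℝ) ≤ (θ : ℝ) ^ 2 := by nlinarith
    exact_mod_cast this
  · have h1 : 1 / η ^ 4 * (η ^ 2 * n) ^ 2 ≤ κ * (θ : ℝ) ^ 2 :=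
      mul_le_mul hκ1 hθθ (by positivity) hκ0
    have h2 : 1 / η ^ 4 * (η ^ 2 * n) ^ 2 = (n : ℝ) ^ 2 := by field_simp
    rw [h2] at h1
    exact_mod_cast h1
  · have : (0 : ℝ) < m := lt_of_lt_of_le (by positivity) hm1
    exact_mod_cast this
  · have h1 : η * n * (((θ : ℝ) + κ) * (2 / η)) ≤ m * ω2 :=
      mul_le_mul hm1 hw1 (by positivity) (Nat.cast_nonneg _)
    have h2 : η * n * (((θ : ℝ) + κ) * (2 / η)) = ((θ : ℝ) + κ) * (2 * n) := by field_simp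
    rw [h2] at h1
    exact_mod_cast h1
  · have : (b : ℝ) + 1 < 2 * (7 * n / 20 + 1 : ℕ) := by linarith
    exact_mod_cast this
  · have h1 : ((θ : ℝ) + κ + ω2 + 1) * (b + 1) ≤ (6 * (η * n)) * n :=
      mul_le_mul (by linarith) (by linarith) (by positivity) (by positivity)
    have h2 : ((7 * n / 20 + 1 : ℕ) : ℝ) ^ 2 ≤ (36 / 100 * n) ^ 2 :=
      pow_le_pow_left₀ (Nat.cast_nonneg _) (by linarith) 2
    have h3 : (41 / 100 * n : ℝ) ^ 2 ≤ (n - b) ^ 2 :=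
      pow_le_pow_left₀ (by positivity) (by linarith) 2
    have h4 : 4 * (n : ℝ) ≤ η * n * n := mul_le_mul_of_nonneg_right (by linarith) hn0.le
    have h5 : η * n * n ≤ n / 1000 * n := mul_le_mul_of_nonneg_right hun hn0.le
    have : ((7 * n / 20 + 1 : ℕ) : ℝ) ^ 2 + 4 * n + 2 * (((θ : ℝ) + κ + ω2 + 1) * (b + 1)) ≤
        ((n : ℝ) - b) ^ 2 := by nlinarith
    rw [← Int.cast_le (R := ℝ)]
    push_cast at this ⊢
    exact this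
  · have h3 : (c : ℝ) + n ≤ 2 * b + 6 * θ + 3 * κ := by exact_mod_cast h1
    have h4 : (c : ℝ) ≤ t + (θ + κ) := by exact_mod_cast h2
    have h5 : (t : ℝ) ≤ (t : ℝ) ^ 2 := by exact_mod_cast Nat.le_self_pow (by norm_num) t
    have := fin_real (c := c) (t := t) (w := (θ : ℝ) + κ) (w2 := ω2) (k := (m : ℝ) + 2) hn0 hη0 hη1
      (by linarith) hb0 hb (Nat.cast_nonneg _) h5 hq (by linarith)
      (by linarith) (by positivity) (by linarith) (by linarith) h4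
    exact_mod_cast this

theorem complete_lower {ε : ℝ} (hε : 0 < ε) : ∃ N : ℕ, ∀ n ≥ N, ∀ (strict : Bool) (b : ℕ),
    1 ≤ b → (b : ℝ) ≤ (2 - √2 - ε) * n → MakerWins strict b (⊤ : SimpleGraph (Fin n)) ∅ := by
  obtain ⟨η, hη0, hη1, hηε⟩ : ∃ η : ℝ, 0 < η ∧ η ≤ 1 / 1000 ∧ 30 * η ≤ ε :=
    ⟨min (1 / 1000) (ε / 30), lt_min (by norm_num) (by positivity), min_le_left _ _, by
      have := min_le_right (1 / 1000) (ε / 30)
      linarith⟩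
  refine ⟨⌈((2 + 1 / η ^ 4) * (2 / η) + 4) / η⌉₊, fun n hn strict b hb1 hb => ?_⟩
  have hn1 : ((2 + 1 / η ^ 4) * (2 / η) + 4) / η ≤ n := Nat.ceil_le.mp hn
  rw [div_le_iff₀ hη0] at hn1
  have hs : √2 * √2 = 2 := Real.mul_self_sqrt (by norm_num)
  have hs1 : 141 / 100 ≤ √2 := Real.le_sqrt_of_sq_le (by norm_num)
  have hn0 : (0 : ℝ) ≤ n := Nat.cast_nonneg _
  have h1 : 0 ≤ ε * n := by positivity
  have h2 : 141 / 100 * (n : ℝ) ≤ √2 * n := mul_le_mul_of_nonneg_right hs1 hn0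
  obtain ⟨θ, κ, m, ω2, X, P⟩ := kpar_of hη0 hη1 (n := n) (b := b) (by linarith) (by nlinarith) (by
    have h3 : (ε * n) * (2 * n) ≤ ((2 - √2) * n - b) * ((2 + √2) * n - b) :=
      mul_le_mul (by linarith) (by nlinarith) (by positivity) (by linarith)
    have h4 : ((2 - √2) * n - b) * ((2 + √2) * n - b) = (b : ℝ) ^ 2 - 4 * b * n + 2 * n ^ 2 := by
      have : ((2 - √2) * n - b) * ((2 + √2) * n - b) =
          (b : ℝ) ^ 2 - 4 * b * n + (4 - √2 * √2) * n ^ 2 := by ring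
      rw [this, hs]; ring
    have h5 : 30 * η * n ^ 2 ≤ ε * n ^ 2 := mul_le_mul_of_nonneg_right hηε (by positivity)
    nlinarith)
  exact wins_of_kpar (by rw [Fintype.card_fin]; exact P) hb1

end Pool.Agent.MP_0b991d_co.H88
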