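import Pool.Agent.MP_0b991d_co.H88.Iv

namespace Pool.Agent.MP_0b991d_co.H88

open Finset

variable {V : Type} [DecidableEq V] [Fintype V] {G : SimpleGraph V} [DecidableRel G.Adj]
variable {p Γ E0 : ℝ} {x x' : St V} {F : Finset V} {T : ℕ} {N : ℤ} {E : ℝ} {d ω : ℤ}

structure Step (G : SimpleGraph V) [DecidableRel G.Adj] (x x' : St V) (k : ℝ) : Prop where
  sub : Dir G x ⊆ Dir G x'
  card : ((Dir G x').card : ℝ) ≤ (Dir G x).card + k

omit [DecidableEq V] in
theorem Step.trans {x'' : St V} {k k' : ℝ} (h : Step G x x' k) (h' : Step G x' x'' k') :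
    Step G x x'' (k + k') :=
  ⟨h.sub.trans h'.sub, by linarith [h.card, h'.card]⟩

omit [DecidableEq V] in
theorem Step.mono {k k' : ℝ} (h : Step G x x' k) (hk : k ≤ k') : Step G x x' k' :=
  ⟨h.sub, by linarith [h.card]⟩

omit [DecidableEq V] in
theorem Step.refl : Step G x x 0 := ⟨Subset.rfl, by simp⟩

theorem Dir_mir (x : St V) : Dir G x.mir = (Dir G x).image Prod.swap := by
  ext ⟨a, c⟩
  simp only [mem_Dir, mir_l, mir_r, mem_image, Prod.exists, Prod.swap_prod_mk, Prod.mk.injEq]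
  constructor
  · rintro ⟨h1, h2⟩
    exact ⟨c, a, ⟨h1.symm, by omega⟩, rfl, rfl⟩
  · rintro ⟨a', c', ⟨h1, h2⟩, rfl, rfl⟩
    exact ⟨h1.symm, by omega⟩

theorem Step.mir {k : ℝ} (h : Step G x x' k) : Step G x.mir x'.mir k := by
  refine ⟨?_, ?_⟩
  · rw [Dir_mir, Dir_mir]
    exact image_subset_image h.sub
  · rw [Dir_mir, Dir_mir, card_image_of_injective _ Prod.swap_injective,
      card_image_of_injective _ Prod.swap_injective]
    exact h.card

theorem step_of {u v : V} {X Y : Finset V} (hsub : Dir G x ⊆ Dir G x')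
    (h : ∀ e ∈ Dir G x', e ∉ Dir G x → (e.1 = u ∧ e.2 ∈ X) ∨ (e.2 = v ∧ e.1 ∈ Y)) :
    Step G x x' (deg G u X + deg G v Y) := by
  refine ⟨hsub, ?_⟩
  have h1 : Dir G x' ⊆ Dir G x ∪ ((X.filter (G.Adj u)).image (fun w => (u, w)) ∪
      (Y.filter (G.Adj v)).image (fun w => (w, v))) := by
    intro e he
    by_cases hd : e ∈ Dir G x
    · exact mem_union_left _ hd
    · apply mem_union_right
      have hadj := (mem_Dir.mp he).1
      rcases h e he hd with ⟨h2, h3⟩ | ⟨h2, h3⟩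
      · apply mem_union_left
        exact mem_image.mpr ⟨e.2, mem_filter.mpr ⟨h3, h2 ▸ hadj⟩, by rw [← h2]⟩
      · apply mem_union_right
        exact mem_image.mpr ⟨e.1, mem_filter.mpr ⟨h3, h2 ▸ hadj.symm⟩, by rw [← h2]⟩
  have h2 := (card_le_card h1).trans ((card_union_le _ _).trans (Nat.add_le_add_left
    ((card_union_le _ _).trans (Nat.add_le_add card_image_le card_image_le)) _))
  unfold deg
  exact_mod_cast h2

/-- split the left cell s; u ends in the new left cell, v starts in the new right cell -/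
def split (x : St V) (s : ℤ) (u v : V) : St V :=
  ⟨fun w => if w = v ∧ w ≠ u then s else if x.l w ≤ s then x.l w - 1 else x.l w,
    fun w => if w = u then s - 1 else if x.r w < s then x.r w - 1 else x.r w⟩

omit [Fintype V] in
theorem split_l (x : St V) (s : ℤ) (u v w : V) :
    (w = v ∧ w ≠ u ∧ (split x s u v).l w = s) ∨
    ((w ≠ v ∨ w = u) ∧ x.l w ≤ s ∧ (split x s u v).l w = x.l w - 1) ∨
    ((w ≠ v ∨ w = u) ∧ s < x.l w ∧ (split x s u v).l w = x.l w) := by
  simp only [split]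
  split_ifs with h1 h2
  · exact Or.inl ⟨h1.1, h1.2, rfl⟩
  · exact Or.inr (Or.inl ⟨by tauto, h2, rfl⟩)
  · exact Or.inr (Or.inr ⟨by tauto, by omega, rfl⟩)

omit [Fintype V] in
theorem split_r (x : St V) (s : ℤ) (u v w : V) :
    (w = u ∧ (split x s u v).r w = s - 1) ∨
    (w ≠ u ∧ x.r w < s ∧ (split x s u v).r w = x.r w - 1) ∨
    (w ≠ u ∧ s ≤ x.r w ∧ (split x s u v).r w = x.r w) := by
  simp only [split]
  split_ifs with h1 h2
  · exact Or.inl ⟨h1, rfl⟩
  · exact Or.inr (Or.inl ⟨h1, h2, rfl⟩)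
  · exact Or.inr (Or.inr ⟨h1, by omega, rfl⟩)

omit [Fintype V] in
theorem split_LC {s : ℤ} {u v : V} (hle : ∀ w, x.l w ≤ x.r w) (hs : s < 0) (hu1 : x.l u ≤ s)
    (hv1 : x.l v ≤ s) (hv2 : s ≤ x.r v) : LC x (split x s u v) u := by
  refine ⟨fun w => ?_, fun w => ?_, fun w => ?_, fun w => ?_, fun w hw => ?_, ?_⟩
  · have := hle w
    rcases split_r x s u v w with ⟨h3, h4⟩ | ⟨h3, h4, h5⟩ | ⟨h3, h4, h5⟩ <;>
    rcases split_l x s u v w with ⟨h0, h1, h2⟩ | ⟨h0, h1, h2⟩ | ⟨h0, h1, h2⟩ <;>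
    first | omega | exact absurd h3 h1 | (subst h3; omega) | (subst h0; omega)
  · rcases split_l x s u v w with ⟨rfl, h1, h2⟩ | ⟨h0, h1, h2⟩ | ⟨h0, h1, h2⟩ <;> omega
  · rcases split_l x s u v w with ⟨rfl, h1, h2⟩ | ⟨h0, h1, h2⟩ | ⟨h0, h1, h2⟩ <;> omega
  · rcases split_r x s u v w with ⟨h3, h4⟩ | ⟨h3, h4, h5⟩ | ⟨h3, h4, h5⟩ <;> omega
  · rcases split_r x s u v w with ⟨h3, h4⟩ | ⟨h3, h4, h5⟩ | ⟨h3, h4, h5⟩
    · exact absurd h3 hw
    · omega
    · omega
  · rcases split_r x s u v u with ⟨h3, h4⟩ | ⟨h3, h4, h5⟩ | ⟨h3, h4, h5⟩ <;> omega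

theorem split_sA {s : ℤ} {u v : V} (hs : s < 0) : sA (split x s u v) = insert u (sA x) := by
  ext w
  simp only [mem_sA, mem_insert]
  rcases split_r x s u v w with ⟨h3, h4⟩ | ⟨h3, h4, h5⟩ | ⟨h3, h4, h5⟩
  · exact ⟨fun _ => Or.inl h3, fun _ => by omega⟩
  · exact ⟨fun _ => Or.inr (by omega), fun _ => by omega⟩
  · exact ⟨fun _ => Or.inr (by omega), fun h => by rcases h with h | h; exact absurd h h3; omega⟩

theorem split_half (hp0 : 0 ≤ p) (hp1 : p ≤ 1) (h : Half G p Γ E0 x F T N E d ω) {s : ℤ}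
    {u v : V} (hs : s < 0) (hu1 : x.l u ≤ s) (hu2 : s ≤ x.r u) (hv1 : x.l v ≤ s)
    (hv2 : s ≤ x.r v) :
    Half G p Γ E0 (split x s u v) F (T + 1) (N + 1) (E + 4) (d + 1) (ω + 1) := by
  have c := split_LC h.le hs hu1 hv1 hv2
  have hT : ∀ {E : ℝ} {z : V}, Typ G p E x F z → Typ G p (E + 4) (split x s u v) F z := by
    intro E z hz
    have := hz.close hp0 hp1 (x' := split x s u v) (F' := F) {u, v}
      (fun s' hs' => ⟨if s' ≤ s - 1 then s' + 1 else s', by split_ifs <;> omega, fun w hw => by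
        simp only [mem_insert, mem_singleton, not_or] at hw
        simp only [mem_XR]
        rcases split_r x s u v w with ⟨h3, h4⟩ | ⟨h3, h4, h5⟩ | ⟨h3, h4, h5⟩
        · exact absurd h3 hw.1
        all_goals
          constructor <;> rintro ⟨h6, h7⟩ <;> refine ⟨h6, ?_⟩ <;> split_ifs at * <;> omega⟩)
      (fun s' => ⟨if s' ≤ s - 1 then s' + 1 else s', fun w hw => by
        simp only [mem_insert, mem_singleton, not_or] at hw
        simp only [mem_XL]
        rcases split_l x s u v w with ⟨h3, h4⟩ | ⟨h3, h4, h5⟩ | ⟨h3, h4, h5⟩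
        · exact absurd h3 hw.2
        all_goals
          constructor <;> rintro ⟨h6, h7⟩ <;> refine ⟨h6, ?_⟩ <;> split_ifs at * <;> omega⟩)
    refine this.mono ?_
    have h2 : (({u, v} : Finset V).card : ℝ) ≤ 2 := by exact_mod_cast card_le_two
    linarith
  have hw : ∀ z, wL (split x s u v) z ≤ wL x z + 1 := by
    intro z
    simp only [wL]
    have := h.le z
    rcases split_l x s u v z with ⟨h0, h1, h2⟩ | ⟨h0, h1, h2⟩ | ⟨h0, h1, h2⟩ <;>
    rcases split_r x s u v z with ⟨h3, h4⟩ | ⟨h3, h4, h5⟩ | ⟨h3, h4, h5⟩ <;>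
    first | omega | exact absurd h3 h1 | (subst h3; omega) | (subst h0; omega)
  refine ⟨by have := h.N0; omega, by have := h.d0; omega, c.le, fun w w' h1 h2 => ?_,
    fun w => ?_, fun s' hs' hv => ?_, fun z hz h1 h2 => ?_, fun z hz => hT (h.t1 z hz),
    fun z hz => ?_⟩
  · rcases split_r x s u v w with ⟨h3, h4⟩ | ⟨h3, h4, h5⟩ | ⟨h3, h4, h5⟩ <;>
    rcases split_r x s u v w' with ⟨h6, h7⟩ | ⟨h6, h7, h8⟩ | ⟨h6, h7, h8⟩ <;>
    first | omega | exact h3.trans h6.symm | exact h.inj w w' (by omega) (by omega)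
  · have h3 := h.bd w
    have h4 := h.bd u
    rcases split_l x s u v w with ⟨-, h1, h2⟩ | ⟨h0, h1, h2⟩ | ⟨h0, h1, h2⟩ <;> omega
  · by_cases hc : s' ≤ s - 1
    · have h1 := h.cnt (s' + 1) (by omega) (by
        obtain ⟨w, hw⟩ := hv
        refine ⟨w, ?_⟩
        rcases split_l x s u v w with ⟨-, h1, h2⟩ | ⟨h0, h1, h2⟩ | ⟨h0, h1, h2⟩ <;> omega)
      have h2 : XR (split x s u v) F s' ⊆ XR x F (s' + 1) := by
        intro w
        simp only [mem_XR]
        rintro ⟨h6, h7⟩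
        refine ⟨h6, ?_⟩
        rcases split_r x s u v w with ⟨h3, h4⟩ | ⟨h3, h4, h5⟩ | ⟨h3, h4, h5⟩ <;> omega
      have h3 : XL (split x s u v) F s' ⊆ insert v (XL x F (s' + 1)) := by
        intro w
        simp only [mem_XL, mem_insert]
        rintro ⟨h6, h7⟩
        rcases split_l x s u v w with ⟨h3, h4⟩ | ⟨h3, h4, h5⟩ | ⟨h3, h4, h5⟩
        · exact Or.inl h3
        · exact Or.inr ⟨h6, by omega⟩
        · exact Or.inr ⟨h6, by omega⟩
      have h4 := card_le_card h2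
      have h5 := (card_le_card h3).trans (card_insert_le _ _)
      omega
    · have h1 := h.cnt s' hs' ⟨u, by omega⟩
      have h2 : XR (split x s u v) F s' ⊆ insert u (XR x F s') := by
        intro w
        simp only [mem_XR, mem_insert]
        rintro ⟨h6, h7⟩
        rcases split_r x s u v w with ⟨h3, h4⟩ | ⟨h3, h4, h5⟩ | ⟨h3, h4, h5⟩
        · exact Or.inl h3
        · exact Or.inr ⟨h6, by omega⟩
        · exact Or.inr ⟨h6, by omega⟩
      have h3 : XL (split x s u v) F s' ⊆ XL x F s' := by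
        intro w
        simp only [mem_XL]
        rintro ⟨h6, h7⟩
        refine ⟨h6, ?_⟩
        rcases split_l x s u v w with ⟨h3, h4⟩ | ⟨h3, h4, h5⟩ | ⟨h3, h4, h5⟩ <;> omega
      have h4 := card_le_card h3
      have h5 := (card_le_card h2).trans (card_insert_le _ _)
      omega
  · have h3 : Blk (split x s u v) F ⊆ Blk x F := by
      intro w
      simp only [mem_Blk]
      rintro ⟨h6, h7⟩
      refine ⟨h6, ?_⟩
      rcases split_r x s u v w with ⟨h3, h4⟩ | ⟨h3, h4, h5⟩ | ⟨h3, h4, h5⟩ <;> omega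
    have h4 : (deg G z (Blk (split x s u v) F) : ℝ) ≤ deg G z (Blk x F) := by
      exact_mod_cast deg_mono h3
    have h5 := h.blk z hz (by have := c.l1 z; omega) (by have := c.r1 z; omega)
    have h6 : ((sA x).card : ℝ) ≤ (sA (split x s u v)).card := by
      rw [split_sA hs]
      exact_mod_cast card_le_card (subset_insert _ _)
    nlinarith
  · have h1 := hw z
    rcases h.t2 z hz with h3 | h3
    · left; omega
    · right
      refine ⟨?_, by omega⟩
      have := hT h3.1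
      rwa [show E + Γ + 4 = E + 4 + Γ by ring] at this

theorem split_step {s : ℤ} {u v : V} (hu1 : x.l u ≤ s)
    (hu2 : s ≤ x.r u) (hv1 : x.l v ≤ s) (hv2 : s ≤ x.r v) :
    Step G x (split x s u v) (deg G u (univ.filter fun w => s < x.l w ∧ x.l w ≤ x.r u) + 1 +
      deg G v (univ.filter fun w => x.l v ≤ x.r w ∧ x.r w < s)) := by
  have := step_of (G := G) (x := x) (x' := split x s u v) (u := u) (v := v)
    (X := (univ.filter fun w => s < x.l w ∧ x.l w ≤ x.r u) ∪ {v})
    (Y := univ.filter fun w => x.l v ≤ x.r w ∧ x.r w < s) (by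
      rintro ⟨a, c⟩
      simp only [mem_Dir]
      rintro ⟨h6, h7⟩
      refine ⟨h6, ?_⟩
      rcases split_l x s u v c with ⟨h0, h1, h2⟩ | ⟨h0, h1, h2⟩ | ⟨h0, h1, h2⟩ <;>
      rcases split_r x s u v a with ⟨h3, h4⟩ | ⟨h3, h4, h5⟩ | ⟨h3, h4, h5⟩ <;>
      first | omega | (subst h3; omega) | (subst h0; omega)) (by
      rintro ⟨a, c⟩
      simp only [mem_Dir, mem_union, mem_filter, mem_univ, true_and, mem_singleton, not_and]
      rintro ⟨h6, h7⟩ h8
      have h9 := h8 h6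
      rcases split_l x s u v c with ⟨h0, h1, h2⟩ | ⟨h0, h1, h2⟩ | ⟨h0, h1, h2⟩ <;>
      rcases split_r x s u v a with ⟨h3, h4⟩ | ⟨h3, h4, h5⟩ | ⟨h3, h4, h5⟩ <;>
      first
        | omega
        | exact Or.inl ⟨h3, Or.inr h0⟩
        | (subst h0; exact Or.inr ⟨rfl, by omega⟩)
        | (subst h3; exact Or.inl ⟨rfl, Or.inl (by omega)⟩))
  refine this.mono ?_
  have h1 := deg_le_of_sub (G := G) (z := u) (Subset.rfl
    (s := (univ.filter fun w => s < x.l w ∧ x.l w ≤ x.r u) ∪ {v}))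
  rw [card_singleton] at h1
  have h2 : (deg G u ((univ.filter fun w => s < x.l w ∧ x.l w ≤ x.r u) ∪ {v}) : ℝ) ≤
      deg G u (univ.filter fun w => s < x.l w ∧ x.l w ≤ x.r u) + 1 := by exact_mod_cast h1
  linarith

/-- raise the left end of z -/
def raise1 (x : St V) (z : V) (t : ℤ) : St V := ⟨fun w => if w = z then t else x.l w, x.r⟩

omit [Fintype V] in
theorem raise1_l (x : St V) (z : V) (t : ℤ) (w : V) :
    (w = z ∧ (raise1 x z t).l w = t) ∨ (w ≠ z ∧ (raise1 x z t).l w = x.l w) := by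
  simp only [raise1]
  split_ifs with h1
  · exact Or.inl ⟨h1, rfl⟩
  · exact Or.inr ⟨h1, rfl⟩

omit [Fintype V] in
@[simp] theorem raise1_r (x : St V) (z : V) (t : ℤ) (w : V) : (raise1 x z t).r w = x.r w := rfl

omit [Fintype V] in
theorem raise1_LC {z : V} {t : ℤ} (hle : ∀ w, x.l w ≤ x.r w) (h1 : x.l z ≤ t) (h2 : t ≤ x.r z)
    (h3 : t < 0) : LC x (raise1 x z t) z := by
  refine ⟨fun w => ?_, fun w => ?_, fun w => ?_, fun w h => h, fun w _ _ => rfl, Or.inl rfl⟩
  all_goals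
    have := hle w
    have h5 := raise1_r x z t w
    rcases raise1_l x z t w with ⟨rfl, h4⟩ | ⟨-, h4⟩ <;> omega

theorem raise1_half (hp0 : 0 ≤ p) (hp1 : p ≤ 1) (h : Half G p Γ E0 x F T N E d ω) {z : V} {t : ℤ}
    (h1 : x.l z ≤ t) (h2 : t ≤ x.r z) (h3 : t < 0) :
    Half G p Γ E0 (raise1 x z t) F (T + 1) N (E + 2) d ω := by
  have c := raise1_LC h.le h1 h2 h3
  have hT : ∀ {E : ℝ} {y : V}, Typ G p E x F y → Typ G p (E + 2) (raise1 x z t) F y := by
    intro E y hy
    have := hy.close hp0 hp1 (x' := raise1 x z t) (F' := F) {z}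
      (fun s' hs' => ⟨s', hs', fun w _ => Iff.rfl⟩)
      (fun s' => ⟨s', fun w hw => by
        simp only [mem_singleton] at hw
        simp only [mem_XL]
        rcases raise1_l x z t w with ⟨h4, -⟩ | ⟨-, h4⟩
        · exact absurd h4 hw
        · rw [h4]⟩)
    simpa using this
  have hw : ∀ y, wL (raise1 x z t) y ≤ wL x y := by
    intro y
    simp only [wL, raise1_r]
    rcases raise1_l x z t y with ⟨rfl, h4⟩ | ⟨-, h4⟩ <;> omega
  refine ⟨h.N0, h.d0, c.le, h.inj, fun w => ?_, fun s' hs' hv => ?_, fun y hy h4 h5 => ?_,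
    fun y hy => hT (h.t1 y hy), fun y hy => ?_⟩
  · have := h.bd w
    rcases raise1_l x z t w with ⟨rfl, h4⟩ | ⟨-, h4⟩ <;> omega
  · have h4 := h.cnt s' hs' (by
      obtain ⟨w, hw⟩ := hv
      refine ⟨w, ?_⟩
      rcases raise1_l x z t w with ⟨rfl, h4⟩ | ⟨-, h4⟩ <;> omega)
    have h5 : XL (raise1 x z t) F s' ⊆ insert z (XL x F s') := by
      intro w
      simp only [mem_XL, mem_insert]
      rcases raise1_l x z t w with ⟨h4, -⟩ | ⟨-, h4⟩
      · exact fun _ => Or.inl h4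
      · rw [h4]; exact Or.inr
    have h6 := (card_le_card h5).trans (card_insert_le _ _)
    have h7 : XR (raise1 x z t) F s' = XR x F s' := rfl
    rw [h7]
    omega
  · exact h.blk y hy (by have := c.l1 y; omega) h5
  · have h4 := hw y
    rcases h.t2 y hy with h5 | h5
    · left; omega
    · right
      refine ⟨?_, by omega⟩
      have := hT h5.1
      rwa [show E + Γ + 2 = E + 2 + Γ by ring] at this

theorem raise1_step {z : V} {t : ℤ} (h1 : x.l z ≤ t) :
    Step G x (raise1 x z t) (deg G z (univ.filter fun w => x.l z ≤ x.r w ∧ x.r w < t)) := by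
  have := step_of (G := G) (x := x) (x' := raise1 x z t) (u := z) (v := z) (X := ∅)
    (Y := univ.filter fun w => x.l z ≤ x.r w ∧ x.r w < t) (by
      rintro ⟨a, c⟩
      simp only [mem_Dir, raise1_r]
      rintro ⟨h6, h7⟩
      refine ⟨h6, ?_⟩
      rcases raise1_l x z t c with ⟨rfl, h4⟩ | ⟨-, h4⟩ <;> omega) (by
      rintro ⟨a, c⟩
      simp only [mem_Dir, mem_filter, mem_univ, true_and, not_and, raise1_r]
      rintro ⟨h6, h7⟩ h8
      have h9 := h8 h6
      rcases raise1_l x z t c with ⟨rfl, h4⟩ | ⟨-, h4⟩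
      · exact Or.inr ⟨rfl, by omega⟩
      · omega)
  simpa [deg] using this

/-- move z from the middle to the left part -/
def jump (x : St V) (z : V) : St V := ⟨x.l, fun w => if w = z then -1 else x.r w⟩

omit [Fintype V] in
theorem jump_r (x : St V) (z : V) (w : V) :
    (w = z ∧ (jump x z).r w = -1) ∨ (w ≠ z ∧ (jump x z).r w = x.r w) := by
  simp only [jump]
  split_ifs with h1
  · exact Or.inl ⟨h1, rfl⟩
  · exact Or.inr ⟨h1, rfl⟩

omit [Fintype V] in
@[simp] theorem jump_l (x : St V) (z : V) (w : V) : (jump x z).l w = x.l w := rfl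

omit [Fintype V] in
theorem jump_LC {z : V} (hle : ∀ w, x.l w ≤ x.r w) (h1 : x.l z < 0) : LC x (jump x z) z := by
  refine ⟨fun w => ?_, fun w _ => rfl, fun w h => h, fun w => ?_, fun w hw _ => ?_, ?_⟩
  · have := hle w
    rcases jump_r x z w with ⟨rfl, h4⟩ | ⟨-, h4⟩ <;> simp only [jump_l] <;> omega
  · rcases jump_r x z w with ⟨rfl, h4⟩ | ⟨-, h4⟩ <;> omega
  · rcases jump_r x z w with ⟨h3, h4⟩ | ⟨-, h4⟩
    · exact absurd h3 hw
    · exact h4
  · rcases jump_r x z z with ⟨-, h4⟩ | ⟨-, h4⟩ <;> omega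

theorem jump_sA {z : V} : sA (jump x z) = insert z (sA x) := by
  ext w
  simp only [mem_sA, mem_insert]
  rcases jump_r x z w with ⟨h3, h4⟩ | ⟨h3, h4⟩
  · exact ⟨fun _ => Or.inl h3, fun _ => by omega⟩
  · exact ⟨fun _ => Or.inr (by omega), fun h => by rcases h with h | h; exact absurd h h3; omega⟩

theorem jump_half (hp0 : 0 ≤ p) (hp1 : p ≤ 1) (h : Half G p Γ E0 x F T N E d ω) {z : V}
    (h1 : x.l z < 0) (h2 : 0 ≤ x.r z) (hpr : z ∈ F ∨ ∀ y ∈ F, y ∉ sM x) :
    Half G p Γ E0 (jump x z) F T N (E + 2) d ω := by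
  have c := jump_LC h.le h1
  have hT : ∀ {E : ℝ} {y : V}, Typ G p E x F y → Typ G p (E + 2) (jump x z) F y := by
    intro E y hy
    have := hy.close hp0 hp1 (x' := jump x z) (F' := F) {z}
      (fun s' hs' => ⟨s', hs', fun w hw => by
        simp only [mem_singleton] at hw
        simp only [mem_XR]
        rcases jump_r x z w with ⟨h4, -⟩ | ⟨-, h4⟩
        · exact absurd h4 hw
        · rw [h4]⟩)
      (fun s' => ⟨s', fun w _ => Iff.rfl⟩)
    simpa using this
  have hw : ∀ y, wL (jump x z) y ≤ wL x y := by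
    intro y
    simp only [wL, jump_l]
    rcases jump_r x z y with ⟨rfl, h4⟩ | ⟨-, h4⟩ <;> omega
  refine ⟨h.N0, h.d0, c.le, fun w w' h3 h4 => ?_, h.bd, fun s' hs' hv => ?_,
    fun y hy h4 h5 => ?_, fun y hy => hT (h.t1 y hy), fun y hy => ?_⟩
  · rcases jump_r x z w with ⟨h5, h6⟩ | ⟨h5, h6⟩ <;>
    rcases jump_r x z w' with ⟨h7, h8⟩ | ⟨h7, h8⟩ <;>
    first | omega | exact h.inj w w' (by omega) (by omega)
  · have h4 := h.cnt s' hs' hv
    have h5 : XR (jump x z) F s' ⊆ XR x F s' := by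
      intro w
      simp only [mem_XR]
      rintro ⟨h6, h7⟩
      refine ⟨h6, ?_⟩
      rcases jump_r x z w with ⟨-, h4⟩ | ⟨-, h4⟩ <;> omega
    have h6 := card_le_card h5
    have h7 : XL (jump x z) F s' = XL x F s' := rfl
    rw [h7]
    omega
  · have h6 : 0 ≤ x.r y := by have := c.r1 y; omega
    rcases hpr with hpr | hpr
    · have h3 : Blk (jump x z) F ⊆ Blk x F := by
        intro w
        simp only [mem_Blk]
        rintro ⟨h6, h7⟩
        refine ⟨h6, ?_⟩
        rcases jump_r x z w with ⟨rfl, h4⟩ | ⟨-, h4⟩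
        · exact absurd hpr h6
        · omega
      have h7 : (deg G y (Blk (jump x z) F) : ℝ) ≤ deg G y (Blk x F) := by
        exact_mod_cast deg_mono h3
      have h8 := h.blk y hy h4 h6
      have h9 : ((sA x).card : ℝ) ≤ (sA (jump x z)).card := by
        rw [jump_sA]
        exact_mod_cast card_le_card (subset_insert _ _)
      nlinarith
    · exact absurd (mem_sM.mpr ⟨show x.l y < 0 from h4, h6⟩) (hpr y hy)
  · have h4 := hw y
    rcases h.t2 y hy with h5 | h5
    · left; omega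
    · right
      refine ⟨?_, by omega⟩
      have := hT h5.1
      rwa [show E + Γ + 2 = E + 2 + Γ by ring] at this

theorem jump_step {z : V} (h2 : 0 ≤ x.r z) :
    Step G x (jump x z) (deg G z (univ.filter fun w => 0 ≤ x.l w ∧ x.l w ≤ x.r z)) := by
  have := step_of (G := G) (x := x) (x' := jump x z) (u := z) (v := z) (Y := ∅)
    (X := univ.filter fun w => 0 ≤ x.l w ∧ x.l w ≤ x.r z) (by
      rintro ⟨a, c⟩
      simp only [mem_Dir, jump_l]
      rintro ⟨h6, h7⟩
      refine ⟨h6, ?_⟩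
      rcases jump_r x z a with ⟨rfl, h4⟩ | ⟨-, h4⟩ <;> omega) (by
      rintro ⟨a, c⟩
      simp only [mem_Dir, mem_filter, mem_univ, true_and, not_and, jump_l]
      rintro ⟨h6, h7⟩ h8
      have h9 := h8 h6
      rcases jump_r x z a with ⟨rfl, h4⟩ | ⟨-, h4⟩
      · exact Or.inl ⟨rfl, by omega⟩
      · omega)
  simpa [deg] using this

omit [DecidableEq V] in
theorem card_r_range (hinj : ∀ w w', x.r w < -1 → x.r w = x.r w' → w = w') {a t : ℤ}
    (ht : t < 0) : ((univ.filter fun w => a ≤ x.r w ∧ x.r w < t).card : ℤ) ≤ max 0 (t - a) := by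
  have h1 : (univ.filter fun w => a ≤ x.r w ∧ x.r w < t).card ≤ (Finset.Ico a t).card := by
    apply card_le_card_of_injOn x.r
    · intro w hw
      simpa using hw
    · intro w hw w' _ e
      have : a ≤ x.r w ∧ x.r w < t := by simpa using hw
      exact hinj w w' (by omega) e
  rw [Int.card_Ico] at h1
  omega

/-- raise the left ends of all flagged vertices by J cells -/
def raiseF (x : St V) (F : Finset V) (J : ℕ) : St V :=
  ⟨fun w => if w ∈ F ∧ x.l w < 0 then min (x.l w + J) (min (x.r w) (-1)) else x.l w, x.r⟩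

omit [Fintype V] in
theorem raiseF_l (x : St V) (F : Finset V) (J : ℕ) (w : V) :
    (w ∈ F ∧ x.l w < 0 ∧ (raiseF x F J).l w = min (x.l w + J) (min (x.r w) (-1))) ∨
      ((w ∉ F ∨ 0 ≤ x.l w) ∧ (raiseF x F J).l w = x.l w) := by
  simp only [raiseF]
  split_ifs with h1
  · exact Or.inl ⟨h1.1, h1.2, rfl⟩
  · refine Or.inr ⟨?_, rfl⟩
    by_cases h2 : w ∈ F
    · right; by_contra h3; exact h1 ⟨h2, by omega⟩
    · exact Or.inl h2

omit [Fintype V] in
@[simp] theorem raiseF_r (x : St V) (F : Finset V) (J : ℕ) (w : V) :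
    (raiseF x F J).r w = x.r w := rfl

omit [Fintype V] in
theorem raiseF_LC {J : ℕ} (hle : ∀ w, x.l w ≤ x.r w) (u : V) : LC x (raiseF x F J) u := by
  refine ⟨fun w => ?_, fun w => ?_, fun w => ?_, fun w h => h, fun w _ _ => rfl, Or.inl rfl⟩
  all_goals
    have := hle w
    have h5 := raiseF_r x F J w
    rcases raiseF_l x F J w with ⟨-, h3, h4⟩ | ⟨-, h4⟩ <;> omega

theorem raiseF_half (h : Half G p Γ E0 x F T N E d ω) {J : ℕ} (hJ : d ≤ J) :
    Half G p Γ E0 (raiseF x F J) F T N E 0 (max 0 (ω - J)) := by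
  have hge : ∀ w, x.l w ≤ (raiseF x F J).l w := by
    intro w
    have := h.le w
    rcases raiseF_l x F J w with ⟨-, h3, h4⟩ | ⟨-, h4⟩ <;> omega
  have hXL : ∀ s, XL (raiseF x F J) F s = XL x F s := by
    intro s
    ext w
    simp only [mem_XL]
    rcases raiseF_l x F J w with ⟨h2, h3, h4⟩ | ⟨-, h4⟩
    · simp [h2]
    · rw [h4]
  have hT : ∀ {E : ℝ} {y : V}, Typ G p E x F y → Typ G p E (raiseF x F J) F y :=
    fun hy => ⟨hy.1, fun s => by rw [hXL]; exact hy.2 s⟩
  refine ⟨h.N0, le_rfl, fun w => ?_, h.inj, fun w => (h.bd w).trans (hge w),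
    fun s' hs' hv => ?_, fun y hy h4 h5 => ?_, fun y hy => hT (h.t1 y hy), fun y hy => ?_⟩
  · have := h.le w
    rcases raiseF_l x F J w with ⟨-, h3, h4⟩ | ⟨-, h4⟩ <;> simp only [raiseF_r] <;> omega
  · rw [hXL]
    obtain ⟨w, hw⟩ := hv
    exact h.cnt s' hs' ⟨w, (hge w).trans hw⟩
  · exact h.blk y hy (by have := hge y; omega) h5
  · rcases raiseF_l x F J y with ⟨-, h3, h4⟩ | ⟨h3, h4⟩
    · rcases h.t2 y hy with h5 | h5
      · left
        simp only [wL, raiseF_r] at h5 ⊢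
        omega
      · right
        refine ⟨hT h5.1, ?_⟩
        have h6 := h5.2
        simp only [wL, raiseF_r] at h6 ⊢
        omega
    · left
      have h5 : 0 ≤ x.l y := h3.resolve_left (fun h => h hy)
      simp only [wL, raiseF_r]
      omega

theorem raiseF_step (hle : ∀ w, x.l w ≤ x.r w)
    (hinj : ∀ w w', x.r w < -1 → x.r w = x.r w' → w = w') {J : ℕ} :
    Step G x (raiseF x F J) (F.card * J) := by
  refine ⟨?_, ?_⟩
  · rintro ⟨a, c⟩
    simp only [mem_Dir, raiseF_r]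
    rintro ⟨h6, h7⟩
    refine ⟨h6, ?_⟩
    have := hle c
    rcases raiseF_l x F J c with ⟨-, h3, h4⟩ | ⟨-, h4⟩ <;> omega
  · have h1 : Dir G (raiseF x F J) ⊆ Dir G x ∪ F.biUnion fun z =>
        (univ.filter fun w => x.l z ≤ x.r w ∧ x.r w < min (x.l z + J) (-1)).image
          fun w => (w, z) := by
      rintro ⟨a, c⟩
      simp only [mem_Dir, raiseF_r, mem_union, mem_biUnion, mem_image, mem_filter, mem_univ,
        true_and, Prod.mk.injEq]
      rintro ⟨h6, h7⟩
      rcases raiseF_l x F J c with ⟨h2, h3, h4⟩ | ⟨-, h4⟩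
      · by_cases h5 : x.r a < x.l c
        · exact Or.inl ⟨h6, h5⟩
        · exact Or.inr ⟨c, h2, a, by omega, rfl, rfl⟩
      · exact Or.inl ⟨h6, by omega⟩
    have h2 := (card_le_card h1).trans ((card_union_le _ _).trans (Nat.add_le_add_left
      (card_biUnion_le_card_mul _ _ J fun z _ => card_image_le.trans (by
        have := card_r_range hinj (a := x.l z) (t := min (x.l z + J) (-1)) (by omega)
        omega)) _))
    exact_mod_cast h2

end Pool.Agent.MP_0b991d_co.H88
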