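import Pool.Agent.MP_0b991d_co.H88.Game
import Pool.Agent.MP_0b991d_co.Prob

namespace Pool.Agent.MP_0b991d_co.H88

open Finset MeasureTheory Filter SimpleGraph
open scoped Topology unitInterval

open Classical in
theorem prob_pair (n : ℕ) (p : I) (hp : 0 < (p : ℝ)) {l1 : ℝ} (h0 : 0 ≤ l1) (h1 : l1 ≤ 2 * (n * p))
    (hn : 0 < n) (Z Y : Finset (Fin n)) (hd : Disjoint Z Y) :
    (binomialRandom (Fin n) p).real {G | ∀ z ∈ Z, (p : ℝ) * Y.card + l1 ≤ deg G z Y} ≤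
      Real.exp (-(Z.card * l1 ^ 2 / (4 * (n * p)))) := by
  have hnR : (0 : ℝ) < n := by exact_mod_cast hn
  have hν : (0 : ℝ) < n * p := by positivity
  set θ : ℝ := l1 / (2 * (n * p)) with hθ
  have hθ0 : 0 ≤ θ := by positivity
  have hθ1 : θ ≤ 1 := by rw [hθ, div_le_one (by positivity)]; exact h1
  have hinj : Set.InjOn (fun e : Fin n × Fin n => s(e.1, e.2)) (Z ×ˢ Y : Finset _) := by
    rintro ⟨a, c⟩ h2 ⟨a', c'⟩ h3 h4
    simp only [coe_product, Set.mem_prod, mem_coe] at h2 h3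
    rcases Sym2.eq_iff.mp h4 with ⟨h5, h6⟩ | ⟨h5, h6⟩
    · exact Prod.ext h5 h6
    · simp only at h5 h6
      exact absurd (h5 ▸ h3.2) (disjoint_left.mp hd h2.1)
  have key := prob_le p ((Z ×ˢ Y).image fun e : Fin n × Fin n => s(e.1, e.2)) (by
      intro e he
      obtain ⟨y, hy, rfl⟩ := mem_image.mp he
      rw [mem_product] at hy
      rw [Sym2.mk_isDiag_iff]
      intro hc
      exact disjoint_left.mp hd hy.1 (hc ▸ hy.2)) (Real.exp θ)
    (Real.exp (-(θ * (Z.card * (p * Y.card + l1))))) (Real.exp_pos _).le (Real.exp_pos _).le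
    {G | ∀ z ∈ Z, (p : ℝ) * Y.card + l1 ≤ deg G z Y} (by
      intro G hG
      have h2 : (((Z ×ˢ Y).image fun e : Fin n × Fin n => s(e.1, e.2)).filter
          (· ∈ G.edgeSet)).card = ∑ z ∈ Z, deg G z Y := by
        rw [filter_image, card_image_of_injOn (hinj.mono (by
          exact_mod_cast filter_subset _ _)), card_filter, sum_product]
        apply sum_congr rfl
        intro z _
        rw [deg, card_filter]
        simp only [mem_edgeSet]
      have h3 : (Z.card : ℝ) * (p * Y.card + l1) ≤ (∑ z ∈ Z, deg G z Y : ℕ) := by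
        push_cast
        rw [← nsmul_eq_mul, ← sum_const]
        exact sum_le_sum fun z hz => hG z hz
      rw [h2, ← Real.exp_nat_mul, ← Real.exp_add]
      apply Real.one_le_exp
      nlinarith)
  refine key.trans ?_
  rw [card_image_of_injOn hinj, card_product]
  have he : Real.exp θ - 1 ≤ θ + θ ^ 2 := by
    have := Real.abs_exp_sub_one_sub_id_le (x := θ) (by rw [abs_of_nonneg hθ0]; exact hθ1)
    have := (abs_le.mp this).2
    linarith
  have he0 : 0 ≤ Real.exp θ - 1 := by linarith [Real.add_one_le_exp θ]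
  have h4 := one_add_pow_le_exp (x := (p : ℝ) * (Real.exp θ - 1)) (by positivity)
    (Z.card * Y.card)
  refine (mul_le_mul_of_nonneg_left h4 (Real.exp_pos _).le).trans ?_
  rw [← Real.exp_add]
  apply Real.exp_le_exp.mpr
  push_cast
  have hY : (Y.card : ℝ) ≤ n := by exact_mod_cast (card_le_univ Y).trans (by simp)
  have hZ : (0 : ℝ) ≤ Z.card := Nat.cast_nonneg _
  have hY0 : (0 : ℝ) ≤ Y.card := Nat.cast_nonneg _
  have h5 : (Y.card : ℝ) * (p * (Real.exp θ - 1)) ≤ Y.card * p * θ + n * p * θ ^ 2 := by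
    have h6 : (Y.card : ℝ) * (p * (Real.exp θ - 1)) ≤ Y.card * (p * (θ + θ ^ 2)) := by gcongr
    have h7 : (Y.card : ℝ) * (p * θ ^ 2) ≤ n * (p * θ ^ 2) := by gcongr
    nlinarith
  have h8 : (n : ℝ) * p * θ ^ 2 - θ * l1 = -(l1 ^ 2 / (4 * (n * p))) := by
    rw [hθ]; field_simp; ring
  have h9 := mul_le_mul_of_nonneg_left h5 hZ
  have h10 : (Z.card : ℝ) * (n * p * θ ^ 2 - θ * l1) = -(Z.card * l1 ^ 2 / (4 * (n * p))) := by
    rw [h8]; ring
  nlinarith

open Classical in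
theorem prob_not_quasi (n : ℕ) (p : I) (hp : 0 < (p : ℝ)) {l1 : ℝ} (h0 : 0 ≤ l1)
    (h1 : l1 ≤ 2 * (n * p)) (hn : 0 < n) (K : ℕ) :
    (binomialRandom (Fin n) p).real {G | ¬ Quasi G p (l1 + (K + 1)) K} ≤
      4 ^ n * Real.exp (-((K + 1) * l1 ^ 2 / (4 * (n * p)))) := by
  have hsub : {G : SimpleGraph (Fin n) | ¬ Quasi G p (l1 + (K + 1)) K} ⊆
      ⋃ e ∈ (univ : Finset (Finset (Fin n) × Finset (Fin n))),
        {G | (Disjoint e.1 e.2 ∧ e.1.card = K + 1) ∧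
          ∀ z ∈ e.1, (p : ℝ) * e.2.card + l1 ≤ deg G z e.2} := by
    intro G hG
    simp only [Quasi, Set.mem_ofPred_eq, not_forall, not_le] at hG
    obtain ⟨X, hX⟩ := hG
    obtain ⟨Z, hZ, hc⟩ := exists_subset_card_eq (n := K + 1) hX
    simp only [Set.mem_iUnion]
    refine ⟨(Z, X \ Z), mem_univ _, ⟨disjoint_sdiff, hc⟩, fun z hz => ?_⟩
    have h2 := (mem_filter.mp (hZ hz)).2
    have h3 : (deg G z X : ℝ) ≤ deg G z (X \ Z) + Z.card := by
      exact_mod_cast deg_le_of_sub fun w hw => by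
        by_cases hwZ : w ∈ Z
        · exact mem_union_right _ hwZ
        · exact mem_union_left _ (mem_sdiff.mpr ⟨hw, hwZ⟩)
    have h4 : ((X \ Z).card : ℝ) ≤ X.card := by exact_mod_cast card_le_card sdiff_subset
    rw [hc] at h3
    push_cast at h3
    simp only
    nlinarith
  refine (measureReal_mono hsub (measure_ne_top _ _)).trans
    ((measureReal_biUnion_finset_le _ _).trans ?_)
  have h2 : ∀ e ∈ (univ : Finset (Finset (Fin n) × Finset (Fin n))),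
      (binomialRandom (Fin n) p).real {G | (Disjoint e.1 e.2 ∧ e.1.card = K + 1) ∧
        ∀ z ∈ e.1, (p : ℝ) * e.2.card + l1 ≤ deg G z e.2} ≤
      Real.exp (-((K + 1) * l1 ^ 2 / (4 * (n * p)))) := by
    intro e _
    by_cases hc : Disjoint e.1 e.2 ∧ e.1.card = K + 1
    · have := prob_pair n p hp h0 h1 hn e.1 e.2 hc.1
      rw [hc.2] at this
      push_cast at this
      simpa only [hc, true_and, and_self] using this
    · simp only [hc, false_and, Set.ofPred_false, measureReal_empty]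
      exact (Real.exp_pos _).le
  refine (sum_le_card_nsmul _ _ _ h2).trans (le_of_eq ?_)
  rw [nsmul_eq_mul, card_univ, Fintype.card_prod, Fintype.card_finset, Fintype.card_fin]
  push_cast
  rw [← mul_pow]
  norm_num

theorem par_of {η p : ℝ} (hη0 : 0 < η) (hη1 : η ≤ 1) (hp0 : 0 < p) (hp1 : p ≤ 1) {n b : ℕ}
    (hn : 6000 ≤ η ^ 6 * (n * p ^ 4)) (hb : (24 / 31 + 211 * η) * n * p ≤ b) :
    ∃ K m ℓ J H0 σ0 Cv : ℕ, Par n p (η * (n * p) + (K + 1)) K m ℓ J H0 σ0 Cv b ∧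
      8 ≤ (K + 1) * (η ^ 2 * p) := by
  have hn0 : (0 : ℝ) < n := by
    by_contra hc
    have : (n : ℝ) = 0 := le_antisymm (not_lt.mp hc) (Nat.cast_nonneg _)
    rw [this] at hn
    norm_num at hn
  obtain ⟨Q, hQ⟩ : ∃ Q : ℝ, Q = 1 / (η * p) := ⟨_, rfl⟩
  obtain ⟨R, hR⟩ : ∃ R : ℝ, R = 1 / η := ⟨_, rfl⟩
  have hηp : η * p ≤ 1 := by nlinarith
  have hQ1 : 1 ≤ Q := by rw [hQ, le_div_iff₀ (by positivity)]; linarith
  have hR1 : 1 ≤ R := by rw [hR, le_div_iff₀ hη0]; linarith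
  have hmain : 6000 * (Q ^ 3 * R ^ 2) ≤ η * (n * p) := by
    have : Q ^ 3 * R ^ 2 = 1 / (η ^ 5 * p ^ 3) := by rw [hQ, hR]; field_simp
    rw [this, mul_one_div, div_le_iff₀ (by positivity)]
    calc (6000 : ℝ) ≤ η ^ 6 * (n * p ^ 4) := hn
      _ = _ := by ring
  obtain ⟨K, hK⟩ : ∃ K : ℕ, K = ⌊8 * (Q * R)⌋₊ := ⟨_, rfl⟩
  have hK1 : (K : ℝ) ≤ 8 * (Q * R) := hK ▸ Nat.floor_le (by positivity)
  have hK2 : 8 * (Q * R) < K + 1 := hK ▸ Nat.lt_floor_add_one _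
  obtain ⟨m, hm⟩ : ∃ m : ℕ, m = ⌈η * n⌉₊ := ⟨_, rfl⟩
  have hm1 : η * n ≤ m := hm ▸ Nat.le_ceil _
  have hm2 : (m : ℝ) < η * n + 1 := hm ▸ Nat.ceil_lt_add_one (by positivity)
  have hm0 : (0 : ℝ) < m := lt_of_lt_of_le (by positivity) hm1
  obtain ⟨ℓ, hℓ⟩ : ∃ ℓ : ℕ, ℓ = ⌈η * (n * p)⌉₊ := ⟨_, rfl⟩
  have hl1 : η * (n * p) ≤ ℓ := hℓ ▸ Nat.le_ceil _
  have hl2 : (ℓ : ℝ) < η * (n * p) + 1 := hℓ ▸ Nat.ceil_lt_add_one (by positivity)
  have hl0 : (0 : ℝ) < ℓ := lt_of_lt_of_le (by positivity) hl1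
  have hl0' : 0 < ℓ := by exact_mod_cast hl0
  have hnm : ((n / m : ℕ) : ℝ) ≤ R := by
    refine Nat.cast_div_le.trans ?_
    rw [hR, div_le_div_iff₀ hm0 hη0]
    linarith
  have hdiv : ∀ c : ℕ, ((c * n / ℓ : ℕ) : ℝ) ≤ c * Q := by
    intro c
    refine Nat.cast_div_le.trans ?_
    rw [hQ, mul_one_div, div_le_div_iff₀ hl0 (by positivity)]
    push_cast
    have := mul_le_mul_of_nonneg_left hl1 (Nat.cast_nonneg (α := ℝ) c)
    linarith
  obtain ⟨K', hK'⟩ : ∃ K' : ℕ, K' = 4 * ((n / m + 1) * K) := ⟨_, rfl⟩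
  have hK'1 : (K' : ℝ) ≤ 64 * (Q * R ^ 2) := by
    rw [hK']
    push_cast
    have h1 : ((n / m : ℕ) : ℝ) + 1 ≤ 2 * R := by linarith
    have h2 := mul_le_mul h1 hK1 (Nat.cast_nonneg _) (by positivity)
    nlinarith
  have hQ2 : Q * R ^ 2 ≤ Q ^ 3 * R ^ 2 := by
    have : Q ≤ Q ^ 3 := le_self_pow₀ hQ1 (by norm_num)
    gcongr
  have hQ3 : Q ^ 2 * R ^ 2 ≤ Q ^ 3 * R ^ 2 := by
    have : Q ^ 2 ≤ Q ^ 3 := pow_le_pow_right₀ hQ1 (by norm_num)
    gcongr
  have hQ4 : Q * R ≤ Q * R ^ 2 := by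
    have : R ≤ R ^ 2 := le_self_pow₀ hR1 (by norm_num)
    gcongr
  have hQ5 : 1 ≤ Q * R := by nlinarith
  have hnp : η * (n * p) ≤ n := by nlinarith
  have h31 := Nat.div_add_mod n 31
  have h31' := Nat.mod_lt n (show 0 < 31 by norm_num)
  refine ⟨K, m, ℓ, 5 * n / ℓ + 3, 7 * (n / 31), 4 * (n / 31), 24 * (n / 31) + 31 + 4 * K',
    ⟨hp0.le, hp1, by positivity, by exact_mod_cast hm0, hl0', le_add_left (by norm_num), ?_, by omega, by omega,
      by omega, ?_, ?_⟩, ?_⟩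
  · have h1 := Nat.div_add_mod (5 * n) ℓ
    have h2 := Nat.mod_lt (5 * n) hl0'
    have h3 : 0 < n := by exact_mod_cast hn0
    rw [add_mul, mul_comm (5 * n / ℓ)]
    omega
  · rw [← hK']
    have h1 : (50 * K' : ℝ) < n := by linarith
    have h2 : 50 * K' < n := by exact_mod_cast h1
    omega
  · rw [← hK']
    have h1 := hdiv 2
    have h2 := hdiv 5
    have h3 : ((n / 31 : ℕ) : ℝ) ≤ n / 31 := Nat.cast_div_le
    push_cast at h1 h2 ⊢
    have hK0 : (0 : ℝ) ≤ K' := Nat.cast_nonneg _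
    have h4 : (((2 * n / ℓ : ℕ) : ℝ) + 5) * K' ≤ 7 * Q * (64 * (Q * R ^ 2)) :=
      mul_le_mul (by linarith) hK'1 hK0 (by positivity)
    have h5 : (((2 * n / ℓ : ℕ) : ℝ) + 1) * K' ≤ 3 * Q * (64 * (Q * R ^ 2)) :=
      mul_le_mul (by linarith) hK'1 hK0 (by positivity)
    have h6 : (((2 * n / ℓ : ℕ) : ℝ) + 1) * K' * (((5 * n / ℓ : ℕ) : ℝ) + 3) ≤
        3 * Q * (64 * (Q * R ^ 2)) * (8 * Q) :=
      mul_le_mul h5 (by linarith) (by positivity) (by positivity)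
    have h7 : p * (24 * ((n / 31 : ℕ) : ℝ)) ≤ p * (24 * (n / 31)) := by gcongr
    have h8 : p * (31 + 4 * K') ≤ 1 * (31 + 4 * K') := by gcongr
    have h9 : p * m ≤ p * (η * n + 1) := by gcongr
    have e1 : 7 * Q * (64 * (Q * R ^ 2)) = 448 * (Q ^ 2 * R ^ 2) := by ring
    have e2 : 3 * Q * (64 * (Q * R ^ 2)) * (8 * Q) = 1536 * (Q ^ 3 * R ^ 2) := by ring
    have e3 : p * (24 * (n / 31)) = 24 / 31 * (n * p) := by ring
    have e4 : p * (η * n + 1) = η * (n * p) + p := by ring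
    have e5 : (24 / 31 + 211 * η) * n * p = 24 / 31 * (n * p) + 211 * (η * (n * p)) := by ring
    have e6 : p * (24 * ((n / 31 : ℕ) : ℝ) + 31 + 4 * K') =
        p * (24 * ((n / 31 : ℕ) : ℝ)) + p * (31 + 4 * K') := by ring
    rw [e6]
    linarith
  · have : Q * R * (η ^ 2 * p) = 1 := by rw [hQ, hR]; field_simp
    have h2 : 0 < η ^ 2 * p := by positivity
    nlinarith

theorem upper2_tendsto {ε : ℝ} (hε : 0 < ε) : ∃ C : ℝ, ∀ (p : ℕ → I) (b : ℕ → ℕ),
    (∀ᶠ n : ℕ in atTop, C ≤ n * (p n : ℝ) ^ 4 ∧ (24 / 31 + ε) * n * p n ≤ b n) →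
    Tendsto (fun n : ℕ => (binomialRandom (Fin n) (p n)).real {G | MakerWins false (b n) G ∅})
      atTop (𝓝 0) := by
  classical
  obtain ⟨η, hη0, hη1, hηε⟩ : ∃ η : ℝ, 0 < η ∧ η ≤ 1 ∧ 211 * η ≤ ε :=
    ⟨min 1 (ε / 211), lt_min one_pos (by positivity), min_le_left _ _, by
      have := min_le_right 1 (ε / 211)
      linarith⟩
  refine ⟨6000 / η ^ 6, fun p b h => ?_⟩
  have h4 : 4 * Real.exp (-2) < 1 := by
    have h1 := Real.add_one_lt_exp (x := (1 : ℝ)) one_ne_zero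
    have h2 : Real.exp 2 = Real.exp 1 * Real.exp 1 := by rw [← Real.exp_add]; norm_num
    rw [Real.exp_neg, ← div_eq_mul_inv, div_lt_one (Real.exp_pos _)]
    nlinarith
  apply squeeze_zero' (Eventually.of_forall fun _ => measureReal_nonneg) _
    (tendsto_pow_atTop_nhds_zero_of_lt_one (by positivity) h4)
  filter_upwards [h] with n hn
  have hn1 : 6000 ≤ η ^ 6 * (n * (p n : ℝ) ^ 4) := by
    have := hn.1
    rw [div_le_iff₀ (by positivity)] at this
    linarith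
  have hp0 : (0 : ℝ) < p n := by
    by_contra hc
    have : (p n : ℝ) = 0 := le_antisymm (not_lt.mp hc) (p n).2.1
    rw [this] at hn1
    norm_num at hn1
  have hn0 : 0 < n := by
    by_contra hc
    have : n = 0 := by omega
    subst this
    norm_num at hn1
  have hnR : (0 : ℝ) < n := by exact_mod_cast hn0
  have hν : (0 : ℝ) < n * p n := by positivity
  obtain ⟨K, m, ℓ, J, H0, σ0, Cv, P, hK⟩ := par_of hη0 hη1 hp0 (p n).2.2 (b := b n) hn1
    (le_trans (by nlinarith) hn.2)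
  have h1 := prob_not_quasi n (p n) hp0 (l1 := η * (n * p n)) (by positivity) (by nlinarith) hn0 K
  refine le_trans (measureReal_mono ?_ (measure_ne_top _ _)) (h1.trans ?_)
  · exact fun G hG hQ => not_wins (by rw [Fintype.card_fin]; exact P) hQ hG
  · rw [mul_pow 4, ← Real.exp_nat_mul]
    apply mul_le_mul_of_nonneg_left _ (by positivity)
    apply Real.exp_le_exp.mpr
    have e : ((K : ℝ) + 1) * (η * (n * p n)) ^ 2 / (4 * (n * p n)) =
        (K + 1) * (η ^ 2 * p n) * n / 4 := by field_simp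
    rw [e]
    nlinarith

end Pool.Agent.MP_0b991d_co.H88
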