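import Pool.Agent.MP_0b991d_co.H88.Ops

namespace Pool.Agent.MP_0b991d_co.H88

open Finset

variable {V : Type} [DecidableEq V] [Fintype V] {G : SimpleGraph V} [DecidableRel G.Adj]
variable {p Γ E0 : ℝ} {x x' : St V} {F : Finset V} {T TL TR : ℕ} {N : ℤ} {E Err : ℝ} {d ω : ℤ}

theorem Half.typ_or (h : Half G p Γ E0 x F T N E d ω) (hΓ : 0 ≤ Γ) (z : V) :
    Typ G p (E + Γ) x F z ∨ (z ∈ F ∧ wL x z ≤ d) := by
  by_cases hz : z ∈ F
  · rcases h.t2 z hz with h1 | h1
    · exact Or.inr ⟨hz, h1⟩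
    · exact Or.inl h1.1
  · exact Or.inl ((h.t1 z hz).mono (by linarith))

theorem Half.cost_r (h : Half G p Γ E0 x F T N E d ω) (hp0 : 0 ≤ p) (hΓ : 0 ≤ Γ) (hE0 : 0 ≤ E0)
    (e1 : E + Γ + F.card ≤ Err) (e2 : E0 + F.card + d ≤ Err) {z : V} {t : ℤ} (h1 : t ≤ x.r z)
    (h2 : t < 0) :
    (deg G z (univ.filter fun w => x.l z ≤ x.r w ∧ x.r w < t) : ℝ) ≤
      p * (XR x F t).card + Err := by
  rcases h.typ_or hΓ z with h3 | ⟨-, h3⟩
  · have h4 := h3.1 t h2.le
    have h5 : (deg G z (univ.filter fun w => x.l z ≤ x.r w ∧ x.r w < t) : ℝ) ≤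
        deg G z (XR x F t) + F.card := by
      exact_mod_cast deg_le_of_sub fun w hw => by
        simp only [mem_filter, mem_univ, true_and, mem_union, mem_XR] at hw ⊢
        tauto
    linarith
  · have h4 := card_r_range h.inj (a := x.l z) h2
    have h5 := deg_le_card (G := G) z (univ.filter fun w => x.l z ≤ x.r w ∧ x.r w < t)
    have h6 := h.d0
    simp only [wL] at h3
    have h7 : ((deg G z (univ.filter fun w => x.l z ≤ x.r w ∧ x.r w < t) : ℤ) : ℝ) ≤ (d : ℝ) := by
      exact_mod_cast (by omega)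
    have h8 : (0 : ℝ) ≤ p * (XR x F t).card := by positivity
    have h9 : (0 : ℝ) ≤ F.card := by positivity
    push_cast at h7
    linarith

theorem Half.cost_l (h : Half G p Γ E0 x F T N E 0 ω) (hp0 : 0 ≤ p) (hΓ : 0 ≤ Γ) (hE0 : 0 ≤ E0)
    (e1 : E + Γ + F.card ≤ Err) (e2 : E0 + F.card ≤ Err) {z : V} {s : ℤ} (h0 : x.l z ≤ s)
    (h1 : s ≤ x.r z) :
    (deg G z (univ.filter fun w => s < x.l w ∧ x.l w ≤ x.r z ∧ x.l w < 0) : ℝ) ≤
      p * (XL x F s).card + Err := by
  rcases h.typ_or hΓ z with h3 | ⟨-, h3⟩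
  · have h4 := h3.2 s
    have h5 : (deg G z (univ.filter fun w => s < x.l w ∧ x.l w ≤ x.r z ∧ x.l w < 0) : ℝ) ≤
        deg G z (XL x F s) + F.card := by
      exact_mod_cast deg_le_of_sub fun w hw => by
        simp only [mem_filter, mem_univ, true_and, mem_union, mem_XL] at hw ⊢
        tauto
    linarith
  · have h4 : (univ.filter fun w => s < x.l w ∧ x.l w ≤ x.r z ∧ x.l w < 0) = ∅ := by
      apply filter_eq_empty_iff.mpr
      intro w _
      simp only [wL] at h3
      omega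
    have h8 : (0 : ℝ) ≤ p * (XL x F s).card := by positivity
    have h9 : (0 : ℝ) ≤ F.card := by positivity
    rw [h4]
    simp only [deg, filter_empty, card_empty, Nat.cast_zero]
    linarith

theorem Half.cost_j (h : Half G p Γ E0 x F T N E d ω) (hp0 : 0 ≤ p) (hΓ : 0 ≤ Γ)
    (e1 : E + Γ + F.card ≤ Err) (e2 : E0 + F.card + d ≤ Err) {z : V} (h1 : x.l z < 0)
    (h2 : 0 ≤ x.r z) :
    (deg G z (univ.filter fun w => x.l z ≤ x.r w ∧ x.r w < 0) : ℝ) ≤ p * (sA x).card + Err := by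
  rcases h.typ_or hΓ z with h3 | ⟨hz, h3⟩
  · have h4 := h3.1 0 le_rfl
    have h5 : (deg G z (univ.filter fun w => x.l z ≤ x.r w ∧ x.r w < 0) : ℝ) ≤
        deg G z (XR x F 0) + F.card := by
      exact_mod_cast deg_le_of_sub fun w hw => by
        simp only [mem_filter, mem_univ, true_and, mem_union, mem_XR] at hw ⊢
        tauto
    have h6 : ((XR x F 0).card : ℝ) ≤ (sA x).card := by
      exact_mod_cast card_le_card fun w hw => mem_sA.mpr (mem_XR.mp hw).2
    nlinarith
  · have h4 := card_r_range h.inj (a := x.l z) (t := -1) (by omega)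
    have h5 := h.blk z hz h1 h2
    have h6 : deg G z (univ.filter fun w => x.l z ≤ x.r w ∧ x.r w < 0) ≤
        deg G z (Blk x F) + (F ∪ univ.filter fun w => x.l z ≤ x.r w ∧ x.r w < -1).card :=
      deg_le_of_sub fun w hw => by
        simp only [mem_filter, mem_univ, true_and, mem_union, mem_Blk] at hw ⊢
        by_cases hF : w ∈ F
        · exact Or.inr (Or.inl hF)
        · by_cases hr : x.r w = -1
          · exact Or.inl ⟨hF, hr⟩
          · exact Or.inr (Or.inr (by omega))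
    have h7 := card_union_le F (univ.filter fun w => x.l z ≤ x.r w ∧ x.r w < -1)
    simp only [wL] at h3
    have h8 : ((deg G z (univ.filter fun w => x.l z ≤ x.r w ∧ x.r w < 0) : ℤ) : ℝ) ≤
        ((deg G z (Blk x F) + F.card + d : ℤ) : ℝ) := by
      exact_mod_cast (by omega)
    push_cast at h8
    linarith

def Good (G : SimpleGraph V) [DecidableRel G.Adj] (p Γ E0 : ℝ) (x : St V) (F : Finset V)
    (TL TR : ℕ) (N : ℤ) (E : ℝ) (d ω : ℤ) : Prop :=
  Half G p Γ E0 x F TL N E d ω ∧ Half G p Γ E0 x.mir F TR N E d ω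

theorem Good.mir (h : Good G p Γ E0 x F TL TR N E d ω) : Good G p Γ E0 x.mir F TR TL N E d ω :=
  ⟨h.2, by rw [mir_mir]; exact h.1⟩

theorem Good.mono (h : Good G p Γ E0 x F TL TR N E d ω) {N' : ℤ} {E' : ℝ} {d' ω' : ℤ}
    (hN : N ≤ N') (hE : E ≤ E') (hd : d ≤ d') (hω : ω ≤ ω') :
    Good G p Γ E0 x F TL TR N' E' d' ω' :=
  ⟨h.1.mono le_rfl hN hE hd hω, h.2.mono le_rfl hN hE hd hω⟩

theorem Good.split (hp0 : 0 ≤ p) (hp1 : p ≤ 1) (h : Good G p Γ E0 x F TL TR N E d ω) {s : ℤ}
    {u v : V} (hs : s < 0) (hu1 : x.l u ≤ s) (hu2 : s ≤ x.r u) (hv1 : x.l v ≤ s)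
    (hv2 : s ≤ x.r v) :
    Good G p Γ E0 (split x s u v) F (TL + 1) TR (N + 1) (E + 4) (d + 1) (ω + 1) :=
  ⟨split_half hp0 hp1 h.1 hs hu1 hu2 hv1 hv2,
    ((split_LC h.1.le hs hu1 hv1 hv2).half hp0 hp1 h.2).mono le_rfl (by omega) (by linarith)
      (by omega) (by omega)⟩

theorem Good.raise1 (hp0 : 0 ≤ p) (hp1 : p ≤ 1) (h : Good G p Γ E0 x F TL TR N E d ω) {z : V}
    {t : ℤ} (h1 : x.l z ≤ t) (h2 : t ≤ x.r z) (h3 : t < 0) :
    Good G p Γ E0 (raise1 x z t) F (TL + 1) TR N (E + 2) d ω :=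
  ⟨raise1_half hp0 hp1 h.1 h1 h2 h3, (raise1_LC h.1.le h1 h2 h3).half hp0 hp1 h.2⟩

omit [DecidableEq V] in
theorem card_parts (hle : ∀ w, x.l w ≤ x.r w) :
    (sA x).card + (sA x.mir).card + (sM x).card = Fintype.card V := by
  classical
  rw [← card_union_of_disjoint, ← card_union_of_disjoint, ← card_univ]
  · congr 1
    ext w
    simp only [mem_union, mem_sA, mem_sM, mir_r, mem_univ, iff_true]
    omega
  · rw [disjoint_left]
    intro w
    have := hle w
    simp only [mem_union, mem_sA, mem_sM, mir_r]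
    omega
  · rw [disjoint_left]
    intro w
    have := hle w
    simp only [mem_sA, mir_r]
    omega

theorem Good.jumpA (hp0 : 0 ≤ p) (hp1 : p ≤ 1) (hΓ : 0 ≤ Γ)
    (h : Good G p Γ E0 x F TL TR N E d ω)
    (e1 : E + Γ + F.card ≤ Err) (e2 : E0 + F.card + d ≤ Err) (hM : (sM x).Nonempty) :
    ∃ x', Good G p Γ E0 x' F TL TR N (E + 2) d ω ∧ Step G x x' (p * (sA x.mir).card + Err) ∧
      (sA x').card = (sA x).card + 1 ∧ sA x'.mir = sA x.mir := by
  obtain ⟨z, hz, hpr⟩ : ∃ z ∈ sM x, z ∈ F ∨ ∀ y ∈ F, y ∉ sM x := by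
    by_cases hc : ∃ y ∈ F, y ∈ sM x
    · obtain ⟨y, h1, h2⟩ := hc
      exact ⟨y, h2, Or.inl h1⟩
    · obtain ⟨y, hy⟩ := hM
      exact ⟨y, hy, Or.inr fun y h1 h2 => hc ⟨y, h1, h2⟩⟩
  obtain ⟨h1, h2⟩ := mem_sM.mp hz
  have c := jump_LC h.1.le h1
  refine ⟨jump x z, ⟨jump_half hp0 hp1 h.1 h1 h2 hpr, c.half hp0 hp1 h.2⟩,
    (jump_step h2).mono ?_, ?_, c.sB⟩
  · have h3 := h.2.cost_j hp0 hΓ e1 e2 (z := z) (by simp only [mir_l]; omega)
      (by simp only [mir_r]; omega)
    refine le_trans (le_of_eq ?_) h3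
    congr 2
    ext w
    simp only [mem_filter, mem_univ, true_and]
    simp only [mir_l, mir_r]
    omega
  · rw [jump_sA, card_insert_of_notMem (by simp only [mem_sA]; omega)]

theorem Good.jumpB (hp0 : 0 ≤ p) (hp1 : p ≤ 1) (hΓ : 0 ≤ Γ)
    (h : Good G p Γ E0 x F TL TR N E d ω)
    (e1 : E + Γ + F.card ≤ Err) (e2 : E0 + F.card + d ≤ Err) (hM : (sM x).Nonempty) :
    ∃ x', Good G p Γ E0 x' F TL TR N (E + 2) d ω ∧ Step G x x' (p * (sA x).card + Err) ∧
      (sA x'.mir).card = (sA x.mir).card + 1 ∧ sA x' = sA x := by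
  obtain ⟨y, h1, h2, h3, h4⟩ := h.mir.jumpA hp0 hp1 hΓ e1 e2 (by rwa [sM_mir])
  refine ⟨y.mir, h1.mir, ?_, ?_, ?_⟩
  · simpa using h2.mir
  · simpa using h3
  · simpa using h4

theorem Good.tightL (hp0 : 0 ≤ p) (hp1 : p ≤ 1) [Nonempty V]
    (h1 : Half G p Γ E0 x F TL N E d ω) {d' ω' : ℤ} (h2 : Half G p Γ E0 x.mir F TR N E d' ω')
    {J : ℕ} (hJ : d ≤ J) :
    ∃ x', Half G p Γ E0 x' F TL N (E + 2) 0 (max 0 (ω - J)) ∧
      Half G p Γ E0 x'.mir F TR N (E + 2) d' ω' ∧ Step G x x' (F.card * J) ∧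
      sA x' = sA x ∧ sA x'.mir = sA x.mir ∧ Pts x ⊆ Pts x' := by
  have c : LC x (raiseF x F J) (Classical.arbitrary V) := raiseF_LC h1.le _
  refine ⟨raiseF x F J, (raiseF_half h1 hJ).mono le_rfl le_rfl (by linarith) le_rfl le_rfl,
    c.half hp0 hp1 h2, raiseF_step h1.le h1.inj, rfl, c.sB, fun w => ?_⟩
  simp only [mem_Pts, raiseF_r]
  rcases raiseF_l x F J w with ⟨-, h3, h4⟩ | ⟨-, h4⟩ <;> omega

theorem Good.tight (hp0 : 0 ≤ p) (hp1 : p ≤ 1) [Nonempty V]
    (h : Good G p Γ E0 x F TL TR N E d ω) {J : ℕ} (hJ : d ≤ J) :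
    ∃ x', Good G p Γ E0 x' F TL TR N (E + 4) 0 (max 0 (ω - J)) ∧
      Step G x x' (2 * (F.card * J)) ∧
      sA x' = sA x ∧ sA x'.mir = sA x.mir ∧ Pts x ⊆ Pts x' := by
  obtain ⟨y, h1, h2, h3, h4, h5, h6⟩ := Good.tightL hp0 hp1 h.1 h.2 hJ
  obtain ⟨z, k1, k2, k3, k4, k5, k6⟩ := Good.tightL (x := y.mir) hp0 hp1 h2
    (by rw [mir_mir]; exact h1) hJ
  refine ⟨z.mir, ⟨?_, ?_⟩, ?_, ?_, ?_, ?_⟩
  · rwa [show E + 2 + 2 = E + 4 by ring] at k2
  · rw [mir_mir]
    rwa [show E + 2 + 2 = E + 4 by ring] at k1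
  · have := k3.mir
    rw [mir_mir] at this
    exact (h3.trans this).mono (by linarith)
  · rw [k5, mir_mir, h4]
  · rw [mir_mir, k4, h5]
  · rw [Pts_mir]
    rw [Pts_mir] at k6
    exact h6.trans k6

theorem cost_u (hp0 : 0 ≤ p) (hΓ : 0 ≤ Γ) (hE0 : 0 ≤ E0) (h : Good G p Γ E0 x F TL TR N E 0 ω)
    (e1 : E + Γ + F.card ≤ Err) (e2 : E0 + F.card ≤ Err) {u : V} {s : ℤ} (h0 : x.l u ≤ s)
    (h1 : s ≤ x.r u) (h2 : s < 0) :
    (deg G u (univ.filter fun w => s < x.l w ∧ x.l w ≤ x.r u) : ℝ) ≤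
      p * (XL x F s).card + Err + if x.r u < 0 then 0 else p * (sA x.mir).card + Err := by
  have h3 := h.1.cost_l hp0 hΓ hE0 e1 e2 h0 h1
  split_ifs with hc
  · rw [add_zero]
    refine le_trans (le_of_eq ?_) h3
    congr 2
    ext w
    simp only [mem_filter, mem_univ, true_and]
    omega
  · have h4 := h.2.cost_j hp0 hΓ e1 (by simpa using e2) (z := u) (by simp only [mir_l]; omega)
      (by simp only [mir_r]; omega)
    have h5 : deg G u (univ.filter fun w => s < x.l w ∧ x.l w ≤ x.r u) ≤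
        deg G u (univ.filter fun w => s < x.l w ∧ x.l w ≤ x.r u ∧ x.l w < 0) +
        deg G u (univ.filter fun w => x.mir.l u ≤ x.mir.r w ∧ x.mir.r w < 0) := by
      refine le_trans (deg_mono fun w => ?_) (deg_union_le _ _ _)
      simp only [mem_filter, mem_univ, true_and, mem_union]
      simp only [mir_l, mir_r]
      omega
    have h6 : (deg G u (univ.filter fun w => s < x.l w ∧ x.l w ≤ x.r u) : ℝ) ≤
        deg G u (univ.filter fun w => s < x.l w ∧ x.l w ≤ x.r u ∧ x.l w < 0) +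
        deg G u (univ.filter fun w => x.mir.l u ≤ x.mir.r w ∧ x.mir.r w < 0) := by
      exact_mod_cast h5
    linarith

theorem split_mem {s : ℤ} {u v : V} (hadj : G.Adj u v) : (u, v) ∈ Dir G (split x s u v) := by
  refine mem_Dir.mpr ⟨hadj, ?_⟩
  have hne := hadj.ne
  simp only [split, if_true, true_and, ne_eq, hne.symm, not_false_eq_true]
  omega

theorem Good.forcedM (hp0 : 0 ≤ p) (hp1 : p ≤ 1) (hΓ : 0 ≤ Γ) (hE0 : 0 ≤ E0)
    (h : Good G p Γ E0 x F TL TR N E 0 ω)
    (e1 : E + 4 + Γ + F.card ≤ Err) (e2 : E0 + F.card + 1 ≤ Err) {u v : V} (hadj : G.Adj u v)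
    (h1 : x.l v ≤ x.r u) (h2 : x.l u ≤ x.r v) (hu : x.l u < 0) (hv : x.l v < 0)
    (hM : (sM x).Nonempty) :
    ∃ x', Good G p Γ E0 x' F (TL + 1) TR (N + 1) (E + 6) 1 (ω + 1) ∧
      Step G x x' (p * (TL + (sA x.mir).card) + 3 * Err + 1) ∧ (u, v) ∈ Dir G x' ∧
      (sA x').card = (sA x).card + 1 ∧ sA x'.mir = sA x.mir := by
  obtain ⟨s, hs⟩ : ∃ s, s = max (x.l u) (x.l v) := ⟨_, rfl⟩
  have hlu := h.1.le u
  have hlv := h.1.le v
  have hs0 : s < 0 := by omega
  have hu1 : x.l u ≤ s := by omega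
  have hu2 : s ≤ x.r u := by omega
  have hv1 : x.l v ≤ s := by omega
  have hv2 : s ≤ x.r v := by omega
  have g1 := h.split hp0 hp1 hs0 hu1 hu2 hv1 hv2
  have c := split_LC h.1.le hs0 hu1 hv1 hv2
  have s1 := split_step (G := G) hu1 hu2 hv1 hv2
  have k1 := cost_u hp0 hΓ hE0 h (Err := Err) (by linarith) (by linarith) hu1 hu2 hs0
  have k2 := h.1.cost_r hp0 hΓ hE0 (Err := Err) (by linarith) (by push_cast; linarith) hv2 hs0
  have k3 : ((XR x F s).card : ℝ) + (XL x F s).card ≤ TL := by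
    exact_mod_cast h.1.cnt s hs0 ⟨u, hu1⟩
  have k4 := mul_le_mul_of_nonneg_left k3 hp0
  by_cases hc : x.r u < 0
  · rw [if_pos hc] at k1
    obtain ⟨y, j1, j2, j3, j4⟩ := g1.jumpA hp0 hp1 hΓ (Err := Err) e1 (by push_cast; linarith) (by
      obtain ⟨w, hw⟩ := hM
      refine ⟨w, ?_⟩
      rw [mem_sM] at hw ⊢
      have := c.l2 w hw.1
      have := c.r2 w (by rintro rfl; omega) hw.2
      omega)
    refine ⟨y, j1.mono le_rfl (by linarith) (by omega) le_rfl, (s1.trans j2).mono ?_,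
      j2.sub (split_mem hadj), ?_, j4.trans c.sB⟩
    · rw [c.sB]
      linarith
    · rw [j3, split_sA hs0, insert_eq_of_mem (mem_sA.mpr hc)]
  · rw [if_neg hc] at k1
    refine ⟨_, g1.mono le_rfl (by linarith) (by omega) le_rfl, s1.mono (by linarith),
      split_mem hadj, ?_, c.sB⟩
    rw [split_sA hs0, card_insert_of_notMem (by simpa using hc)]

theorem Good.forcedE (hp0 : 0 ≤ p) (hp1 : p ≤ 1) (hΓ : 0 ≤ Γ) (hE0 : 0 ≤ E0)
    (h : Good G p Γ E0 x F TL TR N E 0 ω)
    (e1 : E + Γ + F.card ≤ Err) (e2 : E0 + F.card ≤ Err) {u v : V} (hadj : G.Adj u v)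
    (h1 : x.l v ≤ x.r u) (h2 : x.l u ≤ x.r v) (hu : x.l u < 0) (hv : x.l v < 0)
    (hM : sM x = ∅) :
    ∃ x' TL', Good G p Γ E0 x' F TL' TR (N + 2) (E + 8) 2 (ω + 2) ∧
      Step G x x' (p * (sA x).card + 2 * Err + 2) ∧ (u, v) ∈ Dir G x' ∧
      sA x' = sA x ∧ sA x'.mir = sA x.mir ∧ (Pts x).card + 1 ≤ (Pts x').card := by
  obtain ⟨s, hs⟩ : ∃ s, s = max (x.l u) (x.l v) := ⟨_, rfl⟩
  have hA : ∀ w, x.l w < 0 → x.r w < 0 := by
    intro w hw
    by_contra hc
    have : w ∈ sM x := mem_sM.mpr ⟨hw, by omega⟩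
    rw [hM] at this
    simp at this
  have hne := hadj.ne
  have hlu := h.1.le u
  have hlv := h.1.le v
  have hru := hA u hu
  have hrv := hA v hv
  have hs0 : s < 0 := by omega
  have hu1 : x.l u ≤ s := by omega
  have hu2 : s ≤ x.r u := by omega
  have hv1 : x.l v ≤ s := by omega
  have hv2 : s ≤ x.r v := by omega
  have g1 := h.split hp0 hp1 hs0 hu1 hu2 hv1 hv2
  have c1 := split_LC h.1.le hs0 hu1 hv1 hv2
  have s1 := split_step (G := G) hu1 hu2 hv1 hv2
  have a1 : sA (H88.split x s u v) = sA x := by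
    rw [split_sA hs0, insert_eq_of_mem (mem_sA.mpr hru)]
  have k3 : ((XR x F s).card : ℝ) + (XL x F s).card ≤ (sA x).card := by
    have : (XR x F s).card + (XL x F s).card ≤ (sA x).card := by
      rw [← card_union_of_disjoint]
      · apply card_le_card
        intro w
        simp only [mem_union, mem_XR, mem_XL, mem_sA]
        have := hA w
        omega
      · rw [disjoint_left]
        intro w
        have := h.1.le w
        simp only [mem_XR, mem_XL]
        omega
    exact_mod_cast this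
  have k4 := mul_le_mul_of_nonneg_left k3 hp0
  have lv : (H88.split x s u v).l v = s := by
    rcases split_l x s u v v with ⟨-, -, h5⟩ | ⟨h5 | h5, -⟩ | ⟨h5 | h5, -⟩
    · exact h5
    all_goals first | exact absurd rfl h5 | exact absurd h5.symm hne
  have rv : (H88.split x s u v).r v = x.r v := by
    rcases split_r x s u v v with ⟨h5, -⟩ | ⟨-, h5, -⟩ | ⟨-, -, h5⟩
    · exact absurd h5.symm hne
    · omega
    · exact h5
  have lu : (H88.split x s u v).l u = x.l u - 1 := by
    rcases split_l x s u v u with ⟨-, h5, -⟩ | ⟨-, -, h5⟩ | ⟨-, h5, -⟩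
    · exact absurd rfl h5
    · exact h5
    · omega
  have ru : (H88.split x s u v).r u = s - 1 := by
    rcases split_r x s u v u with ⟨-, h5⟩ | ⟨h5, -⟩ | ⟨h5, -⟩
    · exact h5
    all_goals exact absurd rfl h5
  have kv := h.1.cost_r hp0 hΓ hE0 (Err := Err) e1 (by push_cast; linarith) hv2 hs0
  by_cases hP : u ∈ Pts x
  · rw [mem_Pts] at hP
    have g2 := g1.split hp0 hp1 (u := v) (v := v) hs0 (by omega) (by omega) (by omega) (by omega)
    have c2 := split_LC (u := v) (v := v) g1.1.le hs0 (by omega) (by omega) (by omega)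
    have s2 := split_step (G := G) (x := H88.split x s u v) (s := s) (u := v) (v := v)
      (by omega) (by omega) (by omega) (by omega)
    have k1 := h.1.cost_l hp0 hΓ hE0 e1 e2 hv1 hv2
    refine ⟨_, _, g2.mono (by omega) (by linarith) (by omega) (by omega), (s1.trans s2).mono ?_,
      s2.sub (split_mem hadj), ?_, c2.sB.trans c1.sB, ?_⟩
    · have z1 : (univ.filter fun w => s < x.l w ∧ x.l w ≤ x.r u) = ∅ :=
        filter_eq_empty_iff.mpr fun w _ => by omega
      have z2 : (univ.filter fun w => (H88.split x s u v).l v ≤ (H88.split x s u v).r w ∧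
          (H88.split x s u v).r w < s) = ∅ := filter_eq_empty_iff.mpr fun w _ => by omega
      have z3 : (deg G v (univ.filter fun w => s < (H88.split x s u v).l w ∧
          (H88.split x s u v).l w ≤ (H88.split x s u v).r v) : ℝ) ≤
          deg G v (univ.filter fun w => s < x.l w ∧ x.l w ≤ x.r v ∧ x.l w < 0) := by
        exact_mod_cast deg_mono fun w => by
          simp only [mem_filter, mem_univ, true_and]
          rcases split_l x s u v w with ⟨-, -, h5⟩ | ⟨-, h5, h6⟩ | ⟨-, h5, h6⟩ <;> omega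
      rw [z1, z2]
      simp only [deg, filter_empty, card_empty, Nat.cast_zero] at *
      linarith
    · rw [split_sA hs0, a1, insert_eq_of_mem (mem_sA.mpr hrv)]
    · have hvP : v ∉ Pts x := by
        rw [mem_Pts]
        intro hc
        exact hne (h.1.inj u v (by omega) (by omega))
      rw [← card_insert_of_notMem hvP]
      apply card_le_card
      intro w hw
      have hi := h.1.inj u w
      rw [mem_insert, mem_Pts] at hw
      rw [mem_Pts]
      by_cases hwv : w = v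
      · subst hwv
        rcases split_l (H88.split x s u w) s w w w with ⟨-, h5, -⟩ | ⟨-, -, h5⟩ | ⟨-, h5, -⟩ <;>
        rcases split_r (H88.split x s u w) s w w w with ⟨-, h6⟩ | ⟨h6, -⟩ | ⟨h6, -⟩ <;>
        first | omega | exact absurd rfl h5 | exact absurd rfl h6
      · have hw2 := hw.resolve_left hwv
        by_cases hwu : w = u
        · subst hwu
          rcases split_l (H88.split x s w v) s v v w with ⟨h5, -⟩ | ⟨-, h5, h7⟩ | ⟨-, h5, h7⟩ <;>
          rcases split_r (H88.split x s w v) s v v w with ⟨h6, -⟩ | ⟨-, h6, h8⟩ | ⟨-, h6, h8⟩ <;>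
          first | omega | exact absurd h5 hwv | exact absurd h6 hwv
        · have hrs : x.r w ≠ s := fun hc => hwu (hi (by omega) (by omega)).symm
          rcases split_l (H88.split x s u v) s v v w with ⟨h5, -⟩ | ⟨-, h5, h7⟩ | ⟨-, h5, h7⟩ <;>
          rcases split_r (H88.split x s u v) s v v w with ⟨h6, -⟩ | ⟨-, h6, h8⟩ | ⟨-, h6, h8⟩ <;>
          rcases split_l x s u v w with ⟨m5, -⟩ | ⟨-, m5, m7⟩ | ⟨-, m5, m7⟩ <;>
          rcases split_r x s u v w with ⟨m6, -⟩ | ⟨-, m6, m8⟩ | ⟨-, m6, m8⟩ <;>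
          first
            | omega
            | exact absurd h5 hwv
            | exact absurd h6 hwv
            | exact absurd m5 hwv
            | exact absurd m6 hwu
  · obtain ⟨z, hzu, hz1, hz2, hz3⟩ : ∃ z, z ≠ u ∧ (s - 1 ≤ (H88.split x s u v).l z ∧
        (H88.split x s u v).l z ≤ s) ∧ (H88.split x s u v).r z = x.r z ∧ s ≤ x.r z ∧
        ∀ w ∈ Pts x, x.l w = s → w = v ∨ w = z := by
      by_cases hc : ∃ z ∈ Pts x, x.l z = s ∧ z ≠ v
      · obtain ⟨z, hz1, hz2, hz3⟩ := hc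
        have hzu : z ≠ u := fun e => hP (e ▸ hz1)
        rw [mem_Pts] at hz1
        refine ⟨z, hzu, ?_, ?_, by omega, fun w hw hws => Or.inr ?_⟩
        · rcases split_l x s u v z with ⟨h5, -⟩ | ⟨-, -, h5⟩ | ⟨-, h5, -⟩
          · exact absurd h5 hz3
          · omega
          · omega
        · rcases split_r x s u v z with ⟨h5, -⟩ | ⟨-, h5, -⟩ | ⟨-, -, h5⟩
          · exact absurd h5 hzu
          · omega
          · exact h5
        · rw [mem_Pts] at hw
          exact h.1.inj w z (by omega) (by omega)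
      · refine ⟨v, hne.symm, by omega, rv, hv2, fun w hw hws => Or.inl ?_⟩
        by_contra hwv
        exact hc ⟨w, hw, hws, hwv⟩
    have g2 := g1.raise1 hp0 hp1 (z := u) (t := s - 1) (by omega) (by omega) (by omega)
    have c2 := raise1_LC g1.1.le (z := u) (t := s - 1) (by omega) (by omega) (by omega)
    have s2 := raise1_step (G := G) (x := H88.split x s u v) (z := u) (t := s - 1) (by omega)
    have lz : (H88.raise1 (H88.split x s u v) u (s - 1)).l z = (H88.split x s u v).l z := by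
      rcases raise1_l (H88.split x s u v) u (s - 1) z with ⟨h5, -⟩ | ⟨-, h5⟩
      · exact absurd h5 hzu
      · exact h5
    have g3 := g2.raise1 hp0 hp1 (z := z) (t := s) (by omega) (by rw [raise1_r]; omega) hs0
    have c3 := raise1_LC g2.1.le (z := z) (t := s) (by omega) (by rw [raise1_r]; omega) hs0
    have s3 := raise1_step (G := G) (x := H88.raise1 (H88.split x s u v) u (s - 1)) (z := z)
      (t := s) (by omega)
    have k1 := cost_u hp0 hΓ hE0 h e1 e2 hu1 hu2 hs0
    rw [if_pos hru] at k1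
    have ku := h.1.cost_r hp0 hΓ hE0 (Err := Err) e1 (by push_cast; linarith) hu2 hs0
    refine ⟨_, _, g3.mono (by omega) (by linarith) (by omega) (by omega),
      ((s1.trans s2).trans s3).mono ?_, s3.sub (s2.sub (split_mem hadj)), a1,
      c3.sB.trans (c2.sB.trans c1.sB), ?_⟩
    · have z1 : (deg G u (univ.filter fun w => (H88.split x s u v).l u ≤ (H88.split x s u v).r w ∧
          (H88.split x s u v).r w < s - 1) : ℝ) ≤
          deg G u (univ.filter fun w => x.l u ≤ x.r w ∧ x.r w < s) := by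
        exact_mod_cast deg_mono fun w => by
          simp only [mem_filter, mem_univ, true_and]
          rcases split_r x s u v w with ⟨-, h5⟩ | ⟨-, h5, h6⟩ | ⟨-, h5, h6⟩ <;> omega
      have z2 := card_r_range g2.1.inj (a := (H88.raise1 (H88.split x s u v) u (s - 1)).l z) hs0
      have z3 := deg_le_card (G := G) z (univ.filter fun w =>
        (H88.raise1 (H88.split x s u v) u (s - 1)).l z ≤
          (H88.raise1 (H88.split x s u v) u (s - 1)).r w ∧
          (H88.raise1 (H88.split x s u v) u (s - 1)).r w < s)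
      have z4 : (deg G z (univ.filter fun w =>
        (H88.raise1 (H88.split x s u v) u (s - 1)).l z ≤
          (H88.raise1 (H88.split x s u v) u (s - 1)).r w ∧
          (H88.raise1 (H88.split x s u v) u (s - 1)).r w < s) : ℝ) ≤ 1 := by
        exact_mod_cast (by omega)
      have z5 : (deg G u (univ.filter fun w => x.l u ≤ x.r w ∧ x.r w < s) : ℝ) +
          deg G v (univ.filter fun w => x.l v ≤ x.r w ∧ x.r w < s) ≤
          p * (XR x F s).card + Err := by
        by_cases hc : s = x.l u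
        · have : (univ.filter fun w => x.l u ≤ x.r w ∧ x.r w < s) = ∅ :=
            filter_eq_empty_iff.mpr fun w _ => by omega
          rw [this]
          simpa [deg] using kv
        · have : (univ.filter fun w => x.l v ≤ x.r w ∧ x.r w < s) = ∅ :=
            filter_eq_empty_iff.mpr fun w _ => by omega
          rw [this]
          simpa [deg] using ku
      linarith
    · rw [← card_insert_of_notMem hP]
      apply card_le_card
      intro w hw
      rw [mem_insert] at hw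
      rw [mem_Pts, raise1_r, raise1_r]
      rcases hw with rfl | hw
      · rcases raise1_l (H88.raise1 (H88.split x s w v) w (s - 1)) z s w with ⟨h5, -⟩ | ⟨-, h5⟩
        · exact absurd h5.symm hzu
        · rcases raise1_l (H88.split x s w v) w (s - 1) w with ⟨-, h6⟩ | ⟨h6, -⟩
          · omega
          · exact absurd rfl h6
      · have hwu : w ≠ u := fun e => hP (e ▸ hw)
        have h7 := hz3.2 w hw
        rw [mem_Pts] at hw
        rcases raise1_l (H88.raise1 (H88.split x s u v) u (s - 1)) z s w with ⟨h5, h8⟩ | ⟨h5, h8⟩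
        · subst h5
          rcases split_l x s u v w with ⟨m5, -⟩ | ⟨-, m5, m7⟩ | ⟨-, m5, m7⟩
          · subst m5; omega
          · omega
          · omega
        · rcases raise1_l (H88.split x s u v) u (s - 1) w with ⟨h6, -⟩ | ⟨-, h6⟩
          · exact absurd h6 hwu
          · by_cases hwv : w = v
            · subst hwv; omega
            · have hls : x.l w ≠ s := fun e => by
                rcases h7 e with h9 | h9
                · exact hwv h9
                · exact h5 h9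
              rcases split_l x s u v w with ⟨m5, -⟩ | ⟨-, m5, m7⟩ | ⟨-, m5, m7⟩ <;>
              rcases split_r x s u v w with ⟨m6, -⟩ | ⟨-, m6, m8⟩ | ⟨-, m6, m8⟩ <;>
              first | omega | exact absurd m5 hwv | exact absurd m6 hwu

end Pool.Agent.MP_0b991d_co.H88
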